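import Pool.Agent.Lib.H13M.D

set_option autoImplicit false

open scoped unitInterval Polynomial

namespace H13M

open H13K

variable {n : ℕ} {ι : Type}

private theorem c3_mv (q : MvPolynomial (Fin n) ℂ) :
    ContDiff ℂ 1 (fun x : Fin n → ℂ => MvPolynomial.eval x q) := by
  induction q using MvPolynomial.induction_on with
  | C a => simpa using contDiff_const
  | add p q hp hq => simpa using hp.add hq
  | mul_X p i hp => simpa using hp.mul (contDiff_apply ℂ ℂ i)

open Filter Topology in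
private theorem c3_contDiff (p : (MvPolynomial (Fin n) ℂ)[X]) : ContDiff ℂ 1 (ev p) := by
  have h : ev p = fun q : (Fin n → ℂ) × ℂ => ∑ k ∈ Finset.range (p.natDegree + 1),
      MvPolynomial.eval q.1 (p.coeff k) * q.2 ^ k := by
    funext q
    exact ev_eq_sum p q
  rw [h]
  exact ContDiff.sum fun i _ =>
    ((c3_mv (p.coeff i)).comp contDiff_fst).mul (contDiff_snd.pow i)

open Filter Topology in
private theorem c3_inv (p : (MvPolynomial (Fin n) ℂ)[X]) (u : (Fin n → ℂ) × ℂ)
    (h1 : ev (Polynomial.derivative p) u ≠ 0) :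
    ((fderiv ℂ (ev p) u) ∘L
      (ContinuousLinearMap.inr ℂ (Fin n → ℂ) ℂ)).IsInvertible := by
  have hd : HasFDerivAt (ev p) (fderiv ℂ (ev p) u) u :=
    ((c3_contDiff p).differentiable (by norm_num) u).hasFDerivAt
  have h2 : HasDerivAt (fun w : ℂ => ev p (u.1, w))
      ((fderiv ℂ (ev p) u) ((0 : Fin n → ℂ), (1 : ℂ))) u.2 := by
    have h3 : HasDerivAt (fun w : ℂ => (u.1, w)) ((0 : Fin n → ℂ), (1 : ℂ)) u.2 :=
      (hasDerivAt_const u.2 u.1).prodMk (hasDerivAt_id u.2)
    exact HasFDerivAt.comp_hasDerivAt (x := u.2) (f := fun w : ℂ => (u.1, w)) (l := ev p) hd h3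
  have h4 : HasDerivAt (fun w : ℂ => ev p (u.1, w)) (ev (Polynomial.derivative p) u) u.2 := by
    have h5 := (p.map (MvPolynomial.eval u.1)).hasDerivAt u.2
    rw [Polynomial.derivative_map] at h5
    exact h5
  have h6 := h2.unique h4
  refine ⟨ContinuousLinearEquiv.unitsEquivAut ℂ (Units.mk0 _ h1), ?_⟩
  ext
  simp [h6]

open Filter Topology in
private theorem c3_local (p : (MvPolynomial (Fin n) ℂ)[X]) (z₀ : Fin n → ℂ) (w₀ : ℂ)
    (h0 : ev p (z₀, w₀) = 0) (h1 : ev (Polynomial.derivative p) (z₀, w₀) ≠ 0) :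
    ∃ h : (Fin n → ℂ) → ℂ, h z₀ = w₀ ∧ (∀ᶠ z in 𝓝 z₀, DifferentiableAt ℂ h z) ∧
      ∀ᶠ z in 𝓝 z₀, ev p (z, h z) = 0 := by
  set F : (Fin n → ℂ) × ℂ → ℂ := ev p with hF
  have sd : ∀ u, HasStrictFDerivAt F (fderiv ℂ F u) u := fun u =>
    (c3_contDiff p).contDiffAt.hasStrictFDerivAt (by norm_num)
  have hi : ∀ u : (Fin n → ℂ) × ℂ, ev (Polynomial.derivative p) u ≠ 0 →
      ((fderiv ℂ F u) ∘L (ContinuousLinearMap.inr ℂ (Fin n → ℂ) ℂ)).IsInvertible :=
    fun u h => c3_inv p u h
  have e1 := (sd (z₀, w₀)).eventually_apply_eq_iff_implicitFunctionOfProdDomain (hi (z₀, w₀) h1)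
  have e2 := (sd (z₀, w₀)).tendsto_implicitFunctionOfProdDomain (hi (z₀, w₀) h1)
  have e3 := (sd (z₀, w₀)).eventually_apply_implicitFunctionOfProdDomain (hi (z₀, w₀) h1)
  set ψ := (sd (z₀, w₀)).implicitFunctionOfProdDomain (hi (z₀, w₀) h1) with hψ
  have hz : ψ z₀ = w₀ := e1.self_of_nhds.mp rfl
  have hG : Tendsto (fun x => (x, ψ x)) (𝓝 z₀) (𝓝 (z₀, w₀)) := by
    rw [nhds_prod_eq]
    exact tendsto_id.prodMk e2
  have hFu : F (z₀, w₀) = 0 := h0
  have e4 := hG.eventually (eventually_eventually_nhds.2 e1)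
  have e5 : ∀ᶠ x in 𝓝 z₀, ev (Polynomial.derivative p) (x, ψ x) ≠ 0 :=
    hG.eventually ((c3_contDiff (Polynomial.derivative p)).continuous.continuousAt.eventually_ne h1)
  refine ⟨ψ, hz, ?_, ?_⟩
  · filter_upwards [e3, e4, e5] with x h3 h4 h5
    have a1 := (sd (x, ψ x)).tendsto_implicitFunctionOfProdDomain (hi (x, ψ x) h5)
    have a2 := (sd (x, ψ x)).eventually_apply_implicitFunctionOfProdDomain (hi (x, ψ x) h5)
    have a3 := (sd (x, ψ x)).hasStrictFDerivAt_implicitFunctionOfProdDomain (hi (x, ψ x) h5)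
    set ψ' := (sd (x, ψ x)).implicitFunctionOfProdDomain (hi (x, ψ x) h5) with hψ'
    have hG' : Tendsto (fun y => (y, ψ' y)) (𝓝 x) (𝓝 (x, ψ x)) := by
      rw [nhds_prod_eq]
      exact tendsto_id.prodMk a1
    have a4 := hG'.eventually h4
    have a5 : ψ =ᶠ[𝓝 x] ψ' := by
      filter_upwards [a2, a4] with y h6 h7
      exact h7.1 (h6.trans h3)
    exact a3.hasFDerivAt.differentiableAt.congr_of_eventuallyEq a5
  · filter_upwards [e3] with x h3
    exact h3.trans hFu

open Filter Topology in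
/-- Local holomorphic roots (port of H13K.K3, implicit function theorem; the base is now Fin n → ℂ). -/
theorem local_roots (p : (MvPolynomial (Fin n) ℂ)[X]) (hp : p.Monic) (z₀ : Fin n → ℂ)
    (hs : ∀ w, ev p (z₀, w) = 0 → ev (Polynomial.derivative p) (z₀, w) ≠ 0) :
    ∃ ρ : ℝ, 0 < ρ ∧ ∃ h : Fin p.natDegree → (Fin n → ℂ) → ℂ,
      (∀ a, DifferentiableOn ℂ (h a) (Metric.ball z₀ ρ)) ∧
      (∀ z ∈ Metric.ball z₀ ρ, Function.Injective (fun a => h a z)) ∧
      ∀ z ∈ Metric.ball z₀ ρ,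
        p.map (MvPolynomial.eval z) = ∏ a, (Polynomial.X - Polynomial.C (h a z)) := by
  set P : ℂ[X] := p.map (MvPolynomial.eval z₀) with hP
  have hPm : P.Monic := hp.map _
  have hPd : P.natDegree = p.natDegree := hp.natDegree_map _
  have hcard : P.roots.card = p.natDegree := by
    rw [← hPd]
    exact Polynomial.splits_iff_card_roots.1 (IsAlgClosed.splits P)
  have hroot : ∀ w, P.IsRoot w ↔ ev p (z₀, w) = 0 := fun w => by
    rw [Polynomial.IsRoot.def, hP, ev]
  have hnd : P.roots.Nodup := by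
    rw [Multiset.nodup_iff_count_le_one]
    intro w
    rw [Polynomial.count_roots]
    by_contra hlt
    have h2 := (Polynomial.one_lt_rootMultiplicity_iff_isRoot hPm.ne_zero).1 (not_le.1 hlt)
    apply hs w ((hroot w).1 h2.1)
    have h3 := h2.2
    rw [Polynomial.IsRoot.def, hP, Polynomial.derivative_map] at h3
    exact h3
  have hfc : P.roots.toFinset.card = p.natDegree := by
    rw [Multiset.toFinset_card_of_nodup hnd, hcard]
  set r : Fin p.natDegree → ℂ :=
    fun a => ((P.roots.toFinset.equivFinOfCardEq hfc).symm a : ℂ) with hr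
  have hrinj : Function.Injective r := fun a b hab =>
    (P.roots.toFinset.equivFinOfCardEq hfc).symm.injective (Subtype.ext hab)
  have hr0 : ∀ a, ev p (z₀, r a) = 0 := fun a => by
    have h1 := ((P.roots.toFinset.equivFinOfCardEq hfc).symm a).2
    rw [Multiset.mem_toFinset, Polynomial.mem_roots hPm.ne_zero] at h1
    exact (hroot _).1 h1
  choose h hh0 hhd hhz using fun a => c3_local p z₀ (r a) (hr0 a) (hs _ (hr0 a))
  have hne : ∀ a b, a ≠ b → ∀ᶠ z in 𝓝 z₀, h a z ≠ h b z := by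
    intro a b hab
    have ha : Tendsto (h a) (𝓝 z₀) (𝓝 (h a z₀)) := (hhd a).self_of_nhds.continuousAt
    have hb : Tendsto (h b) (𝓝 z₀) (𝓝 (h b z₀)) := (hhd b).self_of_nhds.continuousAt
    have hd : h a z₀ - h b z₀ ≠ 0 := by
      rw [hh0, hh0]
      exact fun h' => hab (hrinj (sub_eq_zero.1 h'))
    filter_upwards [(ha.sub hb).eventually_ne hd] with z hz
    exact sub_ne_zero.1 hz
  have hall : ∀ᶠ z in 𝓝 z₀, (∀ a, DifferentiableAt ℂ (h a) z) ∧ (∀ a, ev p (z, h a z) = 0) ∧
      ∀ a b, a ≠ b → h a z ≠ h b z := by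
    refine (eventually_all.2 hhd).and ((eventually_all.2 hhz).and ?_)
    refine eventually_all.2 fun a => eventually_all.2 fun b => ?_
    by_cases hab : a = b
    · exact Eventually.of_forall fun z hz => (hz hab).elim
    · exact (hne a b hab).mono fun z hz _ => hz
  obtain ⟨ρ, hρ, hball⟩ := Metric.eventually_nhds_iff_ball.1 hall
  refine ⟨ρ, hρ, h, fun a z hz => ((hball z hz).1 a).differentiableWithinAt, ?_, ?_⟩
  · intro z hz a b hab
    by_contra hne'
    exact (hball z hz).2.2 a b hne' hab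
  · intro z hz
    have hinj : Function.Injective (fun a => h a z) := fun a b hab => by
      by_contra hne'
      exact (hball z hz).2.2 a b hne' hab
    apply Polynomial.eq_of_monic_of_dvd_of_natDegree_le
    · exact Polynomial.monic_prod_of_monic _ _ fun a _ => Polynomial.monic_X_sub_C _
    · exact hp.map _
    · apply Finset.prod_dvd_of_coprime
      · intro a _ b _ hab
        exact Polynomial.pairwise_coprime_X_sub_C hinj hab
      · intro a _
        rw [Polynomial.dvd_iff_isRoot, Polynomial.IsRoot.def]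
        exact (hball z hz).2.1 a
    · rw [hp.natDegree_map, Polynomial.natDegree_prod_of_monic _ _
        fun a _ => Polynomial.monic_X_sub_C _]
      simp

end H13M
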