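import Pool.Agent.Lib.H13M.D
import Pool.Agent.Lib.H13K.P1

set_option autoImplicit false

open scoped unitInterval Polynomial

namespace H13M

open H13K

variable {n : ℕ} {ι : Type}

private theorem c11_eval_bound (q : MvPolynomial (Fin n) ℂ) (z : Fin n → ℂ) :
    ‖MvPolynomial.eval z q‖ ≤ (∑ d ∈ q.support, ‖q.coeff d‖) * (1 + ‖z‖) ^ q.totalDegree := by
  rw [MvPolynomial.eval_eq', Finset.sum_mul]
  refine (norm_sum_le _ _).trans (Finset.sum_le_sum fun d hd => ?_)
  rw [norm_mul]
  refine mul_le_mul_of_nonneg_left ?_ (norm_nonneg _)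
  have h1 : ‖∏ i, z i ^ d i‖ ≤ ∏ i : Fin n, (1 + ‖z‖) ^ d i := by
    rw [norm_prod]
    refine Finset.prod_le_prod (fun i _ => norm_nonneg _) fun i _ => ?_
    rw [norm_pow]
    exact pow_le_pow_left₀ (norm_nonneg _) (by linarith [norm_le_pi_norm z i]) _
  refine h1.trans ?_
  rw [Finset.prod_pow_eq_pow_sum]
  refine pow_le_pow_right₀ (by linarith [norm_nonneg z]) ?_
  have h2 := MvPolynomial.le_totalDegree hd
  rwa [Finsupp.sum_fintype _ _ fun _ => rfl] at h2

/-- The roots of a monic polynomial grow at most polynomially (port of H13K.root_bound, K11.lean). -/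
theorem root_bound (p : (MvPolynomial (Fin n) ℂ)[X]) (hp : p.Monic) : ∃ (C : ℝ) (K : ℕ), 0 < C ∧
    ∀ (z : Fin n → ℂ) (w : ℂ), ev p (z, w) = 0 → ‖w‖ ≤ C * (1 + ‖z‖) ^ K := by
  classical
  set S : ℕ → ℝ := fun j =>
    ∑ d ∈ (p.coeff j).support, ‖(p.coeff j).coeff d‖ with hS
  set D : ℕ := ∑ j ∈ Finset.range p.natDegree, (p.coeff j).totalDegree with hD
  have hS0 : ∀ j, 0 ≤ S j := fun j => Finset.sum_nonneg fun k _ => norm_nonneg _
  refine ⟨1 + ∑ j ∈ Finset.range p.natDegree, S j, D,
    by linarith [Finset.sum_nonneg fun j (_ : j ∈ Finset.range p.natDegree) => hS0 j], ?_⟩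
  intro z w hw
  have hz1 : (1 : ℝ) ≤ 1 + ‖z‖ := by linarith [norm_nonneg z]
  have hpow : (1 : ℝ) ≤ (1 + ‖z‖) ^ D := one_le_pow₀ hz1
  have hSum0 : 0 ≤ ∑ j ∈ Finset.range p.natDegree, S j := Finset.sum_nonneg fun j _ => hS0 j
  have hle1 : (1 : ℝ) ≤ (1 + ∑ j ∈ Finset.range p.natDegree, S j) * (1 + ‖z‖) ^ D := by
    nlinarith
  rcases le_or_gt ‖w‖ 1 with h1 | h1
  · exact h1.trans hle1
  · have hcoef : ∀ j ∈ Finset.range p.natDegree,
        ‖MvPolynomial.eval z (p.coeff j)‖ ≤ S j * (1 + ‖z‖) ^ D := by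
      intro j hj
      refine (c11_eval_bound _ z).trans ?_
      refine mul_le_mul_of_nonneg_left ?_ (hS0 j)
      refine pow_le_pow_right₀ hz1 ?_
      exact Finset.single_le_sum (f := fun j => (p.coeff j).totalDegree)
        (fun _ _ => Nat.zero_le _) hj
    have hsum : ∑ j ∈ Finset.range p.natDegree, MvPolynomial.eval z (p.coeff j) * w ^ j +
        w ^ p.natDegree = 0 := by
      rw [← hw, ev_eq_sum, Finset.sum_range_succ, hp.coeff_natDegree, map_one, one_mul]
    have hn : p.natDegree ≠ 0 := by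
      intro h0
      rw [h0] at hsum
      simp at hsum
    obtain ⟨m, hm⟩ := Nat.exists_eq_succ_of_ne_zero hn
    have h3 : w ^ p.natDegree =
        -∑ j ∈ Finset.range p.natDegree, MvPolynomial.eval z (p.coeff j) * w ^ j := by
      linear_combination hsum
    have h4 : ‖w‖ ^ p.natDegree ≤
        (∑ j ∈ Finset.range p.natDegree, S j) * (1 + ‖z‖) ^ D * ‖w‖ ^ m := by
      rw [← norm_pow, h3, norm_neg]
      refine (norm_sum_le _ _).trans ?_
      rw [Finset.sum_mul, Finset.sum_mul]
      refine Finset.sum_le_sum fun j hj => ?_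
      rw [norm_mul, norm_pow]
      refine mul_le_mul (hcoef j hj) ?_ (by positivity) (by
        have := hS0 j
        positivity)
      refine pow_le_pow_right₀ h1.le ?_
      have := Finset.mem_range.1 hj
      omega
    have h5 : ‖w‖ ≤ (∑ j ∈ Finset.range p.natDegree, S j) * (1 + ‖z‖) ^ D := by
      have h6 : 0 < ‖w‖ ^ m := by positivity
      have e : ‖w‖ ^ p.natDegree = ‖w‖ * ‖w‖ ^ m := by
        rw [hm, Nat.succ_eq_add_one, pow_succ']
      rw [e] at h4
      exact le_of_mul_le_mul_right h4 h6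
    refine h5.trans ?_
    exact mul_le_mul_of_nonneg_right (by linarith) (by positivity)

/-- Convex open sets minus the hypersurfaces are path connected (as H13K.pc_compl, P1.lean: on the
complex line through two points a, b off the hypersurfaces the product of the P i is a nonzero one
variable polynomial, so it has finitely many zeros; the points t with a + t (b - a) ∈ U form an open
convex set; nonempty: over a fixed z there are finitely many roots w). -/
theorem NX_convex_pc [Finite ι] (P : ι → (MvPolynomial (Fin n) ℂ)[X]) (hm : ∀ i, (P i).Monic)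
    (U : Set ((Fin n → ℂ) × ℂ)) (hU : Convex ℝ U) (hUo : IsOpen U) (hne : U.Nonempty) :
    IsPathConnected (U ∩ NX P) := by
  classical
  cases nonempty_fintype ι
  set f : MvPolynomial (Fin (n + 1)) ℂ := (MvPolynomial.finSuccEquiv ℂ n).symm (∏ i, P i) with hf
  have hf0 : f ≠ 0 := by
    rw [hf]
    intro h
    have h2 : (∏ i, P i) = 0 := by
      rw [← (MvPolynomial.finSuccEquiv ℂ n).apply_symm_apply (∏ i, P i), h, map_zero]
    exact (Polynomial.monic_prod_of_monic _ _ fun i _ => hm i).ne_zero h2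
  set g : (Fin (n + 1) → ℂ) →ₗ[ℝ] (Fin n → ℂ) × ℂ :=
    (LinearMap.funLeft ℝ ℂ Fin.succ).prod (LinearMap.proj 0) with hg
  have hgapp : ∀ q : Fin (n + 1) → ℂ, g q = (fun i => q i.succ, q 0) := fun q => rfl
  have hgc : Continuous g := by
    have h : (g : (Fin (n + 1) → ℂ) → (Fin n → ℂ) × ℂ) = fun q => (fun i => q i.succ, q 0) := rfl
    rw [h]
    fun_prop
  have hgs : Function.Surjective g := by
    rintro ⟨z, w⟩
    exact ⟨Fin.cons w z, by rw [hgapp]; simp⟩
  have hev : ∀ q : Fin (n + 1) → ℂ, MvPolynomial.eval q f = ∏ i, ev (P i) (g q) := by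
    intro q
    have hq : q = Fin.cons (q 0) (fun i => q i.succ) := by
      funext i
      refine Fin.cases ?_ (fun j => ?_) i <;> simp
    have h1 : MvPolynomial.eval q f =
        MvPolynomial.eval (Fin.cons (q 0) (fun i => q i.succ) : Fin (n + 1) → ℂ) f := by
      rw [← hq]
    rw [h1, MvPolynomial.eval_eq_eval_mv_eval', hf, AlgEquiv.apply_symm_apply,
      Polynomial.map_prod, Polynomial.eval_prod]
    rfl
  have hpc := H13K.pc_compl (n + 1) f hf0 (g ⁻¹' U) (hU.linear_preimage g) (hUo.preimage hgc)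
    (by
      obtain ⟨u, hu⟩ := hne
      obtain ⟨q, rfl⟩ := hgs u
      exact ⟨q, hu⟩)
  have himg := hpc.image hgc
  have heq : g '' (g ⁻¹' U \ {z | MvPolynomial.eval z f = 0}) = U ∩ NX P := by
    ext u
    constructor
    · rintro ⟨q, ⟨hq1, hq2⟩, rfl⟩
      refine ⟨hq1, fun i h0 => hq2 ?_⟩
      show MvPolynomial.eval q f = 0
      rw [hev]
      exact Finset.prod_eq_zero (Finset.mem_univ i) h0
    · rintro ⟨hu, hx⟩
      obtain ⟨q, rfl⟩ := hgs u
      refine ⟨q, ⟨hu, fun h0 => ?_⟩, rfl⟩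
      have h1 : MvPolynomial.eval q f = 0 := h0
      rw [hev] at h1
      obtain ⟨i, _, hi⟩ := Finset.prod_eq_zero_iff.1 h1
      exact hx i hi
  rw [← heq]
  exact himg

end H13M
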