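import Pool.Agent.Lib.H13M.D
import Pool.Agent.Lib.H13M.C11
import Pool.Agent.Lib.H13K.T4

set_option autoImplicit false

open scoped unitInterval Polynomial

namespace H13M

open H13K

variable {n : ℕ} {ι : Type}

/-- The boundary relation of a square, for paths with given end points. -/
private theorem c19_sq {X : Type} [TopologicalSpace X] (F : C(I × I, X)) {a b c d : X}
    (α : Path a b) (β : Path b d) (α' : Path a c) (β' : Path c d)
    (h1 : ∀ t, α t = F (0, t)) (h2 : ∀ t, β t = F (t, 1)) (h3 : ∀ t, α' t = F (t, 0))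
    (h4 : ∀ t, β' t = F (1, t)) : (α.trans β).Homotopic (α'.trans β') := by
  have ha : a = F (0, 0) := by
    rw [← h1 0]
    exact α.source.symm
  have hb : b = F (0, 1) := by
    rw [← h1 1]
    exact α.target.symm
  have hc : c = F (1, 0) := by
    rw [← h3 1]
    exact α'.target.symm
  have hd : d = F (1, 1) := by
    rw [← h2 1]
    exact β.target.symm
  subst ha hb hc hd
  have e1 : α = sideL F := Path.ext (funext h1)
  have e2 : β = sideT F := Path.ext (funext h2)
  have e3 : α' = sideB F := Path.ext (funext h3)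
  have e4 : β' = sideR F := Path.ext (funext h4)
  rw [e1, e2, e3, e4]
  exact square_homotopic F

/-- The straight homotopy. -/
private theorem c19_lin {E : Type} [NormedAddCommGroup E] [NormedSpace ℝ E] (W : Set E)
    (α β : I → E) (hα : Continuous α) (hβ : Continuous β)
    (hW : ∀ s t : I, (1 - (s : ℝ)) • α t + (s : ℝ) • β t ∈ W) :
    ∃ F : C(I × I, W), ∀ s t : I, (F (s, t)).1 = (1 - (s : ℝ)) • α t + (s : ℝ) • β t := by
  refine ⟨⟨fun q => ⟨(1 - (q.1 : ℝ)) • α q.2 + (q.1 : ℝ) • β q.2, hW q.1 q.2⟩, ?_⟩,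
    fun s t => rfl⟩
  apply Continuous.subtype_mk
  fun_prop

private theorem c19_seg {E : Type} [NormedAddCommGroup E] [NormedSpace ℝ E] (c a b : E) (δ : ℝ)
    (ha : a ∈ Metric.ball c δ) (hb : b ∈ Metric.ball c δ) (s : I) :
    (1 - (s : ℝ)) • a + (s : ℝ) • b ∈ Metric.ball c δ := by
  apply convex_ball c δ ha hb
  · have := s.2.2
    linarith
  · exact s.2.1
  · ring

private theorem c19_open [Finite ι] (P : ι → (MvPolynomial (Fin n) ℂ)[X]) (T : Set ι) :
    IsOpen (NT P T) := by
  have h : NT P T = ⋂ i, {q | i ∉ T → ev (P i) q ≠ 0} := by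
    ext q
    simp [NT]
  rw [h]
  apply isOpen_iInter_of_finite
  intro i
  by_cases hi : i ∈ T
  · have h2 : {q : (Fin n → ℂ) × ℂ | i ∉ T → ev (P i) q ≠ 0} = Set.univ := by
      ext q
      simp [hi]
    rw [h2]
    exact isOpen_univ
  · have h2 : {q : (Fin n → ℂ) × ℂ | i ∉ T → ev (P i) q ≠ 0} = {q | ev (P i) q ≠ 0} := by
      ext q
      simp [hi]
    rw [h2]
    exact isOpen_ne_fun (continuous_ev (P i)) continuous_const

/-- Loops of NT P T can be moved into NX P.
Proof: γ a loop at x in the open set NT P T of the normed space (Fin n → ℂ) × ℂ; δ > 0 smaller than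
the distance of the image to the complement; `approx` with D = the complement of NX P
(`NX_convex_pc` for balls) gives γ' with γ' 0 = γ' 1, ‖γ' t - γ t‖ < δ, γ' t ∈ NX P; a path σ in
NX P ∩ ball x δ from x to γ' 0 (`NX_convex_pc`); p = σ γ' σ⁻¹.  In NT P T: the straight homotopy
from γ to γ' and the convexity of ball x δ (`square_homotopic`). -/
theorem surj [Finite ι] (P : ι → (MvPolynomial (Fin n) ℂ)[X]) (hm : ∀ i, (P i).Monic)
    (T : Set ι) (x : NX P) (γ : Path (inclT P T x) (inclT P T x)) :
    ∃ p : Path x x, (p.map (inclT P T).continuous).Homotopic γ := by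
  have hγc : Continuous fun t : I => (γ t).1 := by fun_prop
  obtain ⟨δ, hδ, hthick⟩ : ∃ δ > 0, ∀ t : I, Metric.ball (γ t).1 δ ⊆ NT P T := by
    have hK : IsCompact (Set.range fun t : I => (γ t).1) := isCompact_range hγc
    have hsub : (Set.range fun t : I => (γ t).1) ⊆ NT P T := by
      rintro _ ⟨t, rfl⟩
      exact (γ t).2
    obtain ⟨δ, hδ, h⟩ := hK.exists_thickening_subset_open (c19_open P T) hsub
    refine ⟨δ, hδ, fun t => ?_⟩
    have hmem : (γ t).1 ∈ Set.range fun t : I => (γ t).1 := ⟨t, rfl⟩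
    have hb := Metric.ball_subset_thickening hmem δ
    exact fun w hw => h (hb hw)
  have hD : ∀ (z : (Fin n → ℂ) × ℂ) (r : ℝ), 0 < r →
      IsPathConnected (Metric.ball z r \ (NX P)ᶜ) := by
    intro z r hr
    rw [Set.sdiff_compl]
    exact NX_convex_pc P hm _ (convex_ball z r) Metric.isOpen_ball ⟨z, Metric.mem_ball_self hr⟩
  obtain ⟨z', hz', hz'2⟩ := approx (NX P)ᶜ hD ⟨fun t => (γ t).1, hγc⟩ (by
    show (γ 0).1 = (γ 1).1
    rw [γ.source, γ.target]) δ hδ
  have hzN : ∀ t, z' t ∈ NX P := fun t => by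
    have := (hz'2 t).2
    simpa using this
  have hzb : ∀ t, z' t ∈ Metric.ball (γ t).1 δ := fun t => by
    rw [Metric.mem_ball, dist_eq_norm]
    exact (hz'2 t).1
  have hγ0 : (γ 0).1 = x.1 := by
    rw [γ.source]
    rfl
  have hγ1 : (γ 1).1 = x.1 := by
    rw [γ.target]
    rfl
  have hballx : Metric.ball x.1 δ ⊆ NT P T := by
    have := hthick 0
    rwa [hγ0] at this
  -- the path sg
  have hpc := hD x.1 δ hδ
  have hx1 : x.1 ∈ Metric.ball x.1 δ \ (NX P)ᶜ := by
    rw [Set.sdiff_compl]
    exact ⟨Metric.mem_ball_self hδ, x.2⟩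
  have hz1 : z' 0 ∈ Metric.ball x.1 δ \ (NX P)ᶜ := by
    rw [Set.sdiff_compl]
    have := hzb 0
    rw [hγ0] at this
    exact ⟨this, hzN 0⟩
  obtain ⟨sg, hsg⟩ := hpc.joinedIn _ hx1 _ hz1
  have hsb : ∀ t, sg t ∈ Metric.ball x.1 δ := fun t => (hsg t).1
  have hsN : ∀ t, sg t ∈ NX P := fun t => by
    have := (hsg t).2
    simpa using this
  let y : NX P := ⟨z' 0, hzN 0⟩
  let sg' : Path x y :=
    { toFun := fun t => ⟨sg t, hsN t⟩
      continuous_toFun := by
        apply Continuous.subtype_mk
        exact sg.continuous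
      source' := Subtype.ext sg.source
      target' := Subtype.ext sg.target }
  let γ' : Path y y :=
    { toFun := fun t => ⟨z' t, hzN t⟩
      continuous_toFun := by
        apply Continuous.subtype_mk
        exact z'.continuous
      source' := rfl
      target' := Subtype.ext hz'.symm }
  let sW : Path (inclT P T x) (inclT P T y) := sg'.map (inclT P T).continuous
  let γW : Path (inclT P T y) (inclT P T y) := γ'.map (inclT P T).continuous
  -- the straight homotopy from γ to z'
  obtain ⟨F, hF⟩ := c19_lin (NT P T) (fun t => (γ t).1) z' hγc z'.continuous (fun s t =>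
    hthick t (c19_seg _ _ _ δ (Metric.mem_ball_self hδ) (hzb t) s))
  let ℓ : Path (inclT P T x) (inclT P T y) :=
    { toFun := fun t => F (t, 0)
      continuous_toFun := by fun_prop
      source' := by
        apply Subtype.ext
        rw [hF]
        show (1 - ((0 : I) : ℝ)) • (γ 0).1 + ((0 : I) : ℝ) • z' 0 = x.1
        rw [hγ0]
        simp
      target' := by
        apply Subtype.ext
        rw [hF]
        simp [inclT, y] }
  have hsq1 : (γ.trans ℓ).Homotopic (ℓ.trans γW) := by
    apply c19_sq F γ ℓ ℓ γW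
    · intro t
      apply Subtype.ext
      rw [hF]
      simp
    · intro t
      apply Subtype.ext
      show (F (t, 0)).1 = (F (t, 1)).1
      rw [hF, hF, hγ0, hγ1, hz']
    · intro t
      rfl
    · intro t
      apply Subtype.ext
      rw [hF]
      show z' t = _
      simp
  have hℓb : ∀ t, (ℓ t).1 ∈ Metric.ball x.1 δ := by
    intro t
    show (F (t, 0)).1 ∈ _
    rw [hF]
    apply c19_seg
    · rw [hγ0]
      exact Metric.mem_ball_self hδ
    · exact hz1.1
  -- ℓ and sg are homotopic in the ball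
  have hsq2 : ℓ.Homotopic sW := by
    obtain ⟨G, hG⟩ := c19_lin (NT P T) (fun t => (ℓ t).1) (fun t => (sW t).1) (by fun_prop)
      (by fun_prop) (fun s t => hballx (c19_seg _ _ _ δ (hℓb t) (hsb t) s))
    have h := c19_sq G ℓ (Path.refl _) (Path.refl _) sW (by
        intro t
        apply Subtype.ext
        rw [hG]
        simp) (by
        intro t
        apply Subtype.ext
        rw [hG, ℓ.target, sW.target, ← add_smul]
        simp) (by
        intro t
        apply Subtype.ext
        rw [hG, ℓ.source, sW.source, ← add_smul]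
        simp) (by
        intro t
        apply Subtype.ext
        rw [hG]
        simp)
    exact (Path.Homotopic.trans ⟨(Path.Homotopy.transRefl ℓ).symm⟩ h).trans
      ⟨Path.Homotopy.reflTrans sW⟩
  have h1 : (γ.trans sW).Homotopic (sW.trans γW) :=
    ((Path.Homotopic.hcomp (Path.Homotopic.refl γ) hsq2.symm).trans hsq1).trans
      (Path.Homotopic.hcomp hsq2 (Path.Homotopic.refl γW))
  refine ⟨(sg'.trans γ').trans sg'.symm, ?_⟩
  have e1 : ((sg'.trans γ').trans sg'.symm).map (inclT P T).continuous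
      = (sW.trans γW).trans sW.symm := by
    rw [Path.map_trans, Path.map_trans, Path.map_symm]
  rw [e1]
  have h2 : ((sW.trans γW).trans sW.symm).Homotopic ((γ.trans sW).trans sW.symm) :=
    Path.Homotopic.hcomp h1.symm (Path.Homotopic.refl _)
  have h3 : ((γ.trans sW).trans sW.symm).Homotopic (γ.trans (sW.trans sW.symm)) :=
    ⟨Path.Homotopy.transAssoc γ sW sW.symm⟩
  have h4 : (γ.trans (sW.trans sW.symm)).Homotopic (γ.trans (Path.refl _)) :=
    Path.Homotopic.hcomp (Path.Homotopic.refl γ) ⟨(Path.Homotopy.reflTransSymm sW).symm⟩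
  have h5 : (γ.trans (Path.refl _)).Homotopic γ := ⟨Path.Homotopy.transRefl γ⟩
  exact ((h2.trans h3).trans h4).trans h5

end H13M
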