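import Pool.Agent.Lib.H13M.D

set_option autoImplicit false

open scoped unitInterval Polynomial

namespace H13M

open H13K

variable {n : ℕ} {ι : Type}

private theorem c1_coprime {K : Type} [Field K] {a b : K[X]} (ha : Irreducible a) (h : ¬ a ∣ b) :
    IsCoprime a b := ha.coprime_iff_not_dvd.2 h

private theorem c1_bezout {p q : (MvPolynomial (Fin n) ℂ)[X]} (hp : p.Monic) (hirr : Irreducible p)
    (hc : IsCoprime
      (p.map (algebraMap (MvPolynomial (Fin n) ℂ) (FractionRing (MvPolynomial (Fin n) ℂ))))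
      (q.map (algebraMap (MvPolynomial (Fin n) ℂ) (FractionRing (MvPolynomial (Fin n) ℂ))))) :
    ∃ r : MvPolynomial (Fin n) ℂ, r ≠ 0 ∧ ∀ x : (Fin n → ℂ) × ℂ,
      MvPolynomial.eval x.1 r ≠ 0 → ev p x = 0 → ev q x ≠ 0 := by
  have hinj : Function.Injective
      (algebraMap (MvPolynomial (Fin n) ℂ) (FractionRing (MvPolynomial (Fin n) ℂ))) :=
    IsFractionRing.injective _ _
  have hdeg : p.natDegree ≠ 0 := by
    intro h0
    have h1 := Polynomial.eq_one_of_monic_natDegree_zero hp h0
    exact hirr.not_isUnit (h1 ▸ isUnit_one)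
  obtain ⟨a, b, _, _, e⟩ := Polynomial.exists_mul_add_mul_eq_C_resultant p q le_rfl le_rfl
    (Or.inl hdeg)
  refine ⟨p.resultant q, ?_, fun x hr hpz hqz => hr ?_⟩
  · intro h0
    have h1 := (Polynomial.isUnit_resultant_iff_isCoprime (hp.map _)).2 hc
    rw [Polynomial.natDegree_map_eq_of_injective hinj, Polynomial.natDegree_map_eq_of_injective hinj,
      Polynomial.resultant_map_map, h0, map_zero] at h1
    exact not_isUnit_zero h1
  · have h1 := congrArg (fun f : (MvPolynomial (Fin n) ℂ)[X] => ev f x) e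
    simp only [ev, Polynomial.map_add, Polynomial.map_mul, Polynomial.map_C, Polynomial.eval_add,
      Polynomial.eval_mul, Polynomial.eval_C] at h1
    simp only [ev] at hpz hqz
    rw [hpz, hqz, zero_mul, zero_mul, add_zero] at h1
    exact h1.symm

/-- Existence of a discriminant (port of H13K.K1, same proof: MvPolynomial is a UFD, so integrally
closed; resultants of P i and its derivative and of P i and P j; r is the product). -/
theorem exists_disc [Fintype ι] (P : ι → (MvPolynomial (Fin n) ℂ)[X]) (hm : ∀ i, (P i).Monic)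
    (hirr : ∀ i, Irreducible (P i)) (hinj : Function.Injective P) :
    ∃ r : MvPolynomial (Fin n) ℂ, Disc P r := by
  classical
  have hinj' : Function.Injective
      (algebraMap (MvPolynomial (Fin n) ℂ) (FractionRing (MvPolynomial (Fin n) ℂ))) :=
    IsFractionRing.injective _ _
  have hirr' : ∀ i, Irreducible ((P i).map
      (algebraMap (MvPolynomial (Fin n) ℂ) (FractionRing (MvPolynomial (Fin n) ℂ)))) := fun i =>
    ((hm i).irreducible_iff_irreducible_map_fraction_map).1 (hirr i)
  have h1 : ∀ i, ∃ r : MvPolynomial (Fin n) ℂ, r ≠ 0 ∧ Simple (P i) r := by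
    intro i
    have hs : ((P i).map
        (algebraMap (MvPolynomial (Fin n) ℂ) (FractionRing (MvPolynomial (Fin n) ℂ)))).Separable :=
      (hirr' i).separable
    have hs' : IsCoprime ((P i).map
          (algebraMap (MvPolynomial (Fin n) ℂ) (FractionRing (MvPolynomial (Fin n) ℂ))))
        ((Polynomial.derivative (P i)).map
          (algebraMap (MvPolynomial (Fin n) ℂ) (FractionRing (MvPolynomial (Fin n) ℂ)))) := by
      rw [← Polynomial.derivative_map]
      exact hs
    obtain ⟨r, hr, h⟩ := c1_bezout (hm i) (hirr i) hs'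
    exact ⟨r, hr, h⟩
  have h2 : ∀ i j, ∃ r : MvPolynomial (Fin n) ℂ, r ≠ 0 ∧ (i ≠ j → ∀ x : (Fin n → ℂ) × ℂ,
      MvPolynomial.eval x.1 r ≠ 0 → ev (P i) x = 0 → ev (P j) x ≠ 0) := by
    intro i j
    by_cases hij : i = j
    · exact ⟨1, one_ne_zero, fun h => absurd hij h⟩
    · have hc : IsCoprime ((P i).map
            (algebraMap (MvPolynomial (Fin n) ℂ) (FractionRing (MvPolynomial (Fin n) ℂ))))
          ((P j).map
            (algebraMap (MvPolynomial (Fin n) ℂ) (FractionRing (MvPolynomial (Fin n) ℂ)))) := by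
        refine c1_coprime (hirr' i) fun h => ?_
        have h3 := (hirr' i).associated_of_dvd (hirr' j) h
        have h4 := Polynomial.eq_of_monic_of_associated ((hm i).map _) ((hm j).map _) h3
        exact hij (hinj (Polynomial.map_injective _ hinj' h4))
      obtain ⟨r, hr, h⟩ := c1_bezout (hm i) (hirr i) hc
      exact ⟨r, hr, fun _ => h⟩
  choose r hr hs using h1
  choose t ht hd using h2
  have hev : ∀ z : Fin n → ℂ, MvPolynomial.eval z ((∏ i, r i) * ∏ i, ∏ j, t i j) ≠ 0 →
      (∀ i, MvPolynomial.eval z (r i) ≠ 0) ∧ ∀ i j, MvPolynomial.eval z (t i j) ≠ 0 := by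
    intro z hz
    rw [map_mul, map_prod, map_prod] at hz
    have h3 := mul_ne_zero_iff.1 hz
    refine ⟨fun i => Finset.prod_ne_zero_iff.1 h3.1 i (Finset.mem_univ i), fun i j => ?_⟩
    have h4 := Finset.prod_ne_zero_iff.1 h3.2 i (Finset.mem_univ i)
    rw [map_prod] at h4
    exact Finset.prod_ne_zero_iff.1 h4 j (Finset.mem_univ j)
  refine ⟨(∏ i, r i) * ∏ i, ∏ j, t i j, ?_, ?_, ?_⟩
  · refine mul_ne_zero (Finset.prod_ne_zero_iff.2 fun i _ => hr i)
      (Finset.prod_ne_zero_iff.2 fun i _ => Finset.prod_ne_zero_iff.2 fun j _ => ht i j)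
  · intro i x hz
    exact hs i x ((hev x.1 hz).1 i)
  · intro i j x hij hz
    exact hd i j hij x ((hev x.1 hz).2 i j)

end H13M
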