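import Pool.Agent.Lib.H13M.D
import Pool.Agent.Lib.H13K.T1b
import Pool.Agent.Lib.H13M.C3
import Pool.Agent.Lib.H13M.C9

set_option autoImplicit false

open scoped unitInterval Polynomial

namespace H13M

open H13K

variable {n : ℕ} {ι : Type}

/-- The family of the small open sets of `W ∩ NY P r`. -/
private def c10U (P : ι → (MvPolynomial (Fin n) ℂ)[X]) (r : MvPolynomial (Fin n) ℂ) (T : Set ι)
    (W : Set ((Fin n → ℂ) × ℂ)) : Set (Set ↥(W ∩ NY P r)) :=
  {u | (∃ (c : (Fin n → ℂ) × ℂ) (s : ℝ), 0 < s ∧ Metric.ball c s ⊆ W ∩ NX P ∧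
      u = (Subtype.val : ↥(W ∩ NY P r) → (Fin n → ℂ) × ℂ) ⁻¹' Metric.ball c s) ∨
    ∃ (i : ι) (h : (Fin n → ℂ) → ℂ) (z₀ : Fin n → ℂ) (ρ ε : ℝ), i ∈ T ∧ 0 < ρ ∧ 0 < ε ∧
      ContinuousOn h (Metric.ball z₀ ρ) ∧
      (∀ z, ‖z - z₀‖ < ρ → MvPolynomial.eval z r ≠ 0 ∧ ev (P i) (z, h z) = 0) ∧
      (∀ z, ‖z - z₀‖ < ρ → ∀ b : ℂ, b ≠ 0 → ‖b‖ < ε → (z, h z + b) ∈ W ∩ NX P) ∧
      u = (Subtype.val : ↥(W ∩ NY P r) → (Fin n → ℂ) × ℂ) ⁻¹' ltube h z₀ ρ ε}

private theorem c10_open_tube (h : (Fin n → ℂ) → ℂ) (z₀ : Fin n → ℂ) (ρ ε : ℝ)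
    (hc : ContinuousOn h (Metric.ball z₀ ρ)) : IsOpen (ltube h z₀ ρ ε) := by
  have h1 : IsOpen {p : (Fin n → ℂ) × ℂ | p.1 ∈ Metric.ball z₀ ρ} :=
    Metric.isOpen_ball.preimage continuous_fst
  have h2 : ContinuousOn (fun p : (Fin n → ℂ) × ℂ => ‖p.2 - h p.1‖)
      {p : (Fin n → ℂ) × ℂ | p.1 ∈ Metric.ball z₀ ρ} :=
    (continuousOn_snd.sub (hc.comp continuousOn_fst fun p hp => hp)).norm
  have h3 := h2.isOpen_inter_preimage h1 (isOpen_Iio (a := ε))
  have h4 : ltube h z₀ ρ ε =
      {p : (Fin n → ℂ) × ℂ | p.1 ∈ Metric.ball z₀ ρ} ∩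
        (fun p : (Fin n → ℂ) × ℂ => ‖p.2 - h p.1‖) ⁻¹' Set.Iio ε := by
    ext p
    simp [ltube, dist_eq_norm]
  rw [h4]
  exact h3

private theorem c10_open_NX [Finite ι] (P : ι → (MvPolynomial (Fin n) ℂ)[X]) : IsOpen (NX P) := by
  have h : NX P = ⋂ i, {p : (Fin n → ℂ) × ℂ | ev (P i) p ≠ 0} := by
    ext p
    simp [NX]
  rw [h]
  exact isOpen_iInter_of_finite fun i => isOpen_ne_fun (continuous_ev (P i)) continuous_const

private theorem c10_basis [Finite ι] (P : ι → (MvPolynomial (Fin n) ℂ)[X]) (hm : ∀ i, (P i).Monic)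
    (r : MvPolynomial (Fin n) ℂ) (hr : Disc P r) (T : Set ι) (W : Set ((Fin n → ℂ) × ℂ))
    (hW : IsOpen W) (hWT : ∀ q ∈ W, ∀ i, i ∉ T → ev (P i) q ≠ 0)
    (y : ↥(W ∩ NY P r)) (o : Set ↥(W ∩ NY P r)) (ho : IsOpen o)
    (hy : y ∈ o) : ∃ u ∈ c10U P r T W, y ∈ u ∧ u ⊆ o := by
  obtain ⟨O, hO, rfl⟩ := isOpen_induced_iff.1 ho
  have hyO : y.1 ∈ O := hy
  have hyW : y.1 ∈ W := y.2.1
  by_cases hX : y.1 ∈ NX P
  · obtain ⟨s, hs, hb⟩ := Metric.isOpen_iff.1 (hO.inter (hW.inter (c10_open_NX P))) y.1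
      ⟨hyO, hyW, hX⟩
    exact ⟨_, Or.inl ⟨y.1, s, hs, fun p hp => (hb hp).2, rfl⟩, Metric.mem_ball_self hs,
      fun p hp => (hb hp).1⟩
  · have hX' : ∃ i, ev (P i) y.1 = 0 := by
      by_contra h
      push Not at h
      exact hX h
    obtain ⟨i, hi⟩ := hX'
    have hiT : i ∈ T := by
      by_contra h
      exact hWT y.1 hyW i h hi
    have hry : MvPolynomial.eval y.1.1 r ≠ 0 := by
      rcases y.2.2 with h | h
      · exact absurd h hX
      · exact h
    obtain ⟨ρ₀, hρ₀, h, hd, hinj, hprod⟩ := local_roots (P i) (hm i) y.1.1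
      (fun w hw => hr.simple i (y.1.1, w) hry hw)
    have hz0 : y.1.1 ∈ Metric.ball y.1.1 ρ₀ := Metric.mem_ball_self hρ₀
    have hev : ∀ z ∈ Metric.ball y.1.1 ρ₀, ∀ w, ev (P i) (z, w) = ∏ a, (w - h a z) := by
      intro z hz w
      show ((P i).map (MvPolynomial.eval z)).eval w = _
      rw [hprod z hz, Polynomial.eval_prod]
      simp
    have h0 := hev y.1.1 hz0 y.1.2
    rw [show ((y.1.1, y.1.2) : (Fin n → ℂ) × ℂ) = y.1 from rfl, hi] at h0
    obtain ⟨a, -, ha⟩ := Finset.prod_eq_zero_iff.1 h0.symm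
    have ha' : h a y.1.1 = y.1.2 := (sub_eq_zero.1 ha).symm
    have hcont : ∀ a', ContinuousOn (h a') (Metric.ball y.1.1 ρ₀) := fun a' => (hd a').continuousOn
    have hcat : ∀ a', ContinuousAt (h a') y.1.1 := fun a' =>
      (hcont a').continuousAt (Metric.isOpen_ball.mem_nhds hz0)
    have E : ∀ᶠ p in nhds y.1, (p ∈ O ∧ p ∈ W) ∧ p.1 ∈ Metric.ball y.1.1 ρ₀ ∧
        MvPolynomial.eval p.1 r ≠ 0 ∧
        (∀ j, j ≠ i → ev (P j) p ≠ 0) ∧ ∀ a', a' ≠ a → p.2 ≠ h a' p.1 := by
      refine Filter.Eventually.and (Filter.Eventually.and (hO.mem_nhds hyO) (hW.mem_nhds hyW))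
        (Filter.Eventually.and ?_ (Filter.Eventually.and ?_ (Filter.Eventually.and ?_ ?_)))
      · exact continuous_fst.continuousAt.eventually (Metric.isOpen_ball.mem_nhds hz0)
      · exact ((MvPolynomial.continuous_eval r).comp continuous_fst).continuousAt.eventually_ne hry
      · rw [Filter.eventually_all]
        intro j
        by_cases hj : j = i
        · exact Filter.Eventually.of_forall fun p h => absurd hj h
        · exact ((continuous_ev (P j)).continuousAt.eventually_ne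
            (hr.disj i j y.1 (Ne.symm hj) hry hi)).mono fun p hp _ => hp
      · rw [Filter.eventually_all]
        intro a'
        by_cases haa : a' = a
        · exact Filter.Eventually.of_forall fun p h => absurd haa h
        · have hne : y.1.2 - h a' y.1.1 ≠ 0 := by
            rw [← ha', sub_ne_zero]
            intro hh
            exact haa (hinj y.1.1 hz0 hh).symm
          have hc1 : ContinuousAt (fun p : (Fin n → ℂ) × ℂ => p.2 - h a' p.1) y.1 :=
            continuousAt_snd.sub (ContinuousAt.comp (f := Prod.fst) (g := h a') (x := y.1)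
              (hcat a') continuousAt_fst)
          exact (hc1.eventually_ne hne).mono fun p hp _ hp2 => hp (sub_eq_zero.2 hp2)
    obtain ⟨δ, hδ, hball⟩ := Metric.eventually_nhds_iff.1 E
    obtain ⟨ρ₁, hρ₁, hb1⟩ := Metric.continuousAt_iff.1 (hcat a) (δ / 2) (half_pos hδ)
    have hρ : 0 < min ρ₁ δ := lt_min hρ₁ hδ
    have key : ∀ z, ‖z - y.1.1‖ < min ρ₁ δ → ∀ w, ‖w - h a z‖ < δ / 2 →
        ((z, w) ∈ O ∧ (z, w) ∈ W) ∧ z ∈ Metric.ball y.1.1 ρ₀ ∧ MvPolynomial.eval z r ≠ 0 ∧
        (∀ j, j ≠ i → ev (P j) (z, w) ≠ 0) ∧ ∀ a', a' ≠ a → w ≠ h a' z := by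
      intro z hz w hw
      have h1 : dist (h a z) (h a y.1.1) < δ / 2 := hb1 (by
        rw [dist_eq_norm]
        exact hz.trans_le (min_le_left _ _))
      have h2 : dist (z, w) y.1 < δ := by
        rw [Prod.dist_eq, max_lt_iff]
        constructor
        · rw [dist_eq_norm]
          exact hz.trans_le (min_le_right _ _)
        · calc dist w y.1.2 ≤ dist w (h a z) + dist (h a z) y.1.2 := dist_triangle _ _ _
            _ < δ / 2 + δ / 2 := by
                refine add_lt_add ?_ ?_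
                · rw [dist_eq_norm]
                  exact hw
                · rw [← ha']
                  exact h1
            _ = δ := add_halves δ
      exact hball h2
    have hself : ∀ z, ‖z - y.1.1‖ < min ρ₁ δ → z ∈ Metric.ball y.1.1 ρ₀ ∧
        MvPolynomial.eval z r ≠ 0 := by
      intro z hz
      have h1 := key z hz (h a z) (by simpa using half_pos hδ)
      exact ⟨h1.2.1, h1.2.2.1⟩
    refine ⟨_, Or.inr ⟨i, h a, y.1.1, min ρ₁ δ, δ / 2, hiT, hρ, half_pos hδ, ?_, ?_, ?_, rfl⟩,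
      ?_, ?_⟩
    · refine (hcont a).mono fun z hz => (hself z ?_).1
      exact mem_ball_iff_norm.1 hz
    · intro z hz
      refine ⟨(hself z hz).2, ?_⟩
      rw [hev z (hself z hz).1]
      exact Finset.prod_eq_zero (Finset.mem_univ a) (sub_self _)
    · intro z hz b hb0 hb
      have hk := key z hz (h a z + b) (by simpa using hb)
      refine ⟨hk.1.2, fun j => ?_⟩
      by_cases hj : j = i
      · subst hj
        rw [hev z hk.2.1, Finset.prod_ne_zero_iff]
        intro a' _
        by_cases haa : a' = a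
        · subst haa
          simpa using hb0
        · exact sub_ne_zero.2 (hk.2.2.2.2 a' haa)
      · exact hk.2.2.2.1 j hj
    · refine ⟨?_, ?_⟩
      · simpa using hρ
      · rw [ha']
        simpa using half_pos hδ
    · rintro p ⟨hp1, hp2⟩
      exact (key p.1.1 hp1 p.1.2 hp2).1.1

/-- Local version of H13K.eq_of_homotopic_CY (K10.lean): W is open and meets only hypersurfaces of T;
a functional killing the meridians of T only depends, for paths inside W, on the homotopy class in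
W ∩ NY P r.  Proof: `extend` for j = inclWY P r W and the functional Φ.comap (inclW P W); basis:
nonempty convex open sets inside W ∩ NX P and local tubes inside W around the root functions of
P i, i ∈ T (`local_roots`; the points of (W ∩ NY) outside of NX lie over r ≠ 0 on exactly one P i,
and i ∈ T); meridians inside the tube are killed by hk. -/
theorem eqW [Finite ι] (P : ι → (MvPolynomial (Fin n) ℂ)[X]) (hm : ∀ i, (P i).Monic)
    (r : MvPolynomial (Fin n) ℂ) (hr : Disc P r) (T : Set ι) (W : Set ((Fin n → ℂ) × ℂ))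
    (hW : IsOpen W) (hWT : ∀ q ∈ W, ∀ i, i ∉ T → ev (P i) q ≠ 0) {H : Type} [Group H]
    (Φ : PF (NX P) H) (hk : Kills T r Φ) {x x' : ↥(W ∩ NX P)} (p q : Path x x')
    (h : (p.map (inclWY P r W).continuous).Homotopic (q.map (inclWY P r W).continuous)) :
    Φ.val (p.map (inclW P W).continuous) = Φ.val (q.map (inclW P W).continuous) := by
  refine extend (inclWY P r W) (Φ.comap (inclW P W)) (c10U P r T W) ?_
    (c10_basis P hm r hr T W hW hWT) ?_ ?_ ?_ p q h
  · rintro u (⟨c, s, hs, hc, rfl⟩ | ⟨i, f, z₀, ρ, ε, hi, hρ, hε, hf, hroot, hoff, rfl⟩)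
    · exact Metric.isOpen_ball.preimage continuous_subtype_val
    · exact (c10_open_tube f z₀ ρ ε hf).preimage continuous_subtype_val
  · rintro u (⟨c, s, hs, hc, rfl⟩ | ⟨i, f, z₀, ρ, ε, hi, hρ, hε, hf, hroot, hoff, rfl⟩)
    · exact ⟨⟨c, hc (Metric.mem_ball_self hs)⟩, Metric.mem_ball_self hs⟩
    · have hn : ‖((ε / 2 : ℝ) : ℂ)‖ = ε / 2 := by
        rw [Complex.norm_real, Real.norm_eq_abs, abs_of_pos (half_pos hε)]
      refine ⟨⟨(z₀, f z₀ + ((ε / 2 : ℝ) : ℂ)), hoff z₀ (by simpa using hρ) _ ?_ ?_⟩, ?_, ?_⟩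
      · intro h0
        rw [h0, norm_zero] at hn
        linarith
      · rw [hn]
        linarith
      · show ‖z₀ - z₀‖ < ρ
        simpa using hρ
      · show ‖f z₀ + ((ε / 2 : ℝ) : ℂ) - f z₀‖ < ε
        rw [add_sub_cancel_left, hn]
        linarith
  · rintro u (⟨c, s, hs, hc, rfl⟩ | ⟨i, f, z₀, ρ, ε, hi, hρ, hε, hf, hroot, hoff, rfl⟩) x x' hx hx'
    · have hj : JoinedIn (Metric.ball c s) x.1 x'.1 :=
        ((convex_ball c s).isPathConnected ⟨x.1, hx⟩).joinedIn x.1 hx x'.1 hx'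
      refine ⟨⟨⟨fun t => ⟨hj.somePath t, hc (hj.somePath_mem t)⟩,
        Continuous.subtype_mk hj.somePath.continuous _⟩, ?_, ?_⟩, fun t => hj.somePath_mem t⟩
      · apply Subtype.ext
        simp
      · apply Subtype.ext
        simp
    · exact ltube_pc (W ∩ NX P) f z₀ ρ ε hρ hε hf hoff
        (fun z hz hmem => hmem.2 i (hroot z hz).2) x x' hx hx'
  · rintro u (⟨c, s, hs, hc, rfl⟩ | ⟨i, f, z₀, ρ, ε, hi, hρ, hε, hf, hroot, hoff, rfl⟩) x p hp
    · have hx : x.1 ∈ Metric.ball c s := by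
        have h0 := hp 0
        rw [p.source] at h0
        exact h0
      have : ContractibleSpace (Metric.ball c s) :=
        (convex_ball c s).contractibleSpace ⟨c, Metric.mem_ball_self hs⟩
      let j : C(Metric.ball c s, ↥(W ∩ NX P)) :=
        ⟨fun z => ⟨z.1, hc z.2⟩, Continuous.subtype_mk continuous_subtype_val _⟩
      let p' : Path (⟨x.1, hx⟩ : Metric.ball c s) ⟨x.1, hx⟩ :=
        { toFun := fun t => ⟨(p t).1, hp t⟩
          continuous_toFun := Continuous.subtype_mk (continuous_subtype_val.comp p.continuous) _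
          source' := by
            apply Subtype.ext
            simp
          target' := by
            apply Subtype.ext
            simp }
      have h1 : ((Φ.comap (inclW P W)).comap j).val p' =
          ((Φ.comap (inclW P W)).comap j).val (Path.refl _) :=
        PF.val_eq_of_simplyConnected _ _ _
      rw [PF.val_refl] at h1
      have h2 : (Φ.comap (inclW P W)).val p = ((Φ.comap (inclW P W)).comap j).val p' := rfl
      rw [h2, h1]
    · refine ltube_kill (W ∩ NX P) f z₀ ρ ε hρ hε hf hoff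
        (fun z hz hmem => hmem.2 i (hroot z hz).2) (Φ.comap (inclW P W)) ?_ x p hp
      intro z a hz ha0 ha x₁ p₁ hp₁
      have hadm : Adm P z (f z) a :=
        ⟨ha0, fun b hb0 hb j => (hoff z hz b hb0 (hb.trans_lt ha)).2 j⟩
      have hx₁ : inclW P W x₁ = mbase P z (f z) a hadm := by
        apply Subtype.ext
        have h0 := hp₁ 0
        rw [p₁.source] at h0
        show x₁.1 = _
        rw [h0]
        simp [mbase]
      have hpe : p₁.map (inclW P W).continuous = (mer P z (f z) a hadm).cast hx₁ hx₁ := by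
        apply Path.ext
        funext t
        apply Subtype.ext
        exact hp₁ t
      show Φ.val (p₁.map (inclW P W).continuous) = 1
      rw [hpe, PF.val_cast]
      exact hk i hi z (f z) a hadm (hroot z hz).1 (hroot z hz).2

end H13M
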