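import Pool.Agent.Lib.H13M.D
import Pool.Agent.Lib.H13M.C10
import Pool.Agent.Lib.H13M.C11
import Pool.Agent.Lib.H13K.T4
import Pool.Agent.Lib.H13K.P1

set_option autoImplicit false

open scoped unitInterval Polynomial

namespace H13M

open H13K

variable {n : ℕ} {ι : Type}

private theorem c12_cast_homotopic {X : Type} [TopologicalSpace X] {x y x' y' : X} {p q : Path x y}
    (hx : x' = x) (hy : y' = y) (h : (p.cast hx hy).Homotopic (q.cast hx hy)) :
    p.Homotopic q := by
  subst hx hy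
  exact h

/-- The boundary relation of a square with equal bottom and top. -/
private theorem c12_free {Y : Type} [TopologicalSpace Y] (F : C(I × I, Y)) {a b : Y} (L : Path a a)
    (R : Path b b) (B : Path a b) (hL : ∀ t, F (0, t) = L t) (hR : ∀ t, F (1, t) = R t)
    (hB : ∀ s, F (s, 0) = B s) (hT : ∀ s, F (s, 1) = B s)
    (hnull : R.Homotopic (Path.refl b)) : L.Homotopic (Path.refl a) := by
  have h00 : F (0, 0) = a := by rw [hL, L.source]
  have h01 : F (0, 1) = a := by rw [hL, L.target]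
  have h11 : F (1, 1) = b := by rw [hR, R.target]
  have h10 : F (1, 0) = b := by rw [hR, R.source]
  have hsq := square_homotopic F
  have e1 : (sideL F).trans (sideT F) = (L.trans B).cast h00 h11 := by
    ext t
    simp only [Path.cast_coe, Path.trans_apply]
    split_ifs with h
    · exact hL _
    · exact hT _
  have e2 : (sideB F).trans (sideR F) = (B.trans R).cast h00 h11 := by
    ext t
    simp only [Path.cast_coe, Path.trans_apply]
    split_ifs with h
    · exact hB _
    · exact hR _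
  rw [e1, e2] at hsq
  have h := c12_cast_homotopic _ _ hsq
  -- L ~ (L B) B⁻¹ ~ (B R) B⁻¹ ~ B B⁻¹ ~ refl
  have h1 : (B.trans R).Homotopic B :=
    ((Path.Homotopic.refl B).hcomp hnull).trans ⟨Path.Homotopy.transRefl B⟩
  have h2 : ((L.trans B).trans B.symm).Homotopic (B.trans B.symm) :=
    (h.trans h1).hcomp (Path.Homotopic.refl _)
  have h3 : (B.trans B.symm).Homotopic (Path.refl a) := ⟨(Path.Homotopy.reflTransSymm B).symm⟩
  have h4 : ((L.trans B).trans B.symm).Homotopic (L.trans (B.trans B.symm)) :=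
    ⟨Path.Homotopy.transAssoc L B B.symm⟩
  have h5 : (L.trans (B.trans B.symm)).Homotopic L :=
    ((Path.Homotopic.refl L).hcomp h3).trans ⟨Path.Homotopy.transRefl L⟩
  exact (h5.symm.trans h4.symm).trans (h2.trans h3)

private theorem c12_val_congr {X : Type} [TopologicalSpace X] {H : Type} [Group H] (Φ : PF X H)
    {x y x' y' : X} (p : Path x y) (q : Path x' y') (h : ∀ t, p t = q t) :
    Φ.val p = Φ.val q := by
  have hx : x = x' := by rw [← p.source, h, q.source]
  have hy : y = y' := by rw [← p.target, h, q.target]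
  subst hx hy
  congr 1
  ext t
  exact h t


private theorem c12_isOpen [Finite ι] (P : ι → (MvPolynomial (Fin n) ℂ)[X]) : IsOpen (NX P) := by
  have h : NX P = ⋂ i, {q : (Fin n → ℂ) × ℂ | ev (P i) q ≠ 0} := by
    ext q
    simp [NX]
  rw [h]
  exact isOpen_iInter_of_finite fun i => isOpen_ne_fun (continuous_ev _) continuous_const

/-- Polydiscs: loops inside N × B are killed if B contains a value w₁ that is no root over N and all
hypersurfaces that meet N × B belong to T.
Proof: as H13K.kills_all2 (K12.lean).  p t = (z t, w t).  `approx` with D = {r = 0} (`pc_compl`) and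
small ε: z' t close to z t, closed, off r = 0, in N, and all (z t + s (z' t - z t), w t) stay in
NX P; `PF.square`: Φ p is conjugate to Φ p' for p' t = (z' t, w t).  W = N × B: in W ∩ NY P r the
square (s, t) ↦ (z' t, (1 - s) w t + s w₁) and then (s, t) ↦ (z' t + s (z' 0 - z' t), w₁) show that
p' is null homotopic there; `eqW` with q = Path.refl. -/
theorem poly_kill [Finite ι] (P : ι → (MvPolynomial (Fin n) ℂ)[X]) (hm : ∀ i, (P i).Monic)
    (r : MvPolynomial (Fin n) ℂ) (hr : Disc P r) (T : Set ι) (N : Set (Fin n → ℂ)) (B : Set ℂ)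
    (hN : Convex ℝ N) (hNo : IsOpen N) (hB : Convex ℝ B) (hBo : IsOpen B) (w₁ : ℂ) (hw₁ : w₁ ∈ B)
    (hw : ∀ z ∈ N, ∀ i, ev (P i) (z, w₁) ≠ 0)
    (hT : ∀ z ∈ N, ∀ w ∈ B, ∀ i, i ∉ T → ev (P i) (z, w) ≠ 0) {H : Type} [Group H]
    (Φ : PF (NX P) H) (hk : Kills T r Φ) (x : NX P) (p : Path x x)
    (hp : ∀ t, (p t).1.1 ∈ N ∧ (p t).1.2 ∈ B) : Φ.val p = 1 := by
  -- the components
  let z : C(I, Fin n → ℂ) := ⟨fun t => (p t).1.1, by fun_prop⟩
  let w : C(I, ℂ) := ⟨fun t => (p t).1.2, by fun_prop⟩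
  have hz01 : z 0 = z 1 := by
    show (p 0).1.1 = (p 1).1.1
    rw [p.source, p.target]
  have hw01 : w 0 = w 1 := by
    show (p 0).1.2 = (p 1).1.2
    rw [p.source, p.target]
  have hwB : ∀ t, w t ∈ B := fun t => (hp t).2
  -- the epsilon
  have hcomp : IsCompact (Set.range (fun t : I => ((z t, w t) : (Fin n → ℂ) × ℂ))) :=
    isCompact_range (by fun_prop)
  obtain ⟨ε, hε, hthick⟩ := hcomp.exists_thickening_subset_open
    ((c12_isOpen P).inter (hNo.preimage continuous_fst)) (by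
      rintro _ ⟨t, rfl⟩
      exact ⟨(p t).2, (hp t).1⟩)
  have hmem2 : ∀ (t : I) (v : Fin n → ℂ), ‖v - z t‖ < ε →
      ((v, w t) : (Fin n → ℂ) × ℂ) ∈ NX P ∧ v ∈ N := by
    intro t v hv
    have h1 : ((v, w t) : (Fin n → ℂ) × ℂ) ∈ NX P ∩ Prod.fst ⁻¹' N := by
      apply hthick
      rw [Metric.mem_thickening_iff]
      refine ⟨(z t, w t), ⟨t, rfl⟩, ?_⟩
      rw [Prod.dist_eq, dist_self, dist_eq_norm]
      exact max_lt hv hε
    exact h1
  have hmem : ∀ (t : I) (v : Fin n → ℂ), ‖v - z t‖ < ε → ((v, w t) : (Fin n → ℂ) × ℂ) ∈ NX P :=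
    fun t v hv => (hmem2 t v hv).1
  have hD : ∀ (z : Fin n → ℂ) (ρ : ℝ), 0 < ρ →
      IsPathConnected (Metric.ball z ρ \ {z : Fin n → ℂ | MvPolynomial.eval z r = 0}) :=
    fun z ρ hρ => pc_compl n r hr.ne _ (convex_ball z ρ) Metric.isOpen_ball
      ⟨z, Metric.mem_ball_self hρ⟩
  obtain ⟨z', hz'01, hz'⟩ := approx {z : Fin n → ℂ | MvPolynomial.eval z r = 0} hD z hz01 ε hε
  have hz'N : ∀ t, z' t ∈ N := fun t => (hmem2 t _ (hz' t).1).2
  -- first square
  let F : C(I × I, NX P) :=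
    ⟨fun a => ⟨(z a.2 + (a.1 : ℝ) • (z' a.2 - z a.2), w a.2), hmem _ _ (by
      rw [add_sub_cancel_left, norm_smul, Real.norm_eq_abs, abs_of_nonneg a.1.2.1]
      exact lt_of_le_of_lt (mul_le_of_le_one_left (norm_nonneg _) a.1.2.2) (hz' a.2).1)⟩, by
      apply Continuous.subtype_mk
      fun_prop⟩
  have hF : ∀ s t, (F (s, t)).1 = (z t + (s : ℝ) • (z' t - z t), w t) := fun s t => rfl
  have hsq := Φ.square F
  have hTB : Φ.val (sideT F) = Φ.val (sideB F) := by
    apply c12_val_congr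
    intro s
    show F (s, 1) = F (s, 0)
    apply Subtype.ext
    rw [hF, hF, hz01, hz'01, hw01]
  have hLp : Φ.val (sideL F) = Φ.val p := by
    apply c12_val_congr
    intro t
    show F (0, t) = p t
    apply Subtype.ext
    rw [hF]
    simp [z, w]
  suffices hR : Φ.val (sideR F) = 1 by
    rw [hTB, hLp, hR, one_mul] at hsq
    simpa using hsq
  -- the loop in W
  let W : Set ((Fin n → ℂ) × ℂ) := N ×ˢ B
  have hWo : IsOpen W := hNo.prod hBo
  have hF1W : ∀ t : I, ((z' t, w t) : (Fin n → ℂ) × ℂ) ∈ W ∩ NX P := fun t =>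
    ⟨⟨hz'N t, hwB t⟩, hmem t _ (hz' t).1⟩
  let x' : ↥(W ∩ NX P) := ⟨(z' 0, w 0), hF1W 0⟩
  let p' : Path x' x' :=
    { toFun := fun t => ⟨(z' t, w t), hF1W t⟩
      continuous_toFun := by
        apply Continuous.subtype_mk
        fun_prop
      source' := rfl
      target' := by
        apply Subtype.ext
        show (z' 1, w 1) = (z' 0, w 0)
        rw [hz'01, hw01] }
  have hR1 : Φ.val (sideR F) = Φ.val (p'.map (inclW P W).continuous) := by
    apply c12_val_congr
    intro t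
    show F (1, t) = _
    apply Subtype.ext
    rw [hF]
    show _ = (z' t, w t)
    simp
  have hR2 : Φ.val ((Path.refl x').map (inclW P W).continuous) = 1 := by
    rw [← Φ.val_refl (inclW P W x')]
    apply c12_val_congr
    intro t
    rfl
  rw [hR1, ← hR2]
  apply eqW P hm r hr T W hWo (fun q hq i hi => hT q.1 hq.1 q.2 hq.2 i hi) Φ hk
  -- membership over a point off the discriminant
  have hYY : ∀ (t : I) (c : ℂ), c ∈ B → ((z' t, c) : (Fin n → ℂ) × ℂ) ∈ W ∩ NY P r := by
    intro t c hc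
    exact ⟨⟨hz'N t, hc⟩, Or.inr (hz' t).2⟩
  have hζN : ∀ a : I × I, z' 0 + (1 - (a.1 : ℝ)) • (z' a.2 - z' 0) ∈ N := by
    intro a
    have h1 := hN (hz'N 0) (hz'N a.2) (a := (a.1 : ℝ)) (b := 1 - (a.1 : ℝ)) a.1.2.1
      (sub_nonneg.2 a.1.2.2) (by ring)
    have h2 : z' 0 + (1 - (a.1 : ℝ)) • (z' a.2 - z' 0)
        = (a.1 : ℝ) • z' 0 + (1 - (a.1 : ℝ)) • z' a.2 := by
      module
    rw [h2]
    exact h1
  let b : ↥(W ∩ NY P r) := ⟨(z' 0, w₁), hYY 0 _ hw₁⟩
  let R1 : Path b b :=
    { toFun := fun t => ⟨(z' t, w₁), hYY t _ hw₁⟩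
      continuous_toFun := by
        apply Continuous.subtype_mk
        fun_prop
      source' := rfl
      target' := by
        apply Subtype.ext
        show (z' 1, w₁) = (z' 0, w₁)
        rw [hz'01] }
  have hnull1 : R1.Homotopic (Path.refl b) := by
    let F2 : C(I × I, ↥(W ∩ NY P r)) :=
      ⟨fun a => ⟨(z' 0 + (1 - (a.1 : ℝ)) • (z' a.2 - z' 0), w₁),
        ⟨hζN a, hw₁⟩, Or.inl (hw _ (hζN a))⟩, by
        apply Continuous.subtype_mk
        fun_prop⟩
    have hF2 : ∀ s t, (F2 (s, t)).1 = (z' 0 + (1 - (s : ℝ)) • (z' t - z' 0), w₁) :=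
      fun s t => rfl
    refine c12_free F2 R1 (Path.refl b) (Path.refl b) ?_ ?_ ?_ ?_ (Path.Homotopic.refl _)
    · intro t
      apply Subtype.ext
      rw [hF2]
      show _ = (z' t, w₁)
      simp
    · intro t
      apply Subtype.ext
      rw [hF2]
      show _ = (z' 0, w₁)
      simp
    · intro s
      apply Subtype.ext
      rw [hF2]
      show _ = (z' 0, w₁)
      simp
    · intro s
      apply Subtype.ext
      rw [hF2]
      show _ = (z' 0, w₁)
      simp [hz'01]
  -- third square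
  have hconv : ∀ a : I × I, (1 - ((a.1 : ℝ) : ℂ)) * w a.2 + ((a.1 : ℝ) : ℂ) * w₁ ∈ B := by
    intro a
    have h1 := hB (hwB a.2) hw₁ (a := 1 - (a.1 : ℝ)) (b := (a.1 : ℝ)) (sub_nonneg.2 a.1.2.2)
      a.1.2.1 (by ring)
    have h2 : (1 - ((a.1 : ℝ) : ℂ)) * w a.2 + ((a.1 : ℝ) : ℂ) * w₁
        = (1 - (a.1 : ℝ)) • w a.2 + (a.1 : ℝ) • w₁ := by
      rw [Complex.real_smul, Complex.real_smul]
      push_cast
      ring
    rw [h2]
    exact h1
  let F1 : C(I × I, ↥(W ∩ NY P r)) :=
    ⟨fun a => ⟨(z' a.2, (1 - ((a.1 : ℝ) : ℂ)) * w a.2 + ((a.1 : ℝ) : ℂ) * w₁),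
      hYY _ _ (hconv a)⟩, by
      apply Continuous.subtype_mk
      fun_prop⟩
  have hF1 : ∀ s t, (F1 (s, t)).1 =
      (z' t, (1 - ((s : ℝ) : ℂ)) * w t + ((s : ℝ) : ℂ) * w₁) := fun s t => rfl
  have ha : F1 (0, 0) = inclWY P r W x' := by
    apply Subtype.ext
    refine Prod.ext rfl ?_
    show (1 - (((0 : I) : ℝ) : ℂ)) * w 0 + (((0 : I) : ℝ) : ℂ) * w₁ = w 0
    simp
  let C : Path (inclWY P r W x') b :=
    { toFun := fun s => F1 (s, 0)
      continuous_toFun := by fun_prop
      source' := ha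
      target' := by
        apply Subtype.ext
        rw [hF1]
        show _ = (z' 0, w₁)
        simp }
  have hfin : (p'.map (inclWY P r W).continuous).Homotopic (Path.refl (inclWY P r W x')) := by
    refine c12_free F1 _ R1 C ?_ ?_ ?_ ?_ hnull1
    · intro t
      apply Subtype.ext
      rw [hF1]
      show _ = (z' t, w t)
      simp
    · intro t
      apply Subtype.ext
      rw [hF1]
      show _ = (z' t, w₁)
      simp
    · intro s
      rfl
    · intro s
      show F1 (s, 1) = F1 (s, 0)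
      apply Subtype.ext
      rw [hF1, hF1, hz'01, hw01]
  have hrefl : (Path.refl x').map (inclWY P r W).continuous = Path.refl (inclWY P r W x') := by
    apply Path.ext
    funext t
    rfl
  rw [hrefl]
  exact hfin

/-- A functional that kills all meridians kills all loops: `poly_kill` with T = univ, N and B large
balls around 0 (N contains all z t; w₁ real and larger than all roots over N, `root_bound`, B
contains w₁ and all w t). -/
theorem kills_all [Finite ι] (P : ι → (MvPolynomial (Fin n) ℂ)[X]) (hm : ∀ i, (P i).Monic)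
    (r : MvPolynomial (Fin n) ℂ) (hr : Disc P r) {H : Type} [Group H]
    (Φ : PF (NX P) H) (hk : Kills Set.univ r Φ) (x : NX P) (p : Path x x) : Φ.val p = 1 := by
  have hcz : IsCompact (Set.range fun t : I => ‖(p t).1.1‖) :=
    isCompact_range (by fun_prop)
  have hcw : IsCompact (Set.range fun t : I => ‖(p t).1.2‖) :=
    isCompact_range (by fun_prop)
  obtain ⟨A, hA⟩ := hcz.bddAbove
  obtain ⟨A', hA'⟩ := hcw.bddAbove
  have hA1 : ∀ t, ‖(p t).1.1‖ ≤ A := fun t => hA ⟨t, rfl⟩
  have hA2 : ∀ t, ‖(p t).1.2‖ ≤ A' := fun t => hA' ⟨t, rfl⟩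
  have hA0 : 0 ≤ A := (norm_nonneg _).trans (hA1 0)
  choose C K hC0 hCK using fun i => root_bound (P i) (hm i)
  obtain ⟨M, hM⟩ : ∃ M : ℝ, ∀ i, C i * (1 + (A + 1)) ^ K i ≤ M := by
    obtain ⟨M, hM⟩ := (Set.finite_range fun i => C i * (1 + (A + 1)) ^ K i).bddAbove
    exact ⟨M, fun i => hM ⟨i, rfl⟩⟩
  let w₁ : ℂ := ((|M| + 1 : ℝ) : ℂ)
  have hw₁n : ‖w₁‖ = |M| + 1 := by
    show ‖((|M| + 1 : ℝ) : ℂ)‖ = |M| + 1
    rw [Complex.norm_real, Real.norm_eq_abs, abs_of_pos (by positivity)]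
  refine poly_kill P hm r hr Set.univ (Metric.ball 0 (A + 1))
    (Metric.ball 0 (max A' (|M| + 1) + 1)) (convex_ball _ _) Metric.isOpen_ball
    (convex_ball _ _) Metric.isOpen_ball w₁ ?_ ?_ ?_ Φ hk x p ?_
  · rw [mem_ball_zero_iff, hw₁n]
    have := le_max_right A' (|M| + 1)
    linarith
  · intro z hz i h
    rw [mem_ball_zero_iff] at hz
    have h1 := hCK i z w₁ h
    have h2 : C i * (1 + ‖z‖) ^ K i ≤ C i * (1 + (A + 1)) ^ K i := by
      apply mul_le_mul_of_nonneg_left _ (hC0 i).le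
      exact pow_le_pow_left₀ (by positivity) (by linarith) _
    have h3 := hM i
    have h4 := le_abs_self M
    rw [hw₁n] at h1
    linarith
  · intro z _ w _ i hi
    exact absurd (Set.mem_univ i) hi
  · intro t
    rw [mem_ball_zero_iff, mem_ball_zero_iff]
    have h1 := hA1 t
    have h2 := hA2 t
    have h3 := le_max_left A' (|M| + 1)
    constructor <;> linarith

end H13M
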