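import Pool.Agent.Lib.H13M.D
import Pool.Agent.Lib.H13M.C3

set_option autoImplicit false

open scoped unitInterval Polynomial

namespace H13M

open H13K

variable {n : ℕ} {ι : Type}

/-- The root functions near a point where `r` does not vanish. -/
theorem c13_roots (p : (MvPolynomial (Fin n) ℂ)[X]) (hp : p.Monic)
    (r : MvPolynomial (Fin n) ℂ) (hs : Simple p r) (z₀ : Fin n → ℂ)
    (hz : MvPolynomial.eval z₀ r ≠ 0) :
    ∃ ρ : ℝ, 0 < ρ ∧ (∀ z ∈ Metric.ball z₀ ρ, MvPolynomial.eval z r ≠ 0) ∧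
      ∃ h : Fin p.natDegree → (Fin n → ℂ) → ℂ,
      (∀ a, DifferentiableOn ℂ (h a) (Metric.ball z₀ ρ)) ∧
      (∀ z ∈ Metric.ball z₀ ρ, Function.Injective (fun a => h a z)) ∧
      ∀ z ∈ Metric.ball z₀ ρ,
        p.map (MvPolynomial.eval z) = ∏ a, (Polynomial.X - Polynomial.C (h a z)) := by
  obtain ⟨ρ, hρ, h, h1, h2, h3⟩ := local_roots p hp z₀ (fun w hw => hs (z₀, w) hz hw)
  have hc : Continuous (fun z : Fin n → ℂ => MvPolynomial.eval z r) :=
    MvPolynomial.continuous_eval r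
  have ho : IsOpen {z : Fin n → ℂ | MvPolynomial.eval z r ≠ 0} :=
    isOpen_ne.preimage hc
  obtain ⟨ρ', hρ', hb⟩ := Metric.isOpen_iff.1 ho z₀ hz
  have hsub : Metric.ball z₀ (min ρ ρ') ⊆ Metric.ball z₀ ρ :=
    Metric.ball_subset_ball (min_le_left _ _)
  refine ⟨min ρ ρ', lt_min hρ hρ', ?_, h, ?_, ?_, ?_⟩
  · intro z hz'
    exact hb (Metric.ball_subset_ball (min_le_right _ _) hz')
  · intro a
    exact (h1 a).mono hsub
  · intro z hz'
    exact h2 z (hsub hz')
  · intro z hz'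
    exact h3 z (hsub hz')

theorem c13_ev {p : (MvPolynomial (Fin n) ℂ)[X]} {z : Fin n → ℂ}
    {h : Fin p.natDegree → (Fin n → ℂ) → ℂ}
    (h3 : p.map (MvPolynomial.eval z) = ∏ a, (Polynomial.X - Polynomial.C (h a z))) (w : ℂ) :
    ev p (z, w) = ∏ a, (w - h a z) := by
  unfold ev
  simp only
  rw [h3, Polynomial.eval_prod]
  simp

theorem c13_ev_zero {p : (MvPolynomial (Fin n) ℂ)[X]} {z : Fin n → ℂ}
    {h : Fin p.natDegree → (Fin n → ℂ) → ℂ}
    (h3 : p.map (MvPolynomial.eval z) = ∏ a, (Polynomial.X - Polynomial.C (h a z))) (w : ℂ) :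
    ev p (z, w) = 0 ↔ ∃ a, w = h a z := by
  rw [c13_ev h3 w, Finset.prod_eq_zero_iff]
  constructor
  · rintro ⟨a, -, ha⟩
    exact ⟨a, sub_eq_zero.1 ha⟩
  · rintro ⟨a, ha⟩
    exact ⟨a, Finset.mem_univ _, sub_eq_zero.2 ha⟩

/-- Port of H13K.CS_joined_near (K13.lean). -/
theorem CS_joined_near (p : (MvPolynomial (Fin n) ℂ)[X]) (hp : p.Monic)
    (r : MvPolynomial (Fin n) ℂ) (hr : r ≠ 0) (hs : Simple p r) (x : (Fin n → ℂ) × ℂ)
    (hx : x ∈ CS p r) :
    ∃ O : Set ((Fin n → ℂ) × ℂ), IsOpen O ∧ x ∈ O ∧ ∀ y ∈ O ∩ CS p r, JoinedIn (CS p r) x y := by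
  classical
  obtain ⟨z₀, w₀⟩ := x
  obtain ⟨hx1, hx2⟩ := hx
  simp only at hx1 hx2
  obtain ⟨ρ, hρ, hr', h, h1, h2, h3⟩ := c13_roots p hp r hs z₀ hx1
  have hz0 : z₀ ∈ Metric.ball z₀ ρ := Metric.mem_ball_self hρ
  obtain ⟨a₀, ha₀⟩ := (c13_ev_zero (h3 z₀ hz0) w₀).1 hx2
  -- separation
  obtain ⟨δ, hδ, hsep⟩ : ∃ δ : ℝ, 0 < δ ∧ ∀ a, a ≠ a₀ → 2 * δ ≤ ‖h a z₀ - h a₀ z₀‖ := by
    have hfin : ∀ s : Finset (Fin p.natDegree), ∃ δ : ℝ, 0 < δ ∧
        ∀ a ∈ s, a ≠ a₀ → 2 * δ ≤ ‖h a z₀ - h a₀ z₀‖ := by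
      intro s
      induction s using Finset.induction_on with
      | empty => exact ⟨1, one_pos, by simp⟩
      | insert b s hb ih =>
        obtain ⟨δ, hδ, hd⟩ := ih
        by_cases hba : b = a₀
        · refine ⟨δ, hδ, ?_⟩
          intro a ha hne
          rcases Finset.mem_insert.1 ha with rfl | ha
          · exact absurd hba hne
          · exact hd a ha hne
        · have hpos : 0 < ‖h b z₀ - h a₀ z₀‖ := by
            rw [norm_pos_iff, sub_ne_zero]
            intro he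
            exact hba (h2 z₀ hz0 he)
          refine ⟨min δ (‖h b z₀ - h a₀ z₀‖ / 2), lt_min hδ (by linarith), ?_⟩
          intro a ha hne
          rcases Finset.mem_insert.1 ha with rfl | ha
          · have := min_le_right δ (‖h a z₀ - h a₀ z₀‖ / 2)
            linarith
          · have h5 := min_le_left δ (‖h b z₀ - h a₀ z₀‖ / 2)
            have h6 := hd a ha hne
            linarith
    obtain ⟨δ, hδ, hd⟩ := hfin Finset.univ
    exact ⟨δ, hδ, fun a ha => hd a (Finset.mem_univ a) ha⟩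
  -- a small ball where the roots do not move much
  have hev : ∀ᶠ z in nhds z₀, ∀ a, ‖h a z - h a z₀‖ < δ := by
    rw [Filter.eventually_all]
    intro a
    have hca : ContinuousAt (h a) z₀ :=
      ((h1 a).continuousOn).continuousAt (Metric.isOpen_ball.mem_nhds hz0)
    have := Metric.tendsto_nhds.1 hca δ hδ
    filter_upwards [this] with z hz'
    rwa [dist_eq_norm] at hz'
  obtain ⟨ρ', hρ', hb⟩ := Metric.eventually_nhds_iff_ball.1 hev
  set R : ℝ := min ρ ρ' with hR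
  have hRpos : 0 < R := lt_min hρ hρ'
  have hsub : Metric.ball z₀ R ⊆ Metric.ball z₀ ρ := Metric.ball_subset_ball (min_le_left _ _)
  have hsub' : Metric.ball z₀ R ⊆ Metric.ball z₀ ρ' := Metric.ball_subset_ball (min_le_right _ _)
  refine ⟨Metric.ball z₀ R ×ˢ Metric.ball w₀ δ, Metric.isOpen_ball.prod Metric.isOpen_ball,
    ⟨Metric.mem_ball_self hRpos, Metric.mem_ball_self hδ⟩, ?_⟩
  rintro ⟨z, w⟩ ⟨⟨hz', hw'⟩, hy1, hy2⟩
  simp only at hz' hw' hy1 hy2
  obtain ⟨a, ha⟩ := (c13_ev_zero (h3 z (hsub hz')) w).1 hy2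
  have haa : a = a₀ := by
    by_contra hne
    have h5 := hsep a hne
    have h6 := hb z (hsub' hz') a
    have h7 : ‖w - w₀‖ < δ := by
      rw [← dist_eq_norm]
      exact hw'
    rw [ha, ha₀] at h7
    have h8 : ‖h a z₀ - h a₀ z₀‖ ≤ ‖h a z - h a₀ z₀‖ + ‖h a z - h a z₀‖ := by
      have : h a z₀ - h a₀ z₀ = (h a z - h a₀ z₀) - (h a z - h a z₀) := by ring
      rw [this]
      exact norm_sub_le _ _
    linarith
  subst haa
  have hpc : IsPathConnected (Metric.ball z₀ R) :=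
    (convex_ball z₀ R).isPathConnected ⟨z₀, Metric.mem_ball_self hRpos⟩
  have hcont : ContinuousOn (fun z : Fin n → ℂ => (z, h a z)) (Metric.ball z₀ R) :=
    continuousOn_id.prodMk ((h1 a).continuousOn.mono hsub)
  have him := hpc.image' hcont
  have hj := him.joinedIn (z₀, w₀) ⟨z₀, Metric.mem_ball_self hRpos, by simp [ha₀]⟩
    (z, w) ⟨z, hz', by simp [ha]⟩
  apply hj.mono
  rintro _ ⟨y, hy, rfl⟩
  exact ⟨hr' y (hsub hy), (c13_ev_zero (h3 y (hsub hy)) (h a y)).2 ⟨a, rfl⟩⟩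

/-- Differentiability of the coefficients of a product of linear factors. -/
theorem c13_coeff {κ : Type} (s : Finset κ) (g : κ → (Fin n → ℂ) → ℂ) (S : Set (Fin n → ℂ))
    (hg : ∀ a ∈ s, DifferentiableOn ℂ (g a) S) (m : ℕ) :
    DifferentiableOn ℂ
      (fun z => (∏ a ∈ s, (Polynomial.X - Polynomial.C (g a z)) : ℂ[X]).coeff m) S := by
  classical
  induction s using Finset.induction_on generalizing m with
  | empty =>
    simp only [Finset.prod_empty]
    exact differentiableOn_const _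
  | insert b s hb ih =>
    have ih' := fun m => ih (fun a ha => hg a (Finset.mem_insert_of_mem ha)) m
    have hgb := hg b (Finset.mem_insert_self b s)
    cases m with
    | zero =>
      have : (fun z => (∏ a ∈ insert b s, (Polynomial.X - Polynomial.C (g a z)) : ℂ[X]).coeff 0)
          = fun z => - (g b z *
            (∏ a ∈ s, (Polynomial.X - Polynomial.C (g a z)) : ℂ[X]).coeff 0) := by
        funext z
        rw [Finset.prod_insert hb, sub_mul, Polynomial.coeff_sub, Polynomial.coeff_C_mul]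
        simp
      rw [this]
      exact (hgb.mul (ih' 0)).neg
    | succ m =>
      have : (fun z => (∏ a ∈ insert b s,
            (Polynomial.X - Polynomial.C (g a z)) : ℂ[X]).coeff (m + 1))
          = fun z => (∏ a ∈ s, (Polynomial.X - Polynomial.C (g a z)) : ℂ[X]).coeff m - (g b z *
            (∏ a ∈ s, (Polynomial.X - Polynomial.C (g a z)) : ℂ[X]).coeff (m + 1)) := by
        funext z
        rw [Finset.prod_insert hb, sub_mul, Polynomial.coeff_sub, Polynomial.coeff_C_mul,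
          Polynomial.coeff_X_mul]
      rw [this]
      exact (ih' m).sub (hgb.mul (ih' (m + 1)))

/-- Port of H13K.qV_local (K13.lean). -/
theorem qV_local (p : (MvPolynomial (Fin n) ℂ)[X]) (hp : p.Monic) (r : MvPolynomial (Fin n) ℂ)
    (hs : Simple p r) (V : Set ((Fin n → ℂ) × ℂ))
    (hV1 : ∀ x ∈ CS p r, x ∈ V →
      ∃ O : Set ((Fin n → ℂ) × ℂ), IsOpen O ∧ x ∈ O ∧ ∀ y ∈ O ∩ CS p r, y ∈ V)
    (hV2 : ∀ x ∈ CS p r, x ∉ V →
      ∃ O : Set ((Fin n → ℂ) × ℂ), IsOpen O ∧ x ∈ O ∧ ∀ y ∈ O ∩ CS p r, y ∉ V)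
    (z₀ : Fin n → ℂ) (hz : MvPolynomial.eval z₀ r ≠ 0) :
    ∃ ρ : ℝ, 0 < ρ ∧ (∀ z ∈ Metric.ball z₀ ρ, (qV V p z).natDegree = (qV V p z₀).natDegree) ∧
      ∀ m, DifferentiableOn ℂ (fun z => (qV V p z).coeff m) (Metric.ball z₀ ρ) := by
  classical
  obtain ⟨ρ, hρ, hr', h, h1, h2, h3⟩ := c13_roots p hp r hs z₀ hz
  have hz0 : z₀ ∈ Metric.ball z₀ ρ := Metric.mem_ball_self hρ
  have hCS : ∀ z ∈ Metric.ball z₀ ρ, ∀ a, (z, h a z) ∈ CS p r := fun z hz' a =>
    ⟨hr' z hz', (c13_ev_zero (h3 z hz') (h a z)).2 ⟨a, rfl⟩⟩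
  -- membership in V is constant along the sheets
  have hconst : ∀ a, ∀ z ∈ Metric.ball z₀ ρ, ((z, h a z) ∈ V ↔ (z₀, h a z₀) ∈ V) := by
    intro a z hz'
    let f : (Fin n → ℂ) → Bool := fun z => decide ((z, h a z) ∈ V)
    have hf : ContinuousOn f (Metric.ball z₀ ρ) := by
      intro y hy
      have hcy : ContinuousAt (fun z : Fin n → ℂ => (z, h a z)) y :=
        continuousAt_id.prodMk
          (((h1 a).continuousOn).continuousAt (Metric.isOpen_ball.mem_nhds hy))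
      have key : ∃ O : Set ((Fin n → ℂ) × ℂ), IsOpen O ∧ (y, h a y) ∈ O ∧
          ∀ x ∈ O ∩ CS p r, (x ∈ V ↔ (y, h a y) ∈ V) := by
        by_cases hyV : (y, h a y) ∈ V
        · obtain ⟨O, hO, hyO, hOV⟩ := hV1 _ (hCS y hy a) hyV
          exact ⟨O, hO, hyO, fun x hx => ⟨fun _ => hyV, fun _ => hOV x hx⟩⟩
        · obtain ⟨O, hO, hyO, hOV⟩ := hV2 _ (hCS y hy a) hyV
          exact ⟨O, hO, hyO, fun x hx => ⟨fun h' => absurd h' (hOV x hx),
            fun h' => absurd h' hyV⟩⟩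
      obtain ⟨O, hO, hyO, hOV⟩ := key
      have hev : ∀ᶠ z in nhdsWithin y (Metric.ball z₀ ρ), f z = f y := by
        have e1 : ∀ᶠ z in nhdsWithin y (Metric.ball z₀ ρ), (z, h a z) ∈ O :=
          (hcy.eventually (hO.mem_nhds hyO)).filter_mono nhdsWithin_le_nhds
        filter_upwards [e1, self_mem_nhdsWithin] with z hzO hzb
        simp only [f]
        exact decide_eq_decide.2 (hOV _ ⟨hzO, hCS z hzb a⟩)
      exact (continuousWithinAt_const (b := f y)).congr_of_eventuallyEq hev rfl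
    have hpre : IsPreconnected (Metric.ball z₀ ρ) := (convex_ball z₀ ρ).isPreconnected
    have := hpre.constant hf hz' hz0
    simp only [f] at this
    exact decide_eq_decide.1 this
  -- formula for qV
  have hq : ∀ z ∈ Metric.ball z₀ ρ, qV V p z =
      ∏ a ∈ Finset.univ.filter (fun a => (z₀, h a z₀) ∈ V),
        (Polynomial.X - Polynomial.C (h a z)) := by
    intro z hz'
    have hroots : (p.map (MvPolynomial.eval z)).roots.toFinset =
        Finset.univ.image (fun a => h a z) := by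
      ext w
      rw [Multiset.mem_toFinset, Polynomial.mem_roots (hp.map _).ne_zero, Polynomial.IsRoot.def]
      have := c13_ev_zero (h3 z hz') w
      unfold ev at this
      simp only at this
      rw [this]
      simp [eq_comm]
    unfold qV
    rw [Finset.prod_congr (s₂ := (Finset.univ.filter
      (fun a => (z₀, h a z₀) ∈ V)).image (fun a => h a z)) _ (fun _ _ => rfl)]
    · rw [Finset.prod_image]
      intro a _ b _ hab
      exact h2 z hz' hab
    · ext w
      rw [Finset.mem_filter, hroots, Finset.mem_image, Finset.mem_image]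
      constructor
      · rintro ⟨⟨a, -, rfl⟩, hV⟩
        exact ⟨a, Finset.mem_filter.2 ⟨Finset.mem_univ _, (hconst a z hz').1 hV⟩, rfl⟩
      · rintro ⟨a, ha, rfl⟩
        exact ⟨⟨a, Finset.mem_univ _, rfl⟩, (hconst a z hz').2 (Finset.mem_filter.1 ha).2⟩
  refine ⟨ρ, hρ, ?_, ?_⟩
  · intro z hz'
    rw [hq z hz', hq z₀ hz0, Polynomial.natDegree_finsetProd_X_sub_C_eq_card,
      Polynomial.natDegree_finsetProd_X_sub_C_eq_card]
  · intro m
    refine (c13_coeff (Finset.univ.filter (fun a => (z₀, h a z₀) ∈ V)) h (Metric.ball z₀ ρ)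
      (fun a _ => h1 a) m).congr ?_
    intro z hz'
    rw [hq z hz']

end H13M
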