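import Pool.Agent.Lib.H13M.D
import Pool.Agent.Lib.H13M.C11

set_option autoImplicit false

open scoped unitInterval Polynomial

namespace H13M

open H13K

variable {n : ℕ} {ι : Type}

private theorem c14_coeff (S : Finset ℂ) : ∀ m : ℕ,
    ‖(∏ u ∈ S, (Polynomial.X - Polynomial.C u)).coeff m‖ ≤ ∏ u ∈ S, (1 + ‖u‖) := by
  classical
  induction S using Finset.induction_on with
  | empty =>
    intro m
    rw [Finset.prod_empty, Finset.prod_empty, Polynomial.coeff_one]
    split_ifs <;> simp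
  | insert a S ha ih =>
    intro m
    rw [Finset.prod_insert ha, Finset.prod_insert ha, sub_mul, Polynomial.coeff_sub,
      Polynomial.coeff_C_mul, add_mul, one_mul]
    refine (norm_sub_le _ _).trans ?_
    rw [norm_mul]
    refine add_le_add ?_ (mul_le_mul_of_nonneg_left (ih m) (norm_nonneg _))
    rcases m with _ | m
    · rw [Polynomial.coeff_X_mul_zero, norm_zero]
      exact Finset.prod_nonneg fun u _ => by positivity
    · rw [Polynomial.coeff_X_mul]
      exact ih m

/-- Port of H13K.qV_growth (K14.lean). -/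
theorem qV_growth (p : (MvPolynomial (Fin n) ℂ)[X]) (hp : p.Monic) (V : Set ((Fin n → ℂ) × ℂ)) :
    ∃ (C : ℝ) (K : ℕ), ∀ m z, ‖(qV V p z).coeff m‖ ≤ C * (1 + ‖z‖) ^ K := by
  classical
  obtain ⟨C, K, hC, hroot⟩ := root_bound p hp
  refine ⟨(1 + C) ^ p.natDegree, K * p.natDegree, fun m z => ?_⟩
  unfold qV
  set S := (p.map (MvPolynomial.eval z)).roots.toFinset.filter (fun u => (z, u) ∈ V) with hS
  have h1 : (1 : ℝ) ≤ (1 + ‖z‖) ^ K := one_le_pow₀ (by linarith [norm_nonneg z])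
  have h2 : ∀ u ∈ S, 1 + ‖u‖ ≤ (1 + C) * (1 + ‖z‖) ^ K := by
    intro u hu
    rw [hS, Finset.mem_filter, Multiset.mem_toFinset] at hu
    have h3 := Polynomial.isRoot_of_mem_roots hu.1
    rw [Polynomial.IsRoot.def] at h3
    have h4 := hroot z u h3
    linarith
  have h5 : S.card ≤ p.natDegree := by
    calc S.card ≤ (p.map (MvPolynomial.eval z)).roots.toFinset.card :=
          Finset.card_filter_le _ _
      _ ≤ Multiset.card (p.map (MvPolynomial.eval z)).roots := Multiset.toFinset_card_le _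
      _ ≤ (p.map (MvPolynomial.eval z)).natDegree := Polynomial.card_roots' _
      _ ≤ p.natDegree := Polynomial.natDegree_map_le
  have h6 : (1 : ℝ) ≤ (1 + C) * (1 + ‖z‖) ^ K := by nlinarith
  calc ‖(∏ u ∈ S, (Polynomial.X - Polynomial.C u)).coeff m‖ ≤ ∏ u ∈ S, (1 + ‖u‖) :=
        c14_coeff S m
    _ ≤ ∏ _u ∈ S, ((1 + C) * (1 + ‖z‖) ^ K) :=
        Finset.prod_le_prod (fun u _ => by positivity) h2
    _ = ((1 + C) * (1 + ‖z‖) ^ K) ^ S.card := by rw [Finset.prod_const]
    _ ≤ ((1 + C) * (1 + ‖z‖) ^ K) ^ p.natDegree := pow_le_pow_right₀ h6 h5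
    _ = (1 + C) ^ p.natDegree * (1 + ‖z‖) ^ (K * p.natDegree) := by rw [mul_pow, ← pow_mul]

end H13M
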