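import Pool.Agent.Lib.H13M.D
import Pool.Agent.Lib.H13K.K14

set_option autoImplicit false

open scoped unitInterval Polynomial

namespace H13M

open H13K

variable {n : ℕ} {ι : Type}

/-- One variable, with degree bound: `H13K.poly_of_growth` gives a polynomial that grows like
|z| ^ K off a finite set, so its degree is at most K. -/
theorem poly_of_growth_deg (r : ℂ[X]) (hr : r ≠ 0) (c : ℂ → ℂ)
    (hc : DifferentiableOn ℂ c {z | r.eval z ≠ 0}) (C : ℝ) (K : ℕ)
    (hb : ∀ z, r.eval z ≠ 0 → ‖c z‖ ≤ C * (1 + ‖z‖) ^ K) :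
    ∃ q : ℂ[X], q.natDegree ≤ K ∧ ∀ z, r.eval z ≠ 0 → c z = q.eval z := by
  obtain ⟨q, hq⟩ := poly_of_growth r hr c hc C K hb
  refine ⟨q, ?_, hq⟩
  by_contra hK
  rw [not_le] at hK
  have hq0 : q ≠ 0 := by
    rintro rfl
    simp at hK
  have hfin : {z : ℂ | r.eval z = 0}.Finite := by
    refine (r.roots.toFinset.finite_toSet).subset ?_
    intro z hz
    rw [Finset.mem_coe, Multiset.mem_toFinset, Polynomial.mem_roots hr]
    exact hz
  have hev : ∀ᶠ m : ℕ in Filter.atTop, r.eval (m : ℂ) ≠ 0 := by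
    have h1 : {m : ℕ | r.eval (m : ℂ) = 0}.Finite :=
      hfin.preimage (Nat.cast_injective.injOn)
    have h2 : ∀ᶠ m : ℕ in Filter.cofinite, m ∉ {m : ℕ | r.eval (m : ℂ) = 0} :=
      h1.compl_mem_cofinite
    rw [Nat.cofinite_eq_atTop] at h2
    exact h2
  have hlim : Filter.Tendsto (fun m : ℕ => ‖q.reverse.eval ((m : ℂ)⁻¹)‖) Filter.atTop
      (nhds ‖q.leadingCoeff‖) := by
    have h1 : Filter.Tendsto (fun m : ℕ => ((m : ℂ)⁻¹)) Filter.atTop (nhds 0) :=
      tendsto_inv_atTop_nhds_zero_nat (𝕜 := ℂ)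
    have h2 : Filter.Tendsto (fun m : ℕ => q.reverse.eval ((m : ℂ)⁻¹)) Filter.atTop
        (nhds (q.reverse.eval 0)) := (q.reverse.continuous.tendsto 0).comp h1
    rw [← Polynomial.coeff_zero_eq_eval_zero, Polynomial.coeff_zero_reverse] at h2
    exact h2.norm
  have hzero : Filter.Tendsto (fun m : ℕ => |C| * 2 ^ K * ((m : ℝ))⁻¹) Filter.atTop (nhds 0) := by
    have := (tendsto_inv_atTop_nhds_zero_nat (𝕜 := ℝ)).const_mul (|C| * 2 ^ K)
    rwa [mul_zero] at this
  have hle : ∀ᶠ m : ℕ in Filter.atTop,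
      ‖q.reverse.eval ((m : ℂ)⁻¹)‖ ≤ |C| * 2 ^ K * ((m : ℝ))⁻¹ := by
    filter_upwards [hev, Filter.eventually_ge_atTop 1] with m hm h1
    have hm0 : (m : ℂ) ≠ 0 := by
      rw [Nat.cast_ne_zero]
      omega
    have hmr : (1 : ℝ) ≤ m := by exact_mod_cast h1
    let _ := invertibleOfNonzero hm0
    have h2 := Polynomial.eval₂_reverse_mul_pow (RingHom.id ℂ) (m : ℂ) q
    rw [invOf_eq_inv] at h2
    change q.reverse.eval ((m : ℂ)⁻¹) * (m : ℂ) ^ q.natDegree = q.eval (m : ℂ) at h2
    have h3 := hb m hm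
    rw [hq m hm, ← h2, norm_mul, norm_pow, Complex.norm_natCast] at h3
    have h4 : (m : ℝ) ^ (K + 1) ≤ (m : ℝ) ^ q.natDegree := pow_le_pow_right₀ hmr hK
    have h5 : (1 + (m : ℝ)) ^ K ≤ (2 * (m : ℝ)) ^ K :=
      pow_le_pow_left₀ (by positivity) (by linarith) K
    have h6 : ‖q.reverse.eval ((m : ℂ)⁻¹)‖ * (m : ℝ) ^ (K + 1) ≤ |C| * (2 ^ K * (m : ℝ) ^ K) := by
      calc ‖q.reverse.eval ((m : ℂ)⁻¹)‖ * (m : ℝ) ^ (K + 1)
          ≤ ‖q.reverse.eval ((m : ℂ)⁻¹)‖ * (m : ℝ) ^ q.natDegree :=
            mul_le_mul_of_nonneg_left h4 (norm_nonneg _)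
        _ ≤ C * (1 + (m : ℝ)) ^ K := h3
        _ ≤ |C| * (1 + (m : ℝ)) ^ K :=
            mul_le_mul_of_nonneg_right (le_abs_self C) (by positivity)
        _ ≤ |C| * (2 * (m : ℝ)) ^ K := mul_le_mul_of_nonneg_left h5 (abs_nonneg C)
        _ = |C| * (2 ^ K * (m : ℝ) ^ K) := by rw [mul_pow]
    have h7 : (0 : ℝ) < (m : ℝ) ^ K := by positivity
    have h8 : ‖q.reverse.eval ((m : ℂ)⁻¹)‖ * (m : ℝ) ≤ |C| * 2 ^ K := by
      rw [pow_succ] at h6
      by_contra hcon
      rw [not_le] at hcon
      have := mul_lt_mul_of_pos_right hcon h7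
      nlinarith
    rw [← div_eq_mul_inv, le_div_iff₀ (by linarith)]
    exact h8
  have h9 := le_of_tendsto_of_tendsto hlim hzero hle
  have h10 : ‖q.leadingCoeff‖ = 0 := le_antisymm h9 (norm_nonneg _)
  exact hq0 (Polynomial.leadingCoeff_eq_zero.1 (norm_eq_zero.1 h10))

/-- The set where a nonzero polynomial does not vanish is dense. -/
private theorem c14b_dense {n : ℕ} (p : MvPolynomial (Fin n) ℂ) (hp : p ≠ 0) :
    Dense {z : Fin n → ℂ | MvPolynomial.eval z p ≠ 0} := by
  intro z
  rw [Metric.mem_closure_iff]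
  intro ε hε
  by_contra hcon
  push Not at hcon
  apply hp
  apply MvPolynomial.funext_set (fun i => Metric.ball (z i) ε)
  · intro i
    exact infinite_of_mem_nhds (z i) (Metric.ball_mem_nhds _ hε)
  · intro x hx
    rw [map_zero]
    by_contra hne
    have h1 := hcon x hne
    rw [dist_pi_def] at h1
    have h2 : dist z x < ε := by
      rw [dist_pi_lt_iff hε]
      intro i
      have := hx i (Set.mem_univ i)
      rw [Metric.mem_ball, dist_comm] at this
      exact this
    rw [dist_pi_def] at h2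
    exact absurd h2 (not_lt.2 h1)

private theorem c14b_cons_norm {n : ℕ} (t : ℂ) (x : Fin n → ℂ) :
    ‖(Fin.cons t x : Fin (n + 1) → ℂ)‖ ≤ ‖t‖ + ‖x‖ := by
  rw [pi_norm_le_iff_of_nonneg (by positivity)]
  intro i
  refine Fin.cases ?_ (fun j => ?_) i
  · rw [Fin.cons_zero]
    linarith [norm_nonneg x]
  · rw [Fin.cons_succ]
    linarith [norm_le_pi_norm x j, norm_nonneg t]

private theorem c14b_growth {n : ℕ} (t : ℂ) (x : Fin n → ℂ) (C : ℝ) (K : ℕ) :
    C * (1 + ‖(Fin.cons t x : Fin (n + 1) → ℂ)‖) ^ K ≤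
      |C| * ((1 + ‖t‖) ^ K * (1 + ‖x‖) ^ K) := by
  have h1 := c14b_cons_norm t x
  have h2 : 1 + ‖(Fin.cons t x : Fin (n + 1) → ℂ)‖ ≤ (1 + ‖t‖) * (1 + ‖x‖) := by
    nlinarith [norm_nonneg t, norm_nonneg x, mul_nonneg (norm_nonneg t) (norm_nonneg x)]
  calc C * (1 + ‖(Fin.cons t x : Fin (n + 1) → ℂ)‖) ^ K
      ≤ |C| * (1 + ‖(Fin.cons t x : Fin (n + 1) → ℂ)‖) ^ K :=
        mul_le_mul_of_nonneg_right (le_abs_self C) (by positivity)
    _ ≤ |C| * ((1 + ‖t‖) * (1 + ‖x‖)) ^ K :=
        mul_le_mul_of_nonneg_left (pow_le_pow_left₀ (by positivity) h2 K) (abs_nonneg C)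
    _ = |C| * ((1 + ‖t‖) ^ K * (1 + ‖x‖) ^ K) := by rw [mul_pow]

/-- A holomorphic function off the zeros of r of polynomial growth is a polynomial, n variables.
Proof by induction on n (`Fin.cons`, `MvPolynomial.finSuccEquiv`): for all but finitely many values
t of the first variable r(t, .) ≠ 0; choose K + 1 such values t_i; for z' with all r(t_i, z') ≠ 0
the function c(., z') is a polynomial of degree ≤ K (`poly_of_growth_deg`), so Lagrange
interpolation gives c(t, z') = sum of c(t_i, z') * l_i(t); c(t_i, .) is a polynomial in z' by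
induction; the two sides agree on the dense subset {product of the r(t_i, z') ≠ 0} of {r ≠ 0} and are
continuous there. -/
theorem poly_of_growth_n (n : ℕ) (r : MvPolynomial (Fin n) ℂ) (hr : r ≠ 0)
    (c : (Fin n → ℂ) → ℂ) (hc : DifferentiableOn ℂ c {z | MvPolynomial.eval z r ≠ 0})
    (C : ℝ) (K : ℕ) (hb : ∀ z, MvPolynomial.eval z r ≠ 0 → ‖c z‖ ≤ C * (1 + ‖z‖) ^ K) :
    ∃ q : MvPolynomial (Fin n) ℂ, ∀ z, MvPolynomial.eval z r ≠ 0 → c z = MvPolynomial.eval z q := by
  classical
  induction n generalizing C with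
  | zero =>
    refine ⟨MvPolynomial.C (c default), fun z _ => ?_⟩
    rw [MvPolynomial.eval_C, Subsingleton.elim z default]
  | succ n ih =>
    -- the polynomial `r (t, .)`
    set R := MvPolynomial.finSuccEquiv ℂ n r with hR
    have hR0 : R ≠ 0 := by
      intro h
      apply hr
      apply (MvPolynomial.finSuccEquiv ℂ n).injective
      rw [map_zero]
      exact h
    set rt : ℂ → MvPolynomial (Fin n) ℂ := fun t => R.eval (MvPolynomial.C t) with hrt
    have hrt_eval : ∀ t x, MvPolynomial.eval x (rt t) =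
        MvPolynomial.eval (Fin.cons t x : Fin (n + 1) → ℂ) r := by
      intro t x
      rw [hrt, hR, MvPolynomial.eval_polynomial_eval_finSuccEquiv, MvPolynomial.eval_C]
      rfl
    have hfin : {t : ℂ | rt t = 0}.Finite := by
      refine ((R.roots.toFinset.finite_toSet).preimage
        (f := (MvPolynomial.C : ℂ →+* MvPolynomial (Fin n) ℂ))
        ((MvPolynomial.C_injective (Fin n) ℂ).injOn)).subset ?_
      intro t ht
      rw [Set.mem_preimage, Finset.mem_coe, Multiset.mem_toFinset, Polynomial.mem_roots hR0]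
      exact ht
    obtain ⟨T, hT, hTc⟩ := (hfin.infinite_compl).exists_subset_card_eq (K + 1)
    have hT0 : ∀ a ∈ T, rt a ≠ 0 := fun a ha => hT ha
    -- the restrictions are polynomials
    have hq : ∀ a ∈ T, ∃ q : MvPolynomial (Fin n) ℂ, ∀ x, MvPolynomial.eval x (rt a) ≠ 0 →
        c (Fin.cons a x : Fin (n + 1) → ℂ) = MvPolynomial.eval x q := by
      intro a ha
      apply ih (rt a) (hT0 a ha) (fun x => c (Fin.cons a x : Fin (n + 1) → ℂ)) ?_
        (|C| * (1 + ‖a‖) ^ K)
      · intro x hx
        rw [hrt_eval] at hx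
        refine (hb _ hx).trans ?_
        refine (c14b_growth a x C K).trans (le_of_eq ?_)
        ring
      · apply hc.comp (g := c) (f := fun x : Fin n → ℂ => (Fin.cons a x : Fin (n + 1) → ℂ))
        · apply Differentiable.differentiableOn
          rw [differentiable_pi]
          intro i
          refine Fin.cases ?_ (fun j => ?_) i
          · simp only [Fin.cons_zero]
            exact differentiable_const a
          · simp only [Fin.cons_succ]
            exact differentiable_apply j
        · intro x hx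
          show MvPolynomial.eval (Fin.cons a x : Fin (n + 1) → ℂ) r ≠ 0
          rw [← hrt_eval]
          exact hx
    choose! Q hQ using hq
    set q : MvPolynomial (Fin (n + 1)) ℂ := ∑ a ∈ T,
      Polynomial.aeval (MvPolynomial.X 0 : MvPolynomial (Fin (n + 1)) ℂ) (Lagrange.basis T id a) *
        MvPolynomial.rename Fin.succ (Q a) with hqdef
    have hqe : ∀ t x, MvPolynomial.eval (Fin.cons t x : Fin (n + 1) → ℂ) q =
        ∑ a ∈ T, (Lagrange.basis T id a).eval t * MvPolynomial.eval x (Q a) := by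
      intro t x
      rw [hqdef, map_sum]
      apply Finset.sum_congr rfl
      intro a _
      rw [map_mul, MvPolynomial.eval_rename]
      have h1 : MvPolynomial.eval (Fin.cons t x : Fin (n + 1) → ℂ)
          (Polynomial.aeval (MvPolynomial.X 0 : MvPolynomial (Fin (n + 1)) ℂ)
            (Lagrange.basis T id a)) = (Lagrange.basis T id a).eval t := by
        rw [Polynomial.aeval_def, Polynomial.hom_eval₂, MvPolynomial.eval_X, Fin.cons_zero]
        have h2 : (MvPolynomial.eval (Fin.cons t x : Fin (n + 1) → ℂ)).comp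
            (algebraMap ℂ (MvPolynomial (Fin (n + 1)) ℂ)) = RingHom.id ℂ := by
          ext u
          simp
        rw [h2]
        rfl
      rw [h1]
      rfl
    refine ⟨q, ?_⟩
    -- equality on a dense set
    set P : MvPolynomial (Fin (n + 1)) ℂ := r * ∏ a ∈ T, MvPolynomial.rename Fin.succ (rt a)
      with hP
    have hP0 : P ≠ 0 := by
      rw [hP]
      refine mul_ne_zero hr (Finset.prod_ne_zero_iff.2 fun a ha h => hT0 a ha ?_)
      exact (MvPolynomial.rename_injective _ (Fin.succ_injective n)) (by rw [h, map_zero])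
    have hdense := c14b_dense P hP0
    have heq : ∀ z, MvPolynomial.eval z P ≠ 0 → c z = MvPolynomial.eval z q := by
      intro z hz
      obtain ⟨t, x, rfl⟩ : ∃ t x, z = (Fin.cons t x : Fin (n + 1) → ℂ) :=
        ⟨z 0, Fin.tail z, (Fin.cons_self_tail z).symm⟩
      rw [hP, map_mul, map_prod, mul_ne_zero_iff, Finset.prod_ne_zero_iff] at hz
      obtain ⟨hz1, hz2⟩ := hz
      have hz3 : ∀ a ∈ T, MvPolynomial.eval x (rt a) ≠ 0 := by
        intro a ha
        have := hz2 a ha
        rw [MvPolynomial.eval_rename] at this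
        exact this
      set s1 : ℂ[X] := R.map (MvPolynomial.eval x) with hs1
      have hs1e : ∀ u, s1.eval u = MvPolynomial.eval (Fin.cons u x : Fin (n + 1) → ℂ) r := by
        intro u
        rw [hs1, hR, MvPolynomial.eval_eq_eval_mv_eval']
      have hs10 : s1 ≠ 0 := by
        intro h
        rw [← hs1e, h, Polynomial.eval_zero] at hz1
        exact hz1 rfl
      obtain ⟨s, hsd, hs⟩ := poly_of_growth_deg s1 hs10
        (fun u => c (Fin.cons u x : Fin (n + 1) → ℂ)) (by
          apply hc.comp (g := c) (f := fun u : ℂ => (Fin.cons u x : Fin (n + 1) → ℂ))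
          · apply Differentiable.differentiableOn
            rw [differentiable_pi]
            intro i
            refine Fin.cases ?_ (fun j => ?_) i
            · simp only [Fin.cons_zero]
              exact differentiable_id
            · simp only [Fin.cons_succ]
              exact differentiable_const _
          · intro u hu
            show MvPolynomial.eval (Fin.cons u x : Fin (n + 1) → ℂ) r ≠ 0
            rw [← hs1e]
            exact hu) (|C| * (1 + ‖x‖) ^ K) K (by
          intro u hu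
          rw [hs1e] at hu
          refine (hb _ hu).trans ?_
          refine (c14b_growth u x C K).trans (le_of_eq ?_)
          ring)
      have hs2 : c (Fin.cons t x : Fin (n + 1) → ℂ) = s.eval t := hs t (by rw [hs1e]; exact hz1)
      have hs3 : ∀ a ∈ T, s.eval a = MvPolynomial.eval x (Q a) := by
        intro a ha
        rw [← hQ a ha x (hz3 a ha)]
        exact (hs a (by rw [hs1e, ← hrt_eval]; exact hz3 a ha)).symm
      have hs4 : s = Lagrange.interpolate T id (fun a => MvPolynomial.eval x (Q a)) := by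
        apply Lagrange.eq_interpolate_of_eval_eq _ (Set.injOn_id _)
        · rw [hTc]
          refine lt_of_le_of_lt Polynomial.degree_le_natDegree ?_
          rw [Nat.cast_lt]
          omega
        · exact hs3
      rw [hs2, hqe, hs4, Lagrange.interpolate_apply, Polynomial.eval_finsetSum]
      apply Finset.sum_congr rfl
      intro a _
      rw [Polynomial.eval_mul, Polynomial.eval_C, mul_comm]
    intro z hz
    have hUo : IsOpen {z : Fin (n + 1) → ℂ | MvPolynomial.eval z r ≠ 0} :=
      isOpen_ne_fun (MvPolynomial.continuous_eval r) continuous_const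
    have hcz : ContinuousAt c z := (hc.differentiableAt (hUo.mem_nhds hz)).continuousAt
    have hqz : ContinuousAt (fun w => MvPolynomial.eval w q) z :=
      (MvPolynomial.continuous_eval q).continuousAt
    have : (nhdsWithin z {z | MvPolynomial.eval z P ≠ 0}).NeBot :=
      mem_closure_iff_nhdsWithin_neBot.1 (hdense z)
    have h1 : Filter.Tendsto c (nhdsWithin z {z | MvPolynomial.eval z P ≠ 0}) (nhds (c z)) :=
      hcz.tendsto.mono_left nhdsWithin_le_nhds
    have h2 : Filter.Tendsto c (nhdsWithin z {z | MvPolynomial.eval z P ≠ 0})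
        (nhds (MvPolynomial.eval z q)) := by
      refine (hqz.tendsto.mono_left nhdsWithin_le_nhds).congr' ?_
      filter_upwards [self_mem_nhdsWithin] with w hw
      exact (heq w hw).symm
    exact tendsto_nhds_unique h1 h2

end H13M
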