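import Pool.Agent.Lib.H13M.D
import Pool.Agent.Lib.H13M.C13
import Pool.Agent.Lib.H13M.C14
import Pool.Agent.Lib.H13M.C14b
import Pool.Agent.Lib.H13K.P1

set_option autoImplicit false

open scoped unitInterval Polynomial

namespace H13M

open H13K

variable {n : ℕ} {ι : Type}

private theorem c15_pc (r : MvPolynomial (Fin n) ℂ) (hr : r ≠ 0) :
    IsPathConnected {z : Fin n → ℂ | MvPolynomial.eval z r ≠ 0} := by
  have h := pc_compl n r hr Set.univ convex_univ isOpen_univ Set.univ_nonempty
  have h1 : Set.univ \ {z : Fin n → ℂ | MvPolynomial.eval z r = 0} =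
      {z : Fin n → ℂ | MvPolynomial.eval z r ≠ 0} := by
    ext z
    constructor
    · intro hz
      exact hz.2
    · intro hz
      exact ⟨Set.mem_univ z, hz⟩
  rwa [h1] at h

private theorem c15_nodup (p : (MvPolynomial (Fin n) ℂ)[X]) (hp : p.Monic)
    (V : Set ((Fin n → ℂ) × ℂ)) (z : Fin n → ℂ) :
    qV V p z ∣ p.map (MvPolynomial.eval z) := by
  classical
  have hne : p.map (MvPolynomial.eval z) ≠ 0 := (hp.map _).ne_zero
  unfold qV
  refine (Multiset.prod_X_sub_C_dvd_iff_le_roots hne _).2 ?_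
  exact (Multiset.filter_le _ _).trans (Multiset.dedup_le _)

private theorem c15_monic (V : Set ((Fin n → ℂ) × ℂ)) (p : (MvPolynomial (Fin n) ℂ)[X])
    (z : Fin n → ℂ) : (qV V p z).Monic := by
  classical
  unfold qV
  exact Polynomial.monic_prod_of_monic _ _ fun u _ => Polynomial.monic_X_sub_C u

private theorem c15_deg (V : Set ((Fin n → ℂ) × ℂ)) (p : (MvPolynomial (Fin n) ℂ)[X])
    (z : Fin n → ℂ) :
    (qV V p z).natDegree = (open scoped Classical in
      ((p.map (MvPolynomial.eval z)).roots.toFinset.filter (fun u => (z, u) ∈ V)).card) := by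
  classical
  unfold qV
  rw [Polynomial.natDegree_prod_of_monic _ _ fun u _ => Polynomial.monic_X_sub_C u]
  simp

private theorem c15_zero (r : MvPolynomial (Fin n) ℂ) (hr : r ≠ 0)
    (s : (MvPolynomial (Fin n) ℂ)[X])
    (h : ∀ z : Fin n → ℂ, MvPolynomial.eval z r ≠ 0 → s.map (MvPolynomial.eval z) = 0) :
    s = 0 := by
  ext1 m
  rw [Polynomial.coeff_zero]
  have h1 : s.coeff m * r = 0 := by
    apply MvPolynomial.funext
    intro z
    rw [map_mul, map_zero]
    by_cases hz : MvPolynomial.eval z r = 0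
    · rw [hz, mul_zero]
    · have h2 := congrArg (fun t => Polynomial.coeff t m) (h z hz)
      simp only [Polynomial.coeff_map, Polynomial.coeff_zero] at h2
      rw [h2, zero_mul]
  exact (mul_eq_zero.1 h1).resolve_right hr

/-- The hypersurface of a monic irreducible polynomial is path connected over r ≠ 0 (port of
H13K.CS_pathConnected, K15.lean; r ≠ 0 is path connected by `pc_compl`; use `poly_of_growth_n`). -/
theorem CS_pathConnected (p : (MvPolynomial (Fin n) ℂ)[X]) (hp : p.Monic) (hpi : Irreducible p)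
    (r : MvPolynomial (Fin n) ℂ) (hr : r ≠ 0) (hs : Simple p r) : IsPathConnected (CS p r) := by
  classical
  -- nonempty
  have hdeg : 0 < p.natDegree := by
    rw [Nat.pos_iff_ne_zero]
    intro h0
    exact hpi.not_isUnit ((hp.isUnit_iff).2 (hp.natDegree_eq_zero.1 h0))
  have hpc := c15_pc r hr
  obtain ⟨z₀, hz₀⟩ := hpc.nonempty
  have hz₀' : MvPolynomial.eval z₀ r ≠ 0 := hz₀
  obtain ⟨w₀, hw₀⟩ := IsAlgClosed.exists_root (p.map (MvPolynomial.eval z₀)) (by
    intro h1
    rw [Polynomial.degree_eq_natDegree (hp.map _).ne_zero, hp.natDegree_map] at h1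
    exact hdeg.ne' (by exact_mod_cast h1))
  rw [Polynomial.IsRoot.def] at hw₀
  have hx : ((z₀, w₀) : (Fin n → ℂ) × ℂ) ∈ CS p r := ⟨hz₀', hw₀⟩
  set V : Set ((Fin n → ℂ) × ℂ) := {y | JoinedIn (CS p r) (z₀, w₀) y} with hV
  have hV1 : ∀ x ∈ CS p r, x ∈ V →
      ∃ O : Set ((Fin n → ℂ) × ℂ), IsOpen O ∧ x ∈ O ∧ ∀ y ∈ O ∩ CS p r, y ∈ V := by
    intro x hxC hxV
    obtain ⟨O, hO, hxO, h⟩ := CS_joined_near p hp r hr hs x hxC
    exact ⟨O, hO, hxO, fun y hy => JoinedIn.trans hxV (h y hy)⟩
  have hV2 : ∀ x ∈ CS p r, x ∉ V →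
      ∃ O : Set ((Fin n → ℂ) × ℂ), IsOpen O ∧ x ∈ O ∧ ∀ y ∈ O ∩ CS p r, y ∉ V := by
    intro x hxC hxV
    obtain ⟨O, hO, hxO, h⟩ := CS_joined_near p hp r hr hs x hxC
    exact ⟨O, hO, hxO, fun y hy hyV => hxV (JoinedIn.trans hyV (h y hy).symm)⟩
  have hloc := qV_local p hp r hs V hV1 hV2
  -- the degree is constant
  set e : ℕ := (qV V p z₀).natDegree with he
  have hconst : ∀ z, MvPolynomial.eval z r ≠ 0 → (qV V p z).natDegree = e := by
    intro z hz
    have hcont : ContinuousOn (fun z => (qV V p z).natDegree)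
        {z : Fin n → ℂ | MvPolynomial.eval z r ≠ 0} := by
      intro z₁ hz₁
      obtain ⟨ρ, hρ, h1, -⟩ := hloc z₁ hz₁
      apply ContinuousAt.continuousWithinAt
      have h2 : (fun z => (qV V p z).natDegree) =ᶠ[nhds z₁] fun _ => (qV V p z₁).natDegree := by
        filter_upwards [Metric.ball_mem_nhds z₁ hρ] with w hw
        exact h1 w hw
      exact (continuousAt_const).congr h2.symm
    exact hpc.isConnected.isPreconnected.constant hcont hz hz₀'
  have he1 : 1 ≤ e := by
    rw [he, c15_deg]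
    apply Finset.card_pos.2
    refine ⟨w₀, ?_⟩
    rw [Finset.mem_filter, Multiset.mem_toFinset, Polynomial.mem_roots (hp.map _).ne_zero,
      Polynomial.IsRoot.def]
    exact ⟨hw₀, JoinedIn.refl hx⟩
  -- the coefficients are polynomials
  obtain ⟨C, K, hCK⟩ := qV_growth p hp V
  have hcoef : ∀ m : ℕ, ∃ Q : MvPolynomial (Fin n) ℂ, ∀ z, MvPolynomial.eval z r ≠ 0 →
      (qV V p z).coeff m = MvPolynomial.eval z Q := by
    intro m
    refine poly_of_growth_n n r hr (fun z => (qV V p z).coeff m) ?_ C K (fun z _ => hCK m z)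
    intro z hz
    obtain ⟨ρ, hρ, -, h2⟩ := hloc z hz
    exact ((h2 m).differentiableAt (Metric.ball_mem_nhds z hρ)).differentiableWithinAt
  choose Q hQ using hcoef
  set q : (MvPolynomial (Fin n) ℂ)[X] := Polynomial.X ^ e +
    ∑ i : Fin e, Polynomial.C (Q (i : ℕ)) * Polynomial.X ^ (i : ℕ) with hq
  have hqm : q.Monic := Polynomial.monic_X_pow_add (Polynomial.degree_sum_fin_lt _)
  have hqd : q.natDegree = e := by
    apply Polynomial.natDegree_eq_of_degree_eq_some
    rw [hq, Polynomial.degree_add_eq_left_of_degree_lt, Polynomial.degree_X_pow]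
    rw [Polynomial.degree_X_pow]
    exact Polynomial.degree_sum_fin_lt _
  have hqz : ∀ z, MvPolynomial.eval z r ≠ 0 → q.map (MvPolynomial.eval z) = qV V p z := by
    intro z hz
    have h1 := (c15_monic V p z).as_sum
    rw [hconst z hz] at h1
    rw [h1, hq, Polynomial.map_add, Polynomial.map_pow, Polynomial.map_X, Polynomial.map_sum,
      Finset.sum_range]
    congr 1
    apply Finset.sum_congr rfl
    intro i _
    rw [Polynomial.map_mul, Polynomial.map_pow, Polynomial.map_X, Polynomial.map_C,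
      hQ (i : ℕ) z hz]
  -- q divides p
  have hdvd : q ∣ p := by
    rw [← Polynomial.modByMonic_eq_zero_iff_dvd hqm]
    apply c15_zero r hr
    intro z hz
    rw [Polynomial.map_modByMonic _ hqm, hqz z hz,
      Polynomial.modByMonic_eq_zero_iff_dvd (c15_monic V p z)]
    exact c15_nodup p hp V z
  have hen : e = p.natDegree := by
    obtain ⟨s, hs'⟩ := hdvd
    rcases hpi.isUnit_or_isUnit hs' with h1 | h1
    · rw [hqm.isUnit_iff] at h1
      rw [h1, Polynomial.natDegree_one] at hqd
      omega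
    · have h2 := Polynomial.natDegree_eq_zero_of_isUnit h1
      have h3 : s ≠ 0 := h1.ne_zero
      rw [hs', Polynomial.natDegree_mul hqm.ne_zero h3, h2, hqd, add_zero]
  -- conclusion
  refine ⟨(z₀, w₀), hx, ?_⟩
  intro y hy
  have hy1 : MvPolynomial.eval y.1 r ≠ 0 := hy.1
  have h1 : (qV V p y.1).natDegree = e := hconst y.1 hy1
  rw [c15_deg, hen] at h1
  set S : Finset ℂ := (p.map (MvPolynomial.eval y.1)).roots.toFinset with hS
  have h2 : S.card ≤ p.natDegree := by
    calc S.card ≤ Multiset.card (p.map (MvPolynomial.eval y.1)).roots :=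
          Multiset.toFinset_card_le _
      _ ≤ (p.map (MvPolynomial.eval y.1)).natDegree := Polynomial.card_roots' _
      _ ≤ p.natDegree := Polynomial.natDegree_map_le
  have h3 : S.filter (fun u => (y.1, u) ∈ V) = S := by
    apply Finset.eq_of_subset_of_card_le (Finset.filter_subset _ _)
    exact h2.trans (le_of_eq h1.symm)
  have h4 : y.2 ∈ S := by
    rw [hS, Multiset.mem_toFinset, Polynomial.mem_roots (hp.map _).ne_zero,
      Polynomial.IsRoot.def]
    exact hy.2
  rw [← h3, Finset.mem_filter] at h4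
  exact h4.2

end H13M
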