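import Pool.Agent.Lib.H13K.A4

set_option autoImplicit false

namespace H13M

open H13K

/-- Filling in the hypersurfaces of type B leaves the factor A.
Proof: fst ∘ e : G →* A kills M i, i ∈ T, so it factors through f (hker, f surjective):
fst ∘ e = θ ∘ f.  θ is surjective.  κ = f ∘ e.symm ∘ inl : A →* Q, θ ∘ κ = id.  The homomorphism
ψ = f ∘ e.symm ∘ inr ∘ snd ∘ e : G →* Q kills all meridians (type A: snd kills; type B: e m is
conjugate to inr b, inr (snd (e m)) is conjugate to e m, and f m = 1), so it is trivial (hgen), i.e.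
f ∘ e.symm ∘ inr = 1.  So f is determined by κ: the image of f is the image of κ, κ is surjective,
hence bijective. -/
theorem iso_factor {G Q : Type} [Group G] [Group Q] {ι : Type} (M : ι → Set G) (T : Set ι)
    (A B : Type) [Group A] [Group B] (e : G ≃* Monoid.Coprod A B) (f : G →* Q)
    (hf : Function.Surjective f) (hT : ∀ i ∈ T, ∀ m ∈ M i, f m = 1)
    (hker : ∀ (H : Type) [Group H] (ψ : G →* H), (∀ i ∈ T, ∀ m ∈ M i, ψ m = 1) →
      ∀ x, f x = 1 → ψ x = 1)
    (hgen : ∀ (H : Type) [Group H] (ψ : G →* H), (∀ i, ∀ m ∈ M i, ψ m = 1) → ∀ x, ψ x = 1)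
    (hB : ∀ i ∈ T, ∀ m ∈ M i, ∃ g : Monoid.Coprod A B, g⁻¹ * e m * g ∈ SB A B)
    (hA : ∀ i, i ∉ T → ∀ m ∈ M i, ∃ g : Monoid.Coprod A B, g⁻¹ * e m * g ∈ SA A B) :
    Nonempty (Q ≃* A) := by
  classical
  -- the map to the factor `A`
  let α : G →* A := (Monoid.Coprod.fst : Monoid.Coprod A B →* A).comp e.toMonoidHom
  have hα : ∀ x, α x = Monoid.Coprod.fst (e x) := fun x => rfl
  have hα0 : ∀ i ∈ T, ∀ m ∈ M i, α m = 1 := by
    intro i hi m hm
    obtain ⟨g, b, hb⟩ := hB i hi m hm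
    have h1 : e m = g * Monoid.Coprod.inr b * g⁻¹ := by
      rw [hb]
      group
    rw [hα, h1, map_mul, map_mul, Monoid.Coprod.fst_apply_inr, mul_one, ← map_mul, mul_inv_cancel,
      map_one]
  let fe : Monoid.Coprod A B →* Q := f.comp e.symm.toMonoidHom
  have hfe : ∀ x, fe x = f (e.symm x) := fun x => rfl
  let κ : A →* Q := fe.comp Monoid.Coprod.inl
  have hκ : ∀ a, κ a = fe (Monoid.Coprod.inl a) := fun a => rfl
  have hinj : Function.Injective κ := by
    rw [injective_iff_map_eq_one]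
    intro a ha
    have h1 := hker A α hα0 (e.symm (Monoid.Coprod.inl a)) ha
    rw [hα, MulEquiv.apply_symm_apply, Monoid.Coprod.fst_apply_inl] at h1
    exact h1
  let ψ : G →* Q := fe.comp ((Monoid.Coprod.inr : B →* Monoid.Coprod A B).comp
    ((Monoid.Coprod.snd : Monoid.Coprod A B →* B).comp e.toMonoidHom))
  have hψ : ∀ x, ψ x = fe (Monoid.Coprod.inr (Monoid.Coprod.snd (e x))) := fun x => rfl
  have hψ0 : ∀ i, ∀ m ∈ M i, ψ m = 1 := by
    intro i m hm
    by_cases hi : i ∈ T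
    · obtain ⟨g, b, hb⟩ := hB i hi m hm
      have h1 : e m = g * Monoid.Coprod.inr b * g⁻¹ := by
        rw [hb]
        group
      have h2 : fe (Monoid.Coprod.inr b) = 1 := by
        have h3 := hT i hi m hm
        have h4 : f m = fe (e m) := by rw [hfe, MulEquiv.symm_apply_apply]
        rw [h4, h1, map_mul, map_mul, map_inv, mul_inv_eq_one, mul_eq_left] at h3
        exact h3
      have h5 : (Monoid.Coprod.snd (e m) : B) = Monoid.Coprod.snd g * b * (Monoid.Coprod.snd g)⁻¹ := by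
        rw [h1]
        simp
      have h6 : fe (Monoid.Coprod.inr (Monoid.Coprod.snd g * b * (Monoid.Coprod.snd g)⁻¹)) =
          fe (Monoid.Coprod.inr (Monoid.Coprod.snd g)) * fe (Monoid.Coprod.inr b) *
            (fe (Monoid.Coprod.inr (Monoid.Coprod.snd g)))⁻¹ := by
        simp only [map_mul, map_inv]
      rw [hψ, h5, h6, h2, mul_one, mul_inv_cancel]
    · obtain ⟨g, a, ha⟩ := hA i hi m hm
      have h1 : e m = g * Monoid.Coprod.inl a * g⁻¹ := by
        rw [ha]
        group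
      have h5 : (Monoid.Coprod.snd (e m) : B) = 1 := by
        rw [h1]
        simp
      rw [hψ, h5, map_one, map_one]
  have hinr : ∀ b : B, fe (Monoid.Coprod.inr b) = 1 := by
    intro b
    have h1 := hgen Q ψ hψ0 (e.symm (Monoid.Coprod.inr b))
    rw [hψ, MulEquiv.apply_symm_apply, Monoid.Coprod.snd_apply_inr] at h1
    exact h1
  have heq : fe = κ.comp (Monoid.Coprod.fst : Monoid.Coprod A B →* A) := by
    apply Monoid.Coprod.hom_ext
    · ext a
      simp [hκ]
    · ext b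
      simp [hinr b]
  have hsurj : Function.Surjective κ := by
    intro y
    obtain ⟨x, rfl⟩ := hf y
    refine ⟨Monoid.Coprod.fst (e x), ?_⟩
    have h1 : κ (Monoid.Coprod.fst (e x)) = (κ.comp (Monoid.Coprod.fst : Monoid.Coprod A B →* A)) (e x) :=
      rfl
    rw [h1, ← heq, hfe, MulEquiv.symm_apply_apply]
  exact ⟨(MulEquiv.ofBijective κ ⟨hinj, hsurj⟩).symm⟩

/-- The same with the factors exchanged (compose e with `MulEquiv.coprodComm` / the swap). -/
theorem iso_factor' {G Q : Type} [Group G] [Group Q] {ι : Type} (M : ι → Set G) (T : Set ι)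
    (A B : Type) [Group A] [Group B] (e : G ≃* Monoid.Coprod A B) (f : G →* Q)
    (hf : Function.Surjective f) (hT : ∀ i ∈ T, ∀ m ∈ M i, f m = 1)
    (hker : ∀ (H : Type) [Group H] (ψ : G →* H), (∀ i ∈ T, ∀ m ∈ M i, ψ m = 1) →
      ∀ x, f x = 1 → ψ x = 1)
    (hgen : ∀ (H : Type) [Group H] (ψ : G →* H), (∀ i, ∀ m ∈ M i, ψ m = 1) → ∀ x, ψ x = 1)
    (hA : ∀ i ∈ T, ∀ m ∈ M i, ∃ g : Monoid.Coprod A B, g⁻¹ * e m * g ∈ SA A B)
    (hB : ∀ i, i ∉ T → ∀ m ∈ M i, ∃ g : Monoid.Coprod A B, g⁻¹ * e m * g ∈ SB A B) :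
    Nonempty (Q ≃* B) := by
  refine iso_factor M T B A (e.trans (MulEquiv.coprodComm A B)) f hf hT hker hgen ?_ ?_
  · intro i hi m hm
    obtain ⟨g, a, ha⟩ := hA i hi m hm
    refine ⟨MulEquiv.coprodComm A B g, a, ?_⟩
    have h1 : MulEquiv.coprodComm A B (Monoid.Coprod.inl a) = Monoid.Coprod.inr a := rfl
    rw [← h1, ha, map_mul, map_mul, map_inv]
    rfl
  · intro i hi m hm
    obtain ⟨g, b, hb⟩ := hB i hi m hm
    refine ⟨MulEquiv.coprodComm A B g, b, ?_⟩
    have h1 : MulEquiv.coprodComm A B (Monoid.Coprod.inr b) = Monoid.Coprod.inl b := rfl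
    rw [← h1, hb, map_mul, map_mul, map_inv]
    rfl

end H13M
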