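import Pool.Agent.Lib.H13M.D
import Pool.Agent.Lib.H13M.C12
import Pool.Agent.Lib.H13K.T1b

set_option autoImplicit false

open scoped unitInterval Polynomial

namespace H13M

open H13K

variable {n : ℕ} {ι : Type}

private theorem c17_open [Finite ι] (P : ι → (MvPolynomial (Fin n) ℂ)[X]) (T : Set ι) :
    IsOpen (NT P T) := by
  have h : NT P T = ⋂ i, {q : (Fin n → ℂ) × ℂ | i ∉ T → ev (P i) q ≠ 0} := by
    ext q
    simp [NT]
  rw [h]
  refine isOpen_iInter_of_finite fun i => ?_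
  by_cases hi : i ∈ T
  · have : {q : (Fin n → ℂ) × ℂ | i ∉ T → ev (P i) q ≠ 0} = Set.univ := by
      ext q
      simp [hi]
    rw [this]
    exact isOpen_univ
  · have : {q : (Fin n → ℂ) × ℂ | i ∉ T → ev (P i) q ≠ 0} = {q | ev (P i) q ≠ 0} := by
      ext q
      simp [hi]
    rw [this]
    exact isOpen_ne_fun (continuous_ev _) continuous_const

/-- Near every point of `NT P T` there is a product of balls as in `poly_kill`. -/
private theorem c17_basis [Finite ι] (P : ι → (MvPolynomial (Fin n) ℂ)[X]) (hm : ∀ i, (P i).Monic)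
    (T : Set ι) (q : (Fin n → ℂ) × ℂ) (O : Set ((Fin n → ℂ) × ℂ)) (hO : IsOpen O) (hq : q ∈ O)
    (hqT : q ∈ NT P T) :
    ∃ (ρ ε : ℝ) (w₁ : ℂ), 0 < ρ ∧ 0 < ε ∧ w₁ ∈ Metric.ball q.2 ε ∧
      (∀ z ∈ Metric.ball q.1 ρ, ∀ i, ev (P i) (z, w₁) ≠ 0) ∧
      Metric.ball q.1 ρ ×ˢ Metric.ball q.2 ε ⊆ O ∩ NT P T := by
  cases nonempty_fintype ι
  obtain ⟨ε, hε, hsub⟩ := Metric.isOpen_iff.1 (hO.inter (c17_open P T)) q ⟨hq, hqT⟩
  have hprod : Metric.ball q.1 ε ×ˢ Metric.ball q.2 ε ⊆ O ∩ NT P T := by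
    rw [ball_prod_same]
    exact hsub
  -- a value that is no root
  obtain ⟨w₁, hw₁, hne⟩ : ∃ w₁ ∈ Metric.ball q.2 ε, ∀ i, ev (P i) (q.1, w₁) ≠ 0 := by
    have hfin : (⋃ i, {w : ℂ | ev (P i) (q.1, w) = 0}).Finite := by
      refine Set.finite_iUnion fun i => ?_
      have h1 : (P i).map (MvPolynomial.eval q.1) ≠ 0 := ((hm i).map _).ne_zero
      refine ((P i).map (MvPolynomial.eval q.1)).roots.toFinset.finite_toSet.subset ?_
      intro w hw
      rw [Finset.mem_coe, Multiset.mem_toFinset, Polynomial.mem_roots h1]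
      exact hw
    have hinf : (Metric.ball q.2 ε).Infinite := by
      intro hf
      have h2 : IsOpen (Metric.ball q.2 ε) := Metric.isOpen_ball
      have h3 : (Metric.ball q.2 ε) ∈ nhds q.2 := Metric.ball_mem_nhds _ hε
      exact (infinite_of_mem_nhds q.2 h3) hf
    obtain ⟨w, hw, hw'⟩ := (hinf.sdiff hfin).nonempty
    refine ⟨w, hw, fun i hi => hw' ?_⟩
    rw [Set.mem_iUnion]
    exact ⟨i, hi⟩
  have hopen : IsOpen {z : Fin n → ℂ | ∀ i, ev (P i) (z, w₁) ≠ 0} := by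
    have h : {z : Fin n → ℂ | ∀ i, ev (P i) (z, w₁) ≠ 0} =
        ⋂ i, {z : Fin n → ℂ | ev (P i) (z, w₁) ≠ 0} := by
      ext z
      simp
    rw [h]
    refine isOpen_iInter_of_finite fun i => isOpen_ne_fun ?_ continuous_const
    exact (continuous_ev (P i)).comp (by fun_prop)
  obtain ⟨ρ, hρ, hρ2⟩ := Metric.isOpen_iff.1 hopen q.1 hne
  refine ⟨min ρ ε, ε, w₁, lt_min hρ hε, hε, hw₁, ?_, ?_⟩
  · intro z hz i
    exact hρ2 (Metric.ball_subset_ball (min_le_left _ _) hz) i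
  · exact (Set.prod_mono (Metric.ball_subset_ball (min_le_right _ _)) subset_rfl).trans hprod

/-- Filling in the hypersurfaces of T: a functional killing their meridians only depends on the
homotopy class in NT P T.
Proof: `extend` with j = inclT P T; family of all preimages in NT P T of the products
ball z₀ ρ × ball w₀ ε inside NT P T that have a value w₁ ∈ ball w₀ ε
with ev (P i) (z, w₁) ≠ 0 for all i and all z in the ball.  Path connected: `NX_convex_pc`; loops: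
`poly_kill`. -/
theorem fill [Finite ι] (P : ι → (MvPolynomial (Fin n) ℂ)[X]) (hm : ∀ i, (P i).Monic)
    (r : MvPolynomial (Fin n) ℂ) (hr : Disc P r) (T : Set ι) {H : Type} [Group H]
    (Φ : PF (NX P) H) (hk : Kills T r Φ) {x x' : NX P} (p q : Path x x')
    (h : (p.map (inclT P T).continuous).Homotopic (q.map (inclT P T).continuous)) :
    Φ.val p = Φ.val q := by
  have hconv : ∀ (z₀ : Fin n → ℂ) (w₀ : ℂ) (ρ ε : ℝ),
      Convex ℝ (Metric.ball z₀ ρ ×ˢ Metric.ball w₀ ε) := fun z₀ w₀ ρ ε =>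
    (convex_ball z₀ ρ).prod (convex_ball w₀ ε)
  refine extend (inclT P T) Φ {u | ∃ (z₀ : Fin n → ℂ) (w₀ : ℂ) (ρ ε : ℝ) (w₁ : ℂ), 0 < ρ ∧ 0 < ε ∧
    w₁ ∈ Metric.ball w₀ ε ∧ (∀ z ∈ Metric.ball z₀ ρ, ∀ i, ev (P i) (z, w₁) ≠ 0) ∧
    Metric.ball z₀ ρ ×ˢ Metric.ball w₀ ε ⊆ NT P T ∧
    u = Subtype.val ⁻¹' (Metric.ball z₀ ρ ×ˢ Metric.ball w₀ ε)} ?_ ?_ ?_ ?_ ?_ p q h
  · rintro u ⟨z₀, w₀, ρ, ε, w₁, hρ, hε, hw₁, h1, h2, rfl⟩
    exact (Metric.isOpen_ball.prod Metric.isOpen_ball).preimage continuous_subtype_val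
  · intro y o ho hy
    obtain ⟨O, hO, rfl⟩ := isOpen_induced_iff.1 ho
    obtain ⟨ρ, ε, w₁, hρ, hε, hw₁, h1, h2⟩ := c17_basis P hm T y.1 O hO hy y.2
    refine ⟨_, ⟨y.1.1, y.1.2, ρ, ε, w₁, hρ, hε, hw₁, h1, h2.trans Set.inter_subset_right, rfl⟩,
      ?_, ?_⟩
    · exact ⟨Metric.mem_ball_self hρ, Metric.mem_ball_self hε⟩
    · intro y' hy'
      exact (h2 hy').1
  · rintro u ⟨z₀, w₀, ρ, ε, w₁, hρ, hε, hw₁, h1, h2, rfl⟩
    exact ⟨⟨(z₀, w₁), h1 z₀ (Metric.mem_ball_self hρ)⟩, Metric.mem_ball_self hρ, hw₁⟩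
  · rintro u ⟨z₀, w₀, ρ, ε, w₁, hρ, hε, hw₁, h1, h2, rfl⟩ x x' hx hx'
    have hpc := NX_convex_pc P hm (Metric.ball z₀ ρ ×ˢ Metric.ball w₀ ε) (hconv _ _ _ _)
      (Metric.isOpen_ball.prod Metric.isOpen_ball) ⟨(z₀, w₁), Metric.mem_ball_self hρ, hw₁⟩
    obtain ⟨γ, hγ⟩ := hpc.joinedIn x.1 ⟨hx, x.2⟩ x'.1 ⟨hx', x'.2⟩
    refine ⟨{ toFun := fun t => ⟨γ t, (hγ t).2⟩
              continuous_toFun := by
                apply Continuous.subtype_mk
                exact γ.continuous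
              source' := Subtype.ext γ.source
              target' := Subtype.ext γ.target }, fun t => (hγ t).1⟩
  · rintro u ⟨z₀, w₀, ρ, ε, w₁, hρ, hε, hw₁, h1, h2, rfl⟩ x p hp
    exact poly_kill P hm r hr T (Metric.ball z₀ ρ) (Metric.ball w₀ ε) (convex_ball _ _)
      Metric.isOpen_ball (convex_ball _ _) Metric.isOpen_ball w₁ hw₁ h1
      (fun z hz w hw i hi => h2 (Set.mk_mem_prod hz hw) i hi) Φ hk x p
      (fun t => ⟨(hp t).1, (hp t).2⟩)

/-- The meridians of T are null homotopic after filling in: the disc (z, u + b), ‖b‖ ≤ ‖a‖, lies in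
NT P T (at b = 0 only P i vanishes, `Disc.disj`). -/
theorem mer_null (P : ι → (MvPolynomial (Fin n) ℂ)[X]) (r : MvPolynomial (Fin n) ℂ)
    (hr : Disc P r) (T : Set ι) (i : ι) (hi : i ∈ T) (z : Fin n → ℂ) (u a : ℂ) (h : Adm P z u a)
    (hz : MvPolynomial.eval z r ≠ 0) (hu : ev (P i) (z, u) = 0) :
    ((mer P z u a h).map (inclT P T).continuous).Homotopic (Path.refl _) := by
  -- the disc
  have hdisc : ∀ b : ℂ, ‖b‖ ≤ ‖a‖ → (z, u + b) ∈ NT P T := by
    intro b hb j hj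
    by_cases hb0 : b = 0
    · rw [hb0, add_zero]
      exact hr.disj i j (z, u) (fun hij => hj (hij ▸ hi)) hz hu
    · exact h.2 b hb0 hb j
  have hnorm : ∀ s t : I, ‖a * ((1 - ((s : ℝ) : ℂ)) *
      Complex.exp (2 * Real.pi * ((t : ℝ) : ℂ) * Complex.I) + ((s : ℝ) : ℂ))‖ ≤ ‖a‖ := by
    intro s t
    rw [norm_mul]
    refine mul_le_of_le_one_right (norm_nonneg _) ?_
    have h1 : ‖Complex.exp (2 * Real.pi * ((t : ℝ) : ℂ) * Complex.I)‖ = 1 := norm_circ t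
    calc ‖(1 - ((s : ℝ) : ℂ)) * Complex.exp (2 * Real.pi * ((t : ℝ) : ℂ) * Complex.I) +
          ((s : ℝ) : ℂ)‖ ≤ ‖(1 - ((s : ℝ) : ℂ)) *
          Complex.exp (2 * Real.pi * ((t : ℝ) : ℂ) * Complex.I)‖ + ‖((s : ℝ) : ℂ)‖ :=
          norm_add_le _ _
      _ = (1 - (s : ℝ)) + (s : ℝ) := by
          rw [norm_mul, h1, mul_one, Complex.norm_real, Real.norm_eq_abs, abs_of_nonneg s.2.1]
          congr 1
          rw [← Complex.ofReal_one, ← Complex.ofReal_sub, Complex.norm_real, Real.norm_eq_abs,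
            abs_of_nonneg (sub_nonneg.2 s.2.2)]
      _ = 1 := by ring
  have hmem : ∀ s t : I, (z, u + a * ((1 - ((s : ℝ) : ℂ)) *
      Complex.exp (2 * Real.pi * ((t : ℝ) : ℂ) * Complex.I) + ((s : ℝ) : ℂ))) ∈ NT P T :=
    fun s t => hdisc _ (hnorm s t)
  refine ⟨{ toFun := fun st => ⟨_, hmem st.1 st.2⟩
            continuous_toFun := ?_
            map_zero_left := ?_
            map_one_left := ?_
            prop' := ?_ }⟩
  · apply Continuous.subtype_mk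
    fun_prop
  · intro t
    apply Subtype.ext
    show (z, u + a * ((1 - (((0 : I) : ℝ) : ℂ)) *
      Complex.exp (2 * Real.pi * ((t : ℝ) : ℂ) * Complex.I) + (((0 : I) : ℝ) : ℂ))) =
      (z, u + a * Complex.exp (2 * Real.pi * ((t : ℝ) : ℂ) * Complex.I))
    simp
  · intro t
    apply Subtype.ext
    show (z, u + a * ((1 - (((1 : I) : ℝ) : ℂ)) *
      Complex.exp (2 * Real.pi * ((t : ℝ) : ℂ) * Complex.I) + (((1 : I) : ℝ) : ℂ))) =
      (z, u + a)
    simp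
  · intro s t ht
    apply Subtype.ext
    show (z, u + a * ((1 - ((s : ℝ) : ℂ)) *
      Complex.exp (2 * Real.pi * ((t : ℝ) : ℂ) * Complex.I) + ((s : ℝ) : ℂ))) =
      (z, u + a * Complex.exp (2 * Real.pi * ((t : ℝ) : ℂ) * Complex.I))
    have he : Complex.exp (2 * Real.pi * ((t : ℝ) : ℂ) * Complex.I) = 1 := by
      rcases ht with rfl | ht
      · simp
      · rw [Set.mem_singleton_iff] at ht
        rw [ht]
        simp [Complex.exp_two_pi_mul_I]
    rw [he]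
    ring_nf

end H13M
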