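import Pool.Agent.Lib.H13M.D

set_option autoImplicit false

open scoped unitInterval Polynomial

namespace H13M

open H13K

variable {n : ℕ} {ι : Type}

private theorem c2_cop {F : Type*} [Field F] {p q : F[X]} (hp : Irreducible p)
    (h : ¬ IsCoprime p q) : p ∣ q := by
  by_contra h3
  exact h ((hp.coprime_iff_not_dvd).2 h3)

private theorem c2_ne (p q : (MvPolynomial (Fin n) ℂ)[X]) (hp : p.Monic) (hq : q.Monic)
    (hpi : Irreducible p) (hqi : Irreducible q) (hpq : p ≠ q) :
    Polynomial.resultant p q ≠ 0 := by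
  intro h0
  have h1 : Polynomial.resultant
      (p.map (algebraMap (MvPolynomial (Fin n) ℂ) (FractionRing (MvPolynomial (Fin n) ℂ))))
      (q.map (algebraMap (MvPolynomial (Fin n) ℂ) (FractionRing (MvPolynomial (Fin n) ℂ)))) =
      0 := by
    rw [hp.natDegree_map, hq.natDegree_map, Polynomial.resultant_map_map, h0, map_zero]
  rw [Polynomial.resultant_eq_zero_iff] at h1
  have hpK : Irreducible
      (p.map (algebraMap (MvPolynomial (Fin n) ℂ) (FractionRing (MvPolynomial (Fin n) ℂ)))) :=
    (Polynomial.Monic.irreducible_iff_irreducible_map_fraction_map hp).1 hpi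
  have hqK : Irreducible
      (q.map (algebraMap (MvPolynomial (Fin n) ℂ) (FractionRing (MvPolynomial (Fin n) ℂ)))) :=
    (Polynomial.Monic.irreducible_iff_irreducible_map_fraction_map hq).1 hqi
  have h2 := c2_cop hpK h1.2
  have h3 := hpK.associated_of_dvd hqK h2
  have h4 := Polynomial.eq_of_monic_of_associated (hp.map _) (hq.map _) h3
  exact hpq (Polynomial.map_injective _
    (IsFractionRing.injective (MvPolynomial (Fin n) ℂ) (FractionRing (MvPolynomial (Fin n) ℂ))) h4)

/-- Resultants (port of H13K.K2). -/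
theorem exists_res (p q : (MvPolynomial (Fin n) ℂ)[X]) (hp : p.Monic) (hq : q.Monic)
    (hpi : Irreducible p) (hqi : Irreducible q) (hpq : p ≠ q) :
    ∃ R : MvPolynomial (Fin n) ℂ, R ≠ 0 ∧
      (∀ (z : Fin n → ℂ) (u : Fin p.natDegree → ℂ),
        p.map (MvPolynomial.eval z) = ∏ a, (Polynomial.X - Polynomial.C (u a)) →
          MvPolynomial.eval z R = ∏ a, ev q (z, u a)) ∧
      ∀ x : (Fin n → ℂ) × ℂ, ev p x = 0 → ev q x = 0 → MvPolynomial.eval x.1 R = 0 := by
  refine ⟨Polynomial.resultant p q, c2_ne p q hp hq hpi hqi hpq, ?_, ?_⟩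
  · intro z u hu
    have h1 : MvPolynomial.eval z (Polynomial.resultant p q) =
        Polynomial.resultant (p.map (MvPolynomial.eval z)) (q.map (MvPolynomial.eval z)) := by
      rw [hp.natDegree_map, hq.natDegree_map, Polynomial.resultant_map_map]
    rw [h1, Polynomial.resultant_eq_prod_eval _ _ _ le_rfl, (hp.map _).leadingCoeff, one_pow,
      one_mul, hu]
    · have h2 : (∏ a, (Polynomial.X - Polynomial.C (u a))).roots =
          (Finset.univ : Finset (Fin p.natDegree)).val.map u := by
        rw [← Polynomial.roots_multiset_prod_X_sub_C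
          ((Finset.univ : Finset (Fin p.natDegree)).val.map u), Multiset.map_map]
        rfl
      rw [h2, Multiset.map_map]
      rfl
    · rw [hu]
      exact Polynomial.Splits.prod fun a _ => Polynomial.Splits.X_sub_C _
  · intro x h1 h2
    have hd : p.natDegree ≠ 0 := by
      intro h0
      have := Polynomial.eq_one_of_monic_natDegree_zero hp h0
      exact hpi.not_isUnit (this ▸ isUnit_one)
    obtain ⟨a, b, -, -, e⟩ := Polynomial.exists_mul_add_mul_eq_C_resultant p q le_rfl le_rfl
      (Or.inl hd)
    have h3 := congrArg (fun f : (MvPolynomial (Fin n) ℂ)[X] => ev f x) e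
    simp only [ev, Polynomial.map_add, Polynomial.map_mul, Polynomial.map_C, Polynomial.eval_add,
      Polynomial.eval_mul, Polynomial.eval_C] at h3
    simp only [ev] at h1 h2
    rw [h1, h2, zero_mul, zero_mul, add_zero] at h3
    exact h3.symm

end H13M
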