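import Pool.Agent.Lib.H13M.D
import Pool.Agent.Lib.H13K.T6a

set_option autoImplicit false

open scoped unitInterval Polynomial

namespace H13M

open H13K

private theorem c7_one (u a v : ℂ) (ha : a ≠ 0) (hv : v = u ∨ ‖a‖ < ‖u - v‖) :
    ∃ ℓ : C(I, ℂ), (∀ t, Complex.exp (ℓ t) =
      u + a * Complex.exp (2 * Real.pi * (t : ℝ) * Complex.I) - v) ∧
      ℓ 1 - ℓ 0 = if u = v then 2 * Real.pi * Complex.I else 0 := by
  by_cases hl : u = v
  · subst hl
    refine ⟨⟨fun t => Complex.log a + 2 * Real.pi * (t : ℝ) * Complex.I, by fun_prop⟩, ?_, ?_⟩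
    · intro t
      simp only [ContinuousMap.coe_mk]
      rw [Complex.exp_add, Complex.exp_log ha]
      ring
    · simp
  · have hlt : ‖a‖ < ‖u - v‖ := hv.resolve_left fun h => hl h.symm
    have hc0 : u - v ≠ 0 := sub_ne_zero.2 hl
    obtain ⟨ℓ', h1, h2⟩ := log_perturb (ContinuousMap.const I (u - v))
      ⟨fun t : I => a * Complex.exp (2 * Real.pi * (t : ℝ) * Complex.I), by fun_prop⟩
      (by
        intro t
        simp only [ContinuousMap.coe_mk, ContinuousMap.const_apply]
        rw [norm_mul, norm_circ, mul_one]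
        exact hlt)
      rfl
      (by
        simp [Complex.exp_two_pi_mul_I])
      (ContinuousMap.const I (Complex.log (u - v)))
      (by
        intro t
        simp only [ContinuousMap.const_apply]
        exact Complex.exp_log hc0)
    refine ⟨ℓ', ?_, ?_⟩
    · intro t
      rw [h1]
      simp only [ContinuousMap.coe_mk, ContinuousMap.const_apply]
      ring
    · rw [h2, if_neg hl]
      simp

private theorem c7_multi (u a : ℂ) (ha : a ≠ 0) (R : Multiset ℂ) :
    (∀ v ∈ R, v = u ∨ ‖a‖ < ‖u - v‖) →
    ∃ ℓ : C(I, ℂ), (∀ t, Complex.exp (ℓ t) =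
      (R.map fun v => u + a * Complex.exp (2 * Real.pi * (t : ℝ) * Complex.I) - v).prod) ∧
      ℓ 1 - ℓ 0 = (R.count u : ℂ) * (2 * Real.pi * Complex.I) := by
  induction R using Multiset.induction_on with
  | empty =>
    intro _
    refine ⟨ContinuousMap.const I 0, ?_, ?_⟩
    · intro t
      simp
    · simp
  | cons v R ih =>
    intro h
    obtain ⟨ℓ, h1, h2⟩ := ih fun w hw => h w (Multiset.mem_cons_of_mem hw)
    obtain ⟨ℓ', h1', h2'⟩ := c7_one u a v ha (h v (Multiset.mem_cons_self v R))
    refine ⟨ℓ' + ℓ, ?_, ?_⟩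
    · intro t
      rw [Multiset.map_cons, Multiset.prod_cons, ContinuousMap.add_apply, Complex.exp_add, h1, h1']
    · rw [ContinuousMap.add_apply, ContinuousMap.add_apply, Multiset.count_cons]
      have : ℓ' 1 + ℓ 1 - (ℓ' 0 + ℓ 0) = (ℓ' 1 - ℓ' 0) + (ℓ 1 - ℓ 0) := by ring
      rw [this, h2, h2']
      split_ifs with hh
      · push_cast
        ring
      · push_cast
        ring

variable {n : ℕ} {ι : Type}

/-- Winding numbers of a meridian (port of H13K.K7). -/
theorem mer_log [DecidableEq ι] (P : ι → (MvPolynomial (Fin n) ℂ)[X]) (hm : ∀ i, (P i).Monic)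
    (r : MvPolynomial (Fin n) ℂ) (hr : Disc P r) (i : ι) (z : Fin n → ℂ) (u a : ℂ)
    (h : Adm P z u a) (hz : MvPolynomial.eval z r ≠ 0) (hu : ev (P i) (z, u) = 0) (l : ι) :
    ∃ ℓ : C(I, ℂ), (∀ t, Complex.exp (ℓ t) = ev (P l) (mer P z u a h t).1) ∧
      ℓ 1 - ℓ 0 = if l = i then 2 * Real.pi * Complex.I else 0 := by
  have hev : ∀ (j : ι) (w : ℂ), ((P j).map (MvPolynomial.eval z)).eval w = ev (P j) (z, w) :=
    fun j w => rfl
  have hmon : ∀ j : ι, ((P j).map (MvPolynomial.eval z)).Monic := fun j => (hm j).map _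
  set q := (P l).map (MvPolynomial.eval z) with hq
  have hroots : ∀ v ∈ q.roots, v = u ∨ ‖a‖ < ‖u - v‖ := by
    intro v hv
    by_cases hvu : v = u
    · exact Or.inl hvu
    · right
      by_contra hle
      have h1 := h.2 (v - u) (sub_ne_zero.2 hvu) (by rw [norm_sub_rev]; exact not_lt.1 hle) l
      apply h1
      rw [← hev l, ← hq]
      have h2 : q.eval v = 0 := (Polynomial.mem_roots'.1 hv).2
      simpa using h2
  obtain ⟨ℓ, h1, h2⟩ := c7_multi u a h.1 q.roots hroots
  refine ⟨ℓ, ?_, ?_⟩
  · intro t
    rw [h1]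
    show _ = ev (P l) (z, u + a * Complex.exp (2 * Real.pi * (t : ℝ) * Complex.I))
    rw [← hev l, ← hq]
    have hs : q.Splits := IsAlgClosed.splits q
    have hprod : q = (q.roots.map fun v => Polynomial.X - Polynomial.C v).prod := by
      have h3 := hs.eq_prod_roots
      rw [(hmon l).leadingCoeff, Polynomial.C_1, one_mul] at h3
      exact h3
    conv_rhs => rw [hprod]
    rw [Polynomial.eval_multiset_prod, Multiset.map_map]
    simp
  · rw [h2]
    have hcount : q.roots.count u = if l = i then 1 else 0 := by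
      rw [Polynomial.count_roots]
      split_ifs with hl
      · subst hl
        have hq0 : q ≠ 0 := (hmon l).ne_zero
        have hroot : q.IsRoot u := by
          show q.eval u = 0
          rw [hq, hev l]
          exact hu
        have hd : ¬ (Polynomial.derivative q).IsRoot u := by
          have h4 := hr.simple l (z, u) hz hu
          intro h5
          apply h4
          have h6 : (Polynomial.derivative q).eval u = 0 := h5
          rw [hq, Polynomial.derivative_map] at h6
          exact h6
        have hge : 0 < q.rootMultiplicity u := (Polynomial.rootMultiplicity_pos hq0).2 hroot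
        have hlt : ¬ 1 < q.rootMultiplicity u := by
          intro h7
          rw [Polynomial.one_lt_rootMultiplicity_iff_isRoot hq0] at h7
          exact hd h7.2
        omega
      · have h8 := hr.disj i l (z, u) (fun h => hl h.symm) hz hu
        apply Polynomial.rootMultiplicity_eq_zero
        intro h9
        apply h8
        rw [← hev l, ← hq]
        exact h9
    rw [hcount]
    split_ifs <;> simp

end H13M
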