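import Pool.Agent.Lib.H13M.D
import Pool.Agent.Lib.H13M.C1
import Pool.Agent.Lib.H13M.C6
import Pool.Agent.Lib.H13M.C7
import Pool.Agent.Lib.H13M.C8
import Pool.Agent.Lib.H13M.C11
import Pool.Agent.Lib.H13M.C12
import Pool.Agent.Lib.H13M.C15
import Pool.Agent.Lib.H13M.C16
import Pool.Agent.Lib.H13M.C16b
import Pool.Agent.Lib.H13M.C17
import Pool.Agent.Lib.H13M.C19
import Pool.Agent.Lib.H13K.G
import Pool.Agent.Lib.H13K.T2

set_option autoImplicit false

open scoped unitInterval Polynomial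

namespace H13M

open H13K

variable {n : ℕ} {ι : Type}

/-- The function `P l` on the complement. -/
private noncomputable def c20_fun (P : ι → (MvPolynomial (Fin n) ℂ)[X]) (l : ι) : C(NX P, ℂ) :=
  ⟨fun x => ev (P l) x.1, (continuous_ev (P l)).comp continuous_subtype_val⟩

/-- Winding homomorphisms. -/
private theorem c20_wind (P : ι → (MvPolynomial (Fin n) ℂ)[X]) [PathConnectedSpace (NX P)]
    (x₀ : NX P) (Φ : PF (NX P) (FundamentalGroup (NX P) x₀))
    (hΦ : ∀ p : Path x₀ x₀, Φ.val p = FundamentalGroup.fromPath (Path.Homotopic.Quotient.mk p))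
    (l : ι) :
    ∃ w : FundamentalGroup (NX P) x₀ →* Multiplicative ℂ, ∀ (x : NX P) (p : Path x x)
      (ℓ : C(I, ℂ)), (∀ t, Complex.exp (ℓ t) = ev (P l) (p t).1) →
      (w (Φ.val p)).toAdd = (2 * Real.pi * Complex.I)⁻¹ * (ℓ 1 - ℓ 0) := by
  obtain ⟨L, hL⟩ := exists_log (c20_fun P l) (fun x => x.2 l)
  let ψ : Multiplicative ℂ →* Multiplicative ℂ :=
    AddMonoidHom.toMultiplicative (AddMonoidHom.mulLeft ((2 * Real.pi * Complex.I)⁻¹))
  have hψ : ∀ c : Multiplicative ℂ,
      (ψ c).toAdd = (2 * Real.pi * Complex.I)⁻¹ * c.toAdd := fun c => rfl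
  obtain ⟨w, hw⟩ := exists_hom (L.push ψ) x₀
  refine ⟨w, ?_⟩
  intro x p ℓ hℓ
  have h1 := hom_univ (L.push ψ) x₀ Φ hΦ w hw x p
  rw [h1]
  have h2 : (L.push ψ).val p = ψ (L.val p) := rfl
  rw [h2, hψ, hL p ℓ hℓ]

/-- Every element of the fundamental group is the class of a loop. -/
private theorem c20_mk {X : Type} [TopologicalSpace X] (x₀ : X) (x : FundamentalGroup X x₀) :
    ∃ p : Path x₀ x₀, FundamentalGroup.fromPath (Path.Homotopic.Quotient.mk p) = x := by
  obtain ⟨p, hp⟩ := Path.Homotopic.Quotient.mk_surjective (FundamentalGroup.toPath x)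
  refine ⟨p, ?_⟩
  rw [hp]

/-- The induced homomorphism on classes of loops. -/
private theorem c20_map {X Y : Type} [TopologicalSpace X] [TopologicalSpace Y] (j : C(X, Y))
    (x₀ : X) (p : Path x₀ x₀) :
    FundamentalGroup.map j x₀ (FundamentalGroup.fromPath (Path.Homotopic.Quotient.mk p)) =
      FundamentalGroup.fromPath (Path.Homotopic.Quotient.mk (p.map j.continuous)) := rfl

/-- Filling in a set of hypersurfaces: the three properties of the induced homomorphism. -/
private theorem c20_fill [Finite ι] (P : ι → (MvPolynomial (Fin n) ℂ)[X])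
    (hm : ∀ i, (P i).Monic) (r : MvPolynomial (Fin n) ℂ) (hr : Disc P r) (T : Set ι) (x₀ : NX P)
    [PathConnectedSpace (NX P)] (Φ : PF (NX P) (FundamentalGroup (NX P) x₀))
    (hΦ : ∀ p : Path x₀ x₀, Φ.val p = FundamentalGroup.fromPath (Path.Homotopic.Quotient.mk p)) :
    Function.Surjective (FundamentalGroup.map (inclT P T) x₀) ∧
    (∀ i ∈ T, ∀ m ∈ {m | ∃ (z : Fin n → ℂ) (u a : ℂ) (h : Adm P z u a),
        MvPolynomial.eval z r ≠ 0 ∧ ev (P i) (z, u) = 0 ∧ m = Φ.val (mer P z u a h)},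
      FundamentalGroup.map (inclT P T) x₀ m = 1) ∧
    ∀ (H : Type) [Group H] (ψ : FundamentalGroup (NX P) x₀ →* H),
      (∀ i ∈ T, ∀ m ∈ {m | ∃ (z : Fin n → ℂ) (u a : ℂ) (h : Adm P z u a),
        MvPolynomial.eval z r ≠ 0 ∧ ev (P i) (z, u) = 0 ∧ m = Φ.val (mer P z u a h)}, ψ m = 1) →
      ∀ x, FundamentalGroup.map (inclT P T) x₀ x = 1 → ψ x = 1 := by
  refine ⟨?_, ?_, ?_⟩
  · intro y
    obtain ⟨γ, rfl⟩ := c20_mk _ y
    obtain ⟨p, hp⟩ := surj P hm T x₀ γ
    refine ⟨FundamentalGroup.fromPath (Path.Homotopic.Quotient.mk p), ?_⟩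
    rw [c20_map]
    exact congrArg _ (Quotient.sound hp)
  · rintro i hi m ⟨z, u, a, h, hz, hu, rfl⟩
    have h0 := mer_null P r hr T i hi z u a h hz hu
    obtain ⟨τ⟩ : Nonempty (Path x₀ (mbase P z u a h)) := ⟨PathConnectedSpace.somePath _ _⟩
    have h1 : Φ.val (τ.trans ((mer P z u a h).trans τ.symm)) =
        (Φ.val τ)⁻¹ * Φ.val (mer P z u a h) * Φ.val τ := by
      rw [Φ.trans, Φ.trans, Φ.val_symm]
    have h2 : FundamentalGroup.map (inclT P T) x₀
        (Φ.val (τ.trans ((mer P z u a h).trans τ.symm))) = 1 := by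
      rw [hΦ, c20_map]
      have h3 : ((τ.trans ((mer P z u a h).trans τ.symm)).map (inclT P T).continuous).Homotopic
          (Path.refl _) := by
        rw [Path.map_trans, Path.map_trans]
        have h4 : ((τ.map (inclT P T).continuous).trans
            (((mer P z u a h).map (inclT P T).continuous).trans
              (τ.symm.map (inclT P T).continuous))).Homotopic
            ((τ.map (inclT P T).continuous).trans
              ((Path.refl _).trans (τ.symm.map (inclT P T).continuous))) :=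
          Path.Homotopic.hcomp (Path.Homotopic.refl _)
            (Path.Homotopic.hcomp h0 (Path.Homotopic.refl _))
        refine h4.trans ?_
        have h5 : ((τ.map (inclT P T).continuous).trans
              ((Path.refl _).trans (τ.symm.map (inclT P T).continuous))).Homotopic
            ((τ.map (inclT P T).continuous).trans (τ.symm.map (inclT P T).continuous)) :=
          Path.Homotopic.hcomp (Path.Homotopic.refl _) ⟨Path.Homotopy.reflTrans _⟩
        refine h5.trans ?_
        rw [← Path.map_symm]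
        exact ⟨(Path.Homotopy.reflTransSymm _).symm⟩
      exact congrArg _ (Quotient.sound h3)
    rw [h1, map_mul, map_mul, map_inv] at h2
    rw [mul_assoc] at h2
    have h6 := inv_mul_eq_one.1 h2
    exact mul_right_cancel (h6.symm.trans (one_mul _).symm)
  · intro H _ ψ hψ x hx
    obtain ⟨p, rfl⟩ := c20_mk _ x
    rw [c20_map] at hx
    have h1 : (p.map (inclT P T).continuous).Homotopic
        ((Path.refl x₀).map (inclT P T).continuous) := by
      exact Quotient.exact hx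
    have hk : Kills T r (Φ.push ψ) := by
      intro i hi z u a h hz hu
      exact hψ i hi _ ⟨z, u, a, h, hz, hu, rfl⟩
    have h2 := fill P hm r hr T (Φ.push ψ) hk p (Path.refl x₀) h1
    rw [PF.val_refl] at h2
    rw [← hΦ]
    exact h2

/-- Free decompositions are geometric, for families monic in w.
Proof: r from `exists_disc`; G the fundamental group, M i = all Φ.val (mer P z u a h) over r ≠ 0 at
roots of P i (Φ from `exists_univ`, NX P is path connected: `NX_convex_pc` with U = univ), w l from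
`exists_log`, `exists_hom`, `hom_univ` divided by 2 pi i; adj i j = i ≠ j and a common zero; hconj:
`mer_conj`, `CS_pathConnected`; hw: `mer_log`; hgen: `kills_all` for Φ.push ψ; hadj: `torus`; `alg3`
gives T.  `iso_factor` with f = the homomorphism induced by inclT P T (surjective: `surj`; hT:
`mer_null`; hker: `fill` for Φ.push ψ, with the constant path), `iso_factor'` for the complement
of T. -/
theorem main3 [Fintype ι] (P : ι → (MvPolynomial (Fin n) ℂ)[X]) (hm : ∀ i, (P i).Monic)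
    (hirr : ∀ i, Irreducible (P i)) (hinj : Function.Injective P)
    (hmeet : ∀ i, ∃ j, i ≠ j ∧ ∃ q, ev (P i) q = 0 ∧ ev (P j) q = 0) (x₀ : NX P)
    (A B : Type) [Group A] [Group B]
    (e : FundamentalGroup (NX P) x₀ ≃* Monoid.Coprod A B) :
    ∃ T : Set ι, (∀ i ∈ T, ∀ j, j ∉ T → ∀ q, ¬ (ev (P i) q = 0 ∧ ev (P j) q = 0)) ∧
      Nonempty (FundamentalGroup (NT P T) (inclT P T x₀) ≃* A) ∧
      Nonempty (FundamentalGroup (NT P Tᶜ) (inclT P Tᶜ x₀) ≃* B) := by
  classical
  have : PathConnectedSpace (NX P) := by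
    have h1 := NX_convex_pc P hm Set.univ convex_univ isOpen_univ ⟨0, trivial⟩
    rw [Set.univ_inter] at h1
    exact isPathConnected_iff_pathConnectedSpace.1 h1
  obtain ⟨r, hr⟩ := exists_disc P hm hirr hinj
  obtain ⟨Φ, hΦ⟩ := exists_univ x₀
  choose w hw using fun l => c20_wind P x₀ Φ hΦ l
  have hpi : (2 * Real.pi * Complex.I : ℂ) ≠ 0 := Complex.two_pi_I_ne_zero
  let M : ι → Set (FundamentalGroup (NX P) x₀) := fun i =>
    {m | ∃ (z : Fin n → ℂ) (u a : ℂ) (h : Adm P z u a),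
      MvPolynomial.eval z r ≠ 0 ∧ ev (P i) (z, u) = 0 ∧ m = Φ.val (mer P z u a h)}
  have hgen : ∀ (H : Type) [Group H] (ψ : FundamentalGroup (NX P) x₀ →* H),
      (∀ i, ∀ m ∈ M i, ψ m = 1) → ∀ x, ψ x = 1 := by
    intro H _ ψ hψ x
    have hk : Kills Set.univ r (Φ.push ψ) := by
      intro i _ z u a h hz hu
      exact hψ i _ ⟨z, u, a, h, hz, hu, rfl⟩
    obtain ⟨p, rfl⟩ := c20_mk _ x
    rw [← hΦ]
    exact kills_all P hm r hr (Φ.push ψ) hk x₀ p
  obtain ⟨T, hTB, hTA, hTn⟩ := alg3 (G := FundamentalGroup (NX P) x₀) M w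
    (by
      rintro i m ⟨z, u, a, h, hz, hu, rfl⟩ m' ⟨z', u', a', h', hz', hu', rfl⟩
      obtain ⟨q, hq⟩ := mer_conj P r hr i
        (CS_pathConnected (P i) (hm i) (hirr i) r hr.ne (hr.simple i)) h hz hu h' hz' hu'
      have h1 := Φ.homot hq
      rw [Φ.trans, Φ.trans] at h1
      rw [isConj_iff]
      exact ⟨Φ.val q, by rw [h1, mul_inv_cancel_right]⟩)
    (by
      rintro i m ⟨z, u, a, h, hz, hu, rfl⟩ j
      obtain ⟨ℓ, h1, h2⟩ := mer_log P hm r hr i z u a h hz hu j
      rw [hw j _ _ ℓ h1, h2]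
      split_ifs
      · exact inv_mul_cancel₀ hpi
      · exact mul_zero _)
    hgen (fun i j => i ≠ j ∧ ∃ q, ev (P i) q = 0 ∧ ev (P j) q = 0)
    (by
      rintro i j ⟨hij, q, h1, h2⟩
      refine ⟨hij, ?_⟩
      obtain ⟨z, u, a, h, c, hz, hu, hc, ℓ, hℓ, hℓ'⟩ :=
        torus P hm hirr hinj r hr i j hij q h1 h2
      refine ⟨_, ⟨z, u, a, h, hz, hu, rfl⟩, Φ.val c, ?_, ?_⟩
      · have h1 := Φ.homot hc
        rw [Φ.trans, Φ.trans] at h1
        exact h1.symm
      · rw [hw j _ _ ℓ hℓ]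
        exact mul_ne_zero (inv_ne_zero hpi) (sub_ne_zero.2 hℓ'))
    (by
      rintro i j ⟨hij, q, h1, h2⟩
      exact ⟨hij.symm, q, h2, h1⟩)
    hmeet A B e
  refine ⟨T, ?_, ?_, ?_⟩
  · intro i hi j hj q hq
    exact hTn i hi j hj ⟨fun h => hj (h ▸ hi), q, hq⟩
  · obtain ⟨h1, h2, h3⟩ := c20_fill P hm r hr T x₀ Φ hΦ
    exact iso_factor M T A B e _ h1 h2 h3 hgen hTB hTA
  · obtain ⟨h1, h2, h3⟩ := c20_fill P hm r hr Tᶜ x₀ Φ hΦ
    exact iso_factor' M Tᶜ A B e _ h1 h2 h3 hgen (fun i hi => hTA i hi)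
      (fun i hi => hTB i (not_not.1 hi))

end H13M
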