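import Pool.Agent.Lib.H13M.D

set_option autoImplicit false

open scoped unitInterval Polynomial

namespace H13M

open H13K

variable {n : ℕ} {ι : Type}

private theorem c21_prod {R α : Type} [CommSemiring R] [DecidableEq α] (q : α → R[X]) (e : α → ℕ)
    (hq : ∀ k, (q k).natDegree ≤ 1) (t : Finset α) :
    (∏ k ∈ t, q k ^ e k).natDegree ≤ ∑ k ∈ t, e k ∧
      (∏ k ∈ t, q k ^ e k).coeff (∑ k ∈ t, e k) = ∏ k ∈ t, (q k).coeff 1 ^ e k := by
  induction t using Finset.induction_on with
  | empty => simp
  | insert a t ha ih =>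
    have h1 : (q a ^ e a).natDegree ≤ e a := by
      have := Polynomial.natDegree_pow_le_of_le (e a) (hq a)
      rwa [mul_one] at this
    have h2 : (q a ^ e a).coeff (e a) = (q a).coeff 1 ^ e a := by
      have := Polynomial.coeff_pow_of_natDegree_le (m := e a) (hq a)
      rwa [mul_one] at this
    rw [Finset.prod_insert ha, Finset.sum_insert ha, Finset.prod_insert ha]
    refine ⟨Polynomial.natDegree_mul_le_of_le h1 ih.1, ?_⟩
    rw [Polynomial.coeff_mul_add_eq_of_natDegree_le h1 ih.1, h2, ih.2]

/-- the shear -/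
private noncomputable def c21_f (v : Fin n → ℂ) : Fin (n + 1) → MvPolynomial (Fin (n + 1)) ℂ :=
  Fin.cons (MvPolynomial.X 0) (fun k => MvPolynomial.X k.succ + MvPolynomial.C (v k) * MvPolynomial.X 0)

private theorem c21_comp (v v' : Fin n → ℂ) (h : ∀ k, v k + v' k = 0) :
    (MvPolynomial.aeval (c21_f v)).comp (MvPolynomial.aeval (R := ℂ) (c21_f v')) =
      AlgHom.id ℂ (MvPolynomial (Fin (n + 1)) ℂ) := by
  apply MvPolynomial.algHom_ext
  intro i
  refine Fin.cases ?_ (fun k => ?_) i
  · simp [c21_f]
  · simp only [AlgHom.comp_apply, MvPolynomial.aeval_X, AlgHom.id_apply]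
    have e1 : c21_f v' k.succ = MvPolynomial.X k.succ + MvPolynomial.C (v' k) * MvPolynomial.X 0 := rfl
    have e2 : c21_f v k.succ = MvPolynomial.X k.succ + MvPolynomial.C (v k) * MvPolynomial.X 0 := rfl
    have e3 : c21_f v 0 = MvPolynomial.X 0 := rfl
    rw [e1, map_add, map_mul, MvPolynomial.aeval_X, MvPolynomial.aeval_X, e2, e3, MvPolynomial.aeval_C,
      MvPolynomial.algebraMap_eq, add_assoc, ← add_mul, ← map_add, h, map_zero, zero_mul, add_zero]

private noncomputable def c21_sh (v : Fin n → ℂ) :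
    MvPolynomial (Fin (n + 1)) ℂ ≃ₐ[ℂ] MvPolynomial (Fin (n + 1)) ℂ :=
  AlgEquiv.ofAlgHom (MvPolynomial.aeval (c21_f v)) (MvPolynomial.aeval (c21_f fun k => -v k))
    (c21_comp _ _ fun k => by ring) (c21_comp _ _ fun k => by ring)

/-- A linear change of coordinates makes f monic in the last variable up to a constant.
Proof: d = totalDegree f, f_d its homogeneous part of degree d, a vector v with f_d (v) ≠ 0 and (as
f_d ≠ 0 is not divisible ... choose v with last coordinate v_last ≠ 0 too; scale) v_last = 1; L⁻¹ (z,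
w) = (z + w v', w), v = (v', 1): the coefficient of w ^ d in f (z + w v', w) is f_d (v) ≠ 0 and there
are no higher ones.  φ = corresponding algebra isomorphism (substitution X k ↦ C (X k) + C (C v_k) *
X for k < n and X last ↦ X). -/
theorem exists_shear (f : MvPolynomial (Fin (n + 1)) ℂ) (hf : f ≠ 0) :
    ∃ (L : (Fin (n + 1) → ℂ) ≃ₜ (Fin n → ℂ) × ℂ)
      (φ : MvPolynomial (Fin (n + 1)) ℂ ≃ₐ[ℂ] (MvPolynomial (Fin n) ℂ)[X]),
      (∀ (g : MvPolynomial (Fin (n + 1)) ℂ) (x : Fin (n + 1) → ℂ),
        ev (φ g) (L x) = MvPolynomial.eval x g) ∧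
      IsUnit (φ f).leadingCoeff := by
  classical
  obtain ⟨d, hd⟩ : ∃ d, d = f.totalDegree := ⟨_, rfl⟩
  have hle : ∀ s ∈ f.support, ∑ i, s i ≤ d := by
    intro s hs
    have h := MvPolynomial.le_totalDegree hs
    rw [Finsupp.sum_fintype _ _ (fun _ => rfl)] at h
    rw [hd]
    exact h
  obtain ⟨s0, hs0, hs0d⟩ : ∃ s ∈ f.support, ∑ i, s i = d := by
    have hne : f.support.Nonempty := by
      rw [Finset.nonempty_iff_ne_empty]
      intro h
      exact hf (MvPolynomial.support_eq_empty.1 h)
    obtain ⟨s, hs, h⟩ := Finset.exists_mem_eq_sup f.support hne (fun s => s.sum fun _ e => e)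
    refine ⟨s, hs, ?_⟩
    rw [hd, MvPolynomial.totalDegree, h, Finsupp.sum_fintype _ _ (fun _ => rfl)]
  -- the polynomial of the top coefficient
  obtain ⟨P, hP⟩ : ∃ P : MvPolynomial (Fin n) ℂ, P = ∑ s ∈ f.support.filter (fun s => ∑ i, s i = d),
      MvPolynomial.monomial (Finsupp.tail s) (MvPolynomial.coeff s f) := ⟨_, rfl⟩
  have hP0 : P ≠ 0 := by
    intro h0
    have h1 : MvPolynomial.coeff (Finsupp.tail s0) P = MvPolynomial.coeff s0 f := by
      rw [hP, MvPolynomial.coeff_sum, Finset.sum_eq_single s0]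
      · rw [MvPolynomial.coeff_monomial, if_pos rfl]
      · intro s hs hne
        rw [MvPolynomial.coeff_monomial, if_neg]
        intro h
        apply hne
        have h2 := (Finset.mem_filter.1 hs).2
        have h3 : ∀ k : Fin n, s k.succ = s0 k.succ := fun k => by
          have := DFunLike.congr_fun h k
          rwa [Finsupp.tail_apply, Finsupp.tail_apply] at this
        rw [Fin.sum_univ_succ, Finset.sum_congr rfl fun k _ => h3 k] at h2
        rw [Fin.sum_univ_succ] at hs0d
        ext i
        refine Fin.cases ?_ (fun k => h3 k) i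
        omega
      · intro h
        exact absurd (Finset.mem_filter.2 ⟨hs0, hs0d⟩) h
    rw [h0, MvPolynomial.coeff_zero] at h1
    exact (MvPolynomial.mem_support_iff.1 hs0) h1.symm
  obtain ⟨v, hv⟩ : ∃ v, MvPolynomial.eval v P ≠ 0 := by
    by_contra hcon
    push Not at hcon
    exact hP0 (MvPolynomial.funext fun r => by rw [hcon r, map_zero])
  let L : (Fin (n + 1) → ℂ) ≃ₜ (Fin n → ℂ) × ℂ :=
    { toFun := fun x => (fun k => x k.succ - v k * x 0, x 0)
      invFun := fun q => Fin.cons q.2 (fun k => q.1 k + v k * q.2)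
      left_inv := by
        intro x
        funext i
        refine Fin.cases ?_ (fun k => ?_) i
        · simp
        · simp
      right_inv := by
        rintro ⟨z, w⟩
        simp
      continuous_toFun := by fun_prop
      continuous_invFun := by
        refine continuous_pi fun i => ?_
        refine Fin.cases ?_ (fun k => ?_) i
        · simp only [Fin.cons_zero]
          fun_prop
        · simp only [Fin.cons_succ]
          fun_prop }
  obtain ⟨φ, hφ⟩ : ∃ φ : MvPolynomial (Fin (n + 1)) ℂ ≃ₐ[ℂ] (MvPolynomial (Fin n) ℂ)[X],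
      ∀ g, φ g = MvPolynomial.finSuccEquiv ℂ n (MvPolynomial.aeval (c21_f v) g) :=
    ⟨(c21_sh v).trans (MvPolynomial.finSuccEquiv ℂ n), fun g => rfl⟩
  refine ⟨L, φ, ?_, ?_⟩
  · intro g x
    have h1 : ev (φ g) (L x) = MvPolynomial.eval (Fin.cons (x 0) (fun k => x k.succ - v k * x 0))
        (MvPolynomial.aeval (c21_f v) g) := by
      rw [MvPolynomial.eval_eq_eval_mv_eval', hφ]
      rfl
    rw [h1]
    have h2 : (MvPolynomial.aeval (Fin.cons (x 0) (fun k => x k.succ - v k * x 0) : Fin (n + 1) → ℂ)).comp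
        (MvPolynomial.aeval (R := ℂ) (c21_f v)) = MvPolynomial.aeval x := by
      apply MvPolynomial.algHom_ext
      intro i
      refine Fin.cases ?_ (fun k => ?_) i
      · simp [c21_f]
      · simp [c21_f]
    have h3 := congrArg (fun ψ => ψ g) h2
    simp only [AlgHom.comp_apply, MvPolynomial.aeval_eq_eval] at h3
    exact h3
  · clear L
    have hC : ∀ a : ℂ, MvPolynomial.finSuccEquiv ℂ n (MvPolynomial.C a) = Polynomial.C (MvPolynomial.C a) := by
      intro a
      simp [MvPolynomial.finSuccEquiv_apply]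
    -- the monomials
    have hmon : ∀ (s : Fin (n + 1) →₀ ℕ) (a : ℂ), φ (MvPolynomial.monomial s a) =
        Polynomial.C (MvPolynomial.C a) * (Polynomial.X ^ s 0 * ∏ k : Fin n,
          (Polynomial.C (MvPolynomial.X k) + Polynomial.C (MvPolynomial.C (v k)) * Polynomial.X) ^ s k.succ) := by
      intro s a
      rw [hφ, MvPolynomial.aeval_monomial, Finsupp.prod_fintype _ _ (fun _ => pow_zero _), Fin.prod_univ_succ,
        MvPolynomial.algebraMap_eq, map_mul, map_mul, map_pow, map_prod]
      have e0 : c21_f v 0 = MvPolynomial.X 0 := rfl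
      rw [e0, MvPolynomial.finSuccEquiv_X_zero]
      rw [hC]
      have e3 : ∀ k : Fin n, MvPolynomial.finSuccEquiv ℂ n (c21_f v k.succ ^ s k.succ) =
          (Polynomial.C (MvPolynomial.X k) + Polynomial.C (MvPolynomial.C (v k)) * Polynomial.X) ^ s k.succ := by
        intro k
        have e2 : c21_f v k.succ = MvPolynomial.X k.succ + MvPolynomial.C (v k) * MvPolynomial.X 0 := rfl
        rw [map_pow, e2, map_add, map_mul, MvPolynomial.finSuccEquiv_X_succ, MvPolynomial.finSuccEquiv_X_zero, hC]
      rw [Finset.prod_congr rfl fun k _ => e3 k]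
    have hlin : ∀ k : Fin n, (Polynomial.C (MvPolynomial.X k) + Polynomial.C (MvPolynomial.C (v k)) *
        Polynomial.X : (MvPolynomial (Fin n) ℂ)[X]).natDegree ≤ 1 := by
      intro k
      refine Polynomial.natDegree_add_le_of_degree_le ?_ ?_
      · rw [Polynomial.natDegree_C]
        exact Nat.zero_le 1
      · exact (Polynomial.natDegree_C_mul_le _ _).trans Polynomial.natDegree_X_le
    have hlin1 : ∀ k : Fin n, (Polynomial.C (MvPolynomial.X k) + Polynomial.C (MvPolynomial.C (v k)) *
        Polynomial.X : (MvPolynomial (Fin n) ℂ)[X]).coeff 1 = MvPolynomial.C (v k) := by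
      intro k
      rw [Polynomial.coeff_add, Polynomial.coeff_C, if_neg one_ne_zero, zero_add, Polynomial.coeff_C_mul,
        Polynomial.coeff_X_one, mul_one]
    have hdegm : ∀ (s : Fin (n + 1) →₀ ℕ) (a : ℂ), (φ (MvPolynomial.monomial s a)).natDegree ≤ ∑ i, s i := by
      intro s a
      rw [hmon, Fin.sum_univ_succ]
      refine (Polynomial.natDegree_C_mul_le _ _).trans ?_
      exact Polynomial.natDegree_mul_le_of_le (Polynomial.natDegree_X_pow_le _)
        (c21_prod _ (fun k => s k.succ) hlin Finset.univ).1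
    have hcoeffm : ∀ (s : Fin (n + 1) →₀ ℕ) (a : ℂ), (φ (MvPolynomial.monomial s a)).coeff (∑ i, s i) =
        MvPolynomial.C (MvPolynomial.eval v (MvPolynomial.monomial (Finsupp.tail s) a)) := by
      intro s a
      rw [hmon, Fin.sum_univ_succ, Polynomial.coeff_C_mul,
        Polynomial.coeff_mul_add_eq_of_natDegree_le (Polynomial.natDegree_X_pow_le _)
          (c21_prod _ (fun k => s k.succ) hlin Finset.univ).1,
        (c21_prod _ (fun k => s k.succ) hlin Finset.univ).2, Polynomial.coeff_X_pow, if_pos rfl, one_mul,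
        MvPolynomial.eval_monomial, Finsupp.prod_fintype _ _ (fun _ => pow_zero _), map_mul, map_prod]
      congr 1
      refine Finset.prod_congr rfl fun k _ => ?_
      rw [hlin1, map_pow]
      rfl
    have hsum : φ f = ∑ s ∈ f.support, φ (MvPolynomial.monomial s (MvPolynomial.coeff s f)) := by
      conv_lhs => rw [f.as_sum]
      rw [map_sum]
    have hdeg : (φ f).natDegree ≤ d := by
      rw [hsum]
      exact Polynomial.natDegree_sum_le_of_forall_le _ _ fun s hs => (hdegm s _).trans (hle s hs)
    have hco : (φ f).coeff d = MvPolynomial.C (MvPolynomial.eval v P) := by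
      rw [hsum, Polynomial.finsetSum_coeff, hP, map_sum, map_sum, Finset.sum_filter]
      refine Finset.sum_congr rfl fun s hs => ?_
      by_cases h : ∑ i, s i = d
      · rw [if_pos h, ← h, hcoeffm]
      · rw [if_neg h]
        exact Polynomial.coeff_eq_zero_of_natDegree_lt
          (lt_of_le_of_lt (hdegm s _) (lt_of_le_of_ne (hle s hs) h))
    have hne : (φ f).coeff d ≠ 0 := by
      rw [hco]
      exact (map_ne_zero_iff _ (MvPolynomial.C_injective _ _)).2 hv
    have hnd : (φ f).natDegree = d := le_antisymm hdeg (Polynomial.le_natDegree_of_ne_zero hne)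
    rw [Polynomial.leadingCoeff, hnd, hco]
    exact (isUnit_iff_ne_zero.2 hv).map MvPolynomial.C

end H13M
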