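import Pool.Agent.Lib.H13M.D

set_option autoImplicit false

open scoped unitInterval Polynomial

namespace H13M

open H13K

variable {n : ℕ} {ι : Type}

private theorem exists_monic (F p : (MvPolynomial (Fin n) ℂ)[X]) (hF : IsUnit F.leadingCoeff)
    (hp : p ∣ F) : ∃ q : (MvPolynomial (Fin n) ℂ)[X], q.Monic ∧ Associated p q := by
  obtain ⟨c, hc⟩ := hp
  have h1 : IsUnit p.leadingCoeff := by
    rw [hc, Polynomial.leadingCoeff_mul] at hF
    exact isUnit_of_mul_isUnit_left hF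
  obtain ⟨u, hu⟩ := h1
  refine ⟨p * Polynomial.C ((u⁻¹ : (MvPolynomial (Fin n) ℂ)ˣ) : MvPolynomial (Fin n) ℂ), ?_, ?_⟩
  · rw [Polynomial.Monic, Polynomial.leadingCoeff_mul, Polynomial.leadingCoeff_C, ← hu,
      Units.mul_inv]
  · exact ⟨Units.map (Polynomial.C : MvPolynomial (Fin n) ℂ →+* _).toMonoidHom u⁻¹, rfl⟩

/-- The family of the monic irreducible factors (port of H13K.exists_family, K18b.lean). -/
theorem exists_family (F : (MvPolynomial (Fin n) ℂ)[X]) (hF : IsUnit F.leadingCoeff) :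
    ∃ (ι : Type) (_ : Fintype ι) (P : ι → (MvPolynomial (Fin n) ℂ)[X]), (∀ i, (P i).Monic) ∧
      (∀ i, Irreducible (P i)) ∧ Function.Injective P ∧ (∀ i, P i ∣ F) ∧
      (∀ q, ev F q = 0 ↔ ∃ i, ev (P i) q = 0) ∧
      ∀ p : (MvPolynomial (Fin n) ℂ)[X], Irreducible p → p ∣ F → ∃ i, Associated p (P i) := by
  classical
  have hF0 : F ≠ 0 := by
    rintro rfl
    rw [Polynomial.leadingCoeff_zero] at hF
    exact not_isUnit_zero hF
  have hmon : ∀ p : (MvPolynomial (Fin n) ℂ)[X], ∃ q : (MvPolynomial (Fin n) ℂ)[X],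
      p ∣ F → q.Monic ∧ Associated p q := by
    intro p
    by_cases hp : p ∣ F
    · obtain ⟨q, hq⟩ := exists_monic F p hF hp
      exact ⟨q, fun _ => hq⟩
    · exact ⟨0, fun h => absurd h hp⟩
  choose mon hmon using hmon
  let fs := UniqueFactorizationMonoid.factors F
  let S : Finset (MvPolynomial (Fin n) ℂ)[X] := fs.toFinset.image mon
  have hS : ∀ i : S, ∃ a ∈ fs, mon a = i.1 := by
    intro i
    obtain ⟨a, ha, hai⟩ := Finset.mem_image.1 i.2
    exact ⟨a, Multiset.mem_toFinset.1 ha, hai⟩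
  have hdvd : ∀ a ∈ fs, a ∣ F := fun a ha => UniqueFactorizationMonoid.dvd_of_mem_factors ha
  have hev : ∀ p p' q, Associated p p' → ev p q = 0 → ev (n := n) p' q = 0 := by
    intro p p' q h h0
    obtain ⟨u, hu⟩ := h
    rw [← hu, ev_mul, h0, zero_mul]
  let E : ((Fin n → ℂ) × ℂ) → ((MvPolynomial (Fin n) ℂ)[X] →+* ℂ) := fun q =>
    (Polynomial.evalRingHom q.2).comp (Polynomial.mapRingHom (MvPolynomial.eval q.1))
  have hE : ∀ p q, ev p q = E q p := fun p q => rfl
  refine ⟨S, inferInstance, fun i => i.1, ?_, ?_, Subtype.val_injective, ?_, ?_, ?_⟩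
  · intro i
    obtain ⟨a, ha, hai⟩ := hS i
    beta_reduce
    rw [← hai]
    exact (hmon a (hdvd a ha)).1
  · intro i
    obtain ⟨a, ha, hai⟩ := hS i
    beta_reduce
    rw [← hai]
    exact (hmon a (hdvd a ha)).2.irreducible (UniqueFactorizationMonoid.irreducible_of_factor a ha)
  · intro i
    obtain ⟨a, ha, hai⟩ := hS i
    beta_reduce
    rw [← hai]
    exact (hmon a (hdvd a ha)).2.symm.dvd.trans (hdvd a ha)
  · intro q
    have h1 : Associated fs.prod F := UniqueFactorizationMonoid.factors_prod hF0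
    constructor
    · intro h0
      have h2 := hev F fs.prod q h1.symm h0
      rw [hE, map_multiset_prod, Multiset.prod_eq_zero_iff, Multiset.mem_map] at h2
      obtain ⟨a, ha, h3⟩ := h2
      refine ⟨⟨mon a, Finset.mem_image.2 ⟨a, Multiset.mem_toFinset.2 ha, rfl⟩⟩, ?_⟩
      exact hev a (mon a) q (hmon a (hdvd a ha)).2 h3
    · rintro ⟨i, h0⟩
      obtain ⟨a, ha, hai⟩ := hS i
      have h3 : ev a q = 0 := hev (mon a) a q (hmon a (hdvd a ha)).2.symm (by rw [hai]; exact h0)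
      obtain ⟨c, hc⟩ := hdvd a ha
      rw [hc, ev_mul, h3, zero_mul]
  · intro p hp hpF
    obtain ⟨a, ha, hpa⟩ := UniqueFactorizationMonoid.exists_mem_factors_of_dvd hF0 hp hpF
    exact ⟨⟨mon a, Finset.mem_image.2 ⟨a, Multiset.mem_toFinset.2 ha, rfl⟩⟩,
      hpa.trans (hmon a (hdvd a ha)).2⟩

end H13M
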