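import Pool.Agent.Lib.H13M.D
import Pool.Agent.Lib.H13M.C20
import Pool.Agent.Lib.H13M.C21
import Pool.Agent.Lib.H13M.C22
import Pool.Agent.Lib.H13K.K20

set_option autoImplicit false

open scoped unitInterval Polynomial

namespace H13M

open H13K

variable {n : ℕ} {ι : Type}

/-- A homeomorphism induces an isomorphism of fundamental groups. -/
private theorem c23_pi {X Y : Type} [TopologicalSpace X] [TopologicalSpace Y] (e : X ≃ₜ Y) {x : X}
    {y : Y} (h : e x = y) : Nonempty (FundamentalGroup X x ≃* FundamentalGroup Y y) := by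
  have h' : e.symm y = x := by rw [← h, e.symm_apply_apply]
  refine ⟨MonoidHom.toMulEquiv
    (FundamentalGroup.mapOfEq (⟨e, e.continuous⟩ : C(X, Y)) (x := x) (y := y) h)
    (FundamentalGroup.mapOfEq (⟨e.symm, e.symm.continuous⟩ : C(Y, X)) (x := y) (y := x) h') ?_ ?_⟩
  · ext p
    rw [MonoidHom.comp_apply, FundamentalGroup.mapOfEq_apply, FundamentalGroup.mapOfEq_apply]
    induction p using Path.Homotopic.Quotient.ind with | mk γ =>
    change Path.Homotopic.Quotient.mk _ = Path.Homotopic.Quotient.mk γ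
    congr 1
    exact Path.ext (funext fun t => e.symm_apply_apply (γ t))
  · ext p
    rw [MonoidHom.comp_apply, FundamentalGroup.mapOfEq_apply, FundamentalGroup.mapOfEq_apply]
    induction p using Path.Homotopic.Quotient.ind with | mk γ =>
    change Path.Homotopic.Quotient.mk _ = Path.Homotopic.Quotient.mk γ
    congr 1
    exact Path.ext (funext fun t => e.apply_symm_apply (γ t))

private theorem c23_prod (P : ι → (MvPolynomial (Fin n) ℂ)[X]) (s : Finset ι) (q : (Fin n → ℂ) × ℂ) :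
    ev (∏ i ∈ s, P i) q = ∏ i ∈ s, ev (P i) q := by
  unfold ev
  rw [Polynomial.map_prod, Polynomial.eval_prod]

private theorem c23_assoc {p p' : (MvPolynomial (Fin n) ℂ)[X]} (h : Associated p p')
    {q : (Fin n → ℂ) × ℂ} (h0 : ev p q = 0) : ev p' q = 0 := by
  obtain ⟨u, hu⟩ := h
  rw [← hu, ev_mul, h0, zero_mul]

/-- Final form.
Proof: f ≠ 0 because of x₀; L, φ from `exists_shear`, P from `exists_family` for F = φ f; hmeet of
`main3`: P i is associated to φ p for an irreducible factor p of f.  f₁ = φ.symm (∏ i ∉ T, P i),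
f₂ = φ.symm (∏ i ∈ T, P i).  L restricts to homeomorphisms of {f ≠ 0}, {f₁ ≠ 0}, {f₂ ≠ 0} onto
NX P, NT P T, NT P Tᶜ (and a homeomorphism induces an isomorphism of fundamental groups). -/
theorem final_form (f : MvPolynomial (Fin (n + 1)) ℂ)
    (hf : ∀ p : MvPolynomial (Fin (n + 1)) ℂ, Irreducible p → p ∣ f →
      ∃ q : MvPolynomial (Fin (n + 1)) ℂ, Irreducible q ∧ q ∣ f ∧ ¬ Associated p q ∧
        ∃ z, MvPolynomial.eval z p = 0 ∧ MvPolynomial.eval z q = 0)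
    (x₀ : {z : Fin (n + 1) → ℂ // MvPolynomial.eval z f ≠ 0}) (A B : Type) [Group A] [Group B]
    (e : FundamentalGroup {z : Fin (n + 1) → ℂ // MvPolynomial.eval z f ≠ 0} x₀ ≃*
      Monoid.Coprod A B) :
    ∃ f₁ f₂ : MvPolynomial (Fin (n + 1)) ℂ,
      (∀ z, MvPolynomial.eval z f = 0 ↔ MvPolynomial.eval z f₁ = 0 ∨ MvPolynomial.eval z f₂ = 0) ∧
      (∀ z, ¬ (MvPolynomial.eval z f₁ = 0 ∧ MvPolynomial.eval z f₂ = 0)) ∧
      (∃ x₁ : {z : Fin (n + 1) → ℂ // MvPolynomial.eval z f₁ ≠ 0}, Nonempty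
        (FundamentalGroup {z : Fin (n + 1) → ℂ // MvPolynomial.eval z f₁ ≠ 0} x₁ ≃* A)) ∧
      (∃ x₂ : {z : Fin (n + 1) → ℂ // MvPolynomial.eval z f₂ ≠ 0}, Nonempty
        (FundamentalGroup {z : Fin (n + 1) → ℂ // MvPolynomial.eval z f₂ ≠ 0} x₂ ≃* B)) := by
  classical
  have hf0 : f ≠ 0 := by
    obtain ⟨v, hv⟩ : ∃ v : Fin (n + 1) → ℂ, MvPolynomial.eval v f ≠ 0 := ⟨x₀.1, x₀.2⟩
    intro h
    exact hv (by rw [h, map_zero])
  obtain ⟨L, φ, hφ, hu⟩ := exists_shear f hf0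
  obtain ⟨ι, hι, P, hm, hirr, hinj, hdvd, hz, hass⟩ := exists_family (φ f) hu
  have hmeet : ∀ i, ∃ j, i ≠ j ∧ ∃ q, ev (P i) q = 0 ∧ ev (P j) q = 0 := by
    intro i
    have h1 : Irreducible (φ.symm (P i)) := (MulEquiv.irreducible_iff φ.symm).2 (hirr i)
    have h2 : φ.symm (P i) ∣ f := by
      have h3 := map_dvd φ.symm (hdvd i)
      rwa [AlgEquiv.symm_apply_apply] at h3
    obtain ⟨q, hq, hqf, hnot, z, hz1, hz2⟩ := hf _ h1 h2
    obtain ⟨j, hj⟩ := hass (φ q) ((MulEquiv.irreducible_iff φ).2 hq) (map_dvd φ hqf)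
    refine ⟨j, ?_, L z, ?_, ?_⟩
    · rintro rfl
      apply hnot
      have h4 := hj.map φ.symm
      rw [AlgEquiv.symm_apply_apply] at h4
      exact h4.symm
    · rw [← hφ, AlgEquiv.apply_symm_apply] at hz1
      exact hz1
    · rw [← hφ] at hz2
      exact c23_assoc hj hz2
  have key : ∀ v : Fin (n + 1) → ℂ, (∃ i, ev (P i) (L v) = 0) ↔ MvPolynomial.eval v f = 0 := by
    intro v
    rw [← hz, hφ]
  have hiff : ∀ v : Fin (n + 1) → ℂ, MvPolynomial.eval v f ≠ 0 ↔ L v ∈ NX P := by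
    intro v
    rw [← not_iff_not, not_not, ← key v]
    change _ ↔ ¬ ∀ i, ev (P i) (L v) ≠ 0
    push Not
    rfl
  obtain ⟨G, hG⟩ : ∃ G : Set ι → MvPolynomial (Fin (n + 1)) ℂ, ∀ (T : Set ι) (v : Fin (n + 1) → ℂ),
      MvPolynomial.eval v (G T) = 0 ↔ ∃ i, i ∉ T ∧ ev (P i) (L v) = 0 := by
    refine ⟨fun T => φ.symm (∏ i ∈ Finset.univ.filter (fun i => i ∉ T), P i), fun T v => ?_⟩
    rw [← hφ, AlgEquiv.apply_symm_apply, c23_prod, Finset.prod_eq_zero_iff]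
    constructor
    · rintro ⟨i, hi, h⟩
      exact ⟨i, (Finset.mem_filter.1 hi).2, h⟩
    · rintro ⟨i, hi, h⟩
      exact ⟨i, Finset.mem_filter.2 ⟨Finset.mem_univ i, hi⟩, h⟩
  have hiffT : ∀ (T : Set ι) (v : Fin (n + 1) → ℂ), MvPolynomial.eval v (G T) ≠ 0 ↔ L v ∈ NT P T := by
    intro T v
    rw [← not_iff_not, not_not, hG]
    change _ ↔ ¬ ∀ i, i ∉ T → ev (P i) (L v) ≠ 0
    push Not
    rfl
  obtain ⟨g⟩ := c23_pi (L.subtype hiff) (x := x₀) rfl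
  obtain ⟨T, hT, ⟨eA⟩, ⟨eB⟩⟩ := main3 P hm hirr hinj hmeet _ A B (g.symm.trans e)
  refine ⟨G T, G Tᶜ, ?_, ?_, ?_, ?_⟩
  · intro z
    rw [← key, hG, hG]
    constructor
    · rintro ⟨i, hi⟩
      by_cases h : i ∈ T
      · exact Or.inr ⟨i, fun h1 => h1 h, hi⟩
      · exact Or.inl ⟨i, h, hi⟩
    · rintro (⟨i, _, h⟩ | ⟨i, _, h⟩)
      · exact ⟨i, h⟩
      · exact ⟨i, h⟩
  · intro z hzz
    rw [hG, hG] at hzz
    obtain ⟨⟨j, hj, hj0⟩, ⟨i, hi, hi0⟩⟩ := hzz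
    have hi' : i ∈ T := by
      by_contra h
      exact hi h
    exact hT i hi' j hj _ ⟨hi0, hj0⟩
  · have h1 : MvPolynomial.eval x₀.1 (G T) ≠ 0 := (hiffT T x₀.1).2 fun i _ => (hiff x₀.1).1 x₀.2 i
    obtain ⟨k⟩ := c23_pi (L.subtype (hiffT T)) (x := ⟨x₀.1, h1⟩)
      (y := inclT P T ((L.subtype hiff) x₀)) rfl
    exact ⟨⟨x₀.1, h1⟩, ⟨k.trans eA⟩⟩
  · have h1 : MvPolynomial.eval x₀.1 (G Tᶜ) ≠ 0 := (hiffT Tᶜ x₀.1).2 fun i _ => (hiff x₀.1).1 x₀.2 i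
    obtain ⟨k⟩ := c23_pi (L.subtype (hiffT Tᶜ)) (x := ⟨x₀.1, h1⟩)
      (y := inclT P Tᶜ ((L.subtype hiff) x₀)) rfl
    exact ⟨⟨x₀.1, h1⟩, ⟨k.trans eB⟩⟩

end H13M
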