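import Pool.Agent.Lib.H13M.D
import Pool.Agent.Lib.H13K.K20

set_option autoImplicit false

open scoped unitInterval Polynomial

namespace H13M

open H13K

variable {n : ℕ} {ι : Type}

private theorem c24_triv (g : MvPolynomial (Fin (n + 1)) ℂ)
    (hg : ∀ z, MvPolynomial.eval z g ≠ 0) (A : Type) [Group A]
    (hA : ∃ x₁ : {z : Fin (n + 1) → ℂ // MvPolynomial.eval z g ≠ 0}, Nonempty
        (FundamentalGroup {z : Fin (n + 1) → ℂ // MvPolynomial.eval z g ≠ 0} x₁ ≃* A)) :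
    Subsingleton A := by
  obtain ⟨x, ⟨e⟩⟩ := hA
  have hS : ({z : Fin (n + 1) → ℂ | MvPolynomial.eval z g ≠ 0} : Set (Fin (n + 1) → ℂ)) =
      Set.univ := by
    ext z
    simp [hg z]
  have hc0 : ContractibleSpace
      ({z : Fin (n + 1) → ℂ | MvPolynomial.eval z g ≠ 0} : Set (Fin (n + 1) → ℂ)) := by
    rw [hS]
    exact (convex_univ (𝕜 := ℝ)).contractibleSpace ⟨0, trivial⟩
  have hc : ContractibleSpace {z : Fin (n + 1) → ℂ // MvPolynomial.eval z g ≠ 0} := hc0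
  have hsub : ∀ a b : FundamentalGroup {z : Fin (n + 1) → ℂ // MvPolynomial.eval z g ≠ 0} x,
      a = b := by
    intro a b
    have h1 : FundamentalGroup.toPath a = FundamentalGroup.toPath b := Subsingleton.elim _ _
    exact h1
  refine ⟨fun a b => ?_⟩
  have h2 := hsub (e.symm a) (e.symm b)
  exact e.symm.injective h2

/-- If the zero set is connected and is the disjoint union of the zero sets of f₁ and f₂, one of them is
empty, and the complement of an empty zero set is simply connected (ℂ ^ (n + 1) is contractible). -/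
theorem conn_case (f f₁ f₂ : MvPolynomial (Fin (n + 1)) ℂ)
    (h1 : ∀ z, MvPolynomial.eval z f = 0 ↔
      MvPolynomial.eval z f₁ = 0 ∨ MvPolynomial.eval z f₂ = 0)
    (h2 : ∀ z, ¬ (MvPolynomial.eval z f₁ = 0 ∧ MvPolynomial.eval z f₂ = 0))
    (hconn : IsPreconnected {z : Fin (n + 1) → ℂ | MvPolynomial.eval z f = 0})
    (A B : Type) [Group A] [Group B]
    (hA : ∃ x₁ : {z : Fin (n + 1) → ℂ // MvPolynomial.eval z f₁ ≠ 0}, Nonempty
        (FundamentalGroup {z : Fin (n + 1) → ℂ // MvPolynomial.eval z f₁ ≠ 0} x₁ ≃* A))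
    (hB : ∃ x₂ : {z : Fin (n + 1) → ℂ // MvPolynomial.eval z f₂ ≠ 0}, Nonempty
        (FundamentalGroup {z : Fin (n + 1) → ℂ // MvPolynomial.eval z f₂ ≠ 0} x₂ ≃* B)) :
    Subsingleton A ∨ Subsingleton B := by
  by_cases hf1 : ∀ z, MvPolynomial.eval z f₁ ≠ 0
  · exact Or.inl (c24_triv f₁ hf1 A hA)
  by_cases hf2 : ∀ z, MvPolynomial.eval z f₂ ≠ 0
  · exact Or.inr (c24_triv f₂ hf2 B hB)
  exfalso
  push Not at hf1 hf2
  obtain ⟨p, hp⟩ := hf1
  obtain ⟨q, hq⟩ := hf2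
  have hcl : ∀ g : MvPolynomial (Fin (n + 1)) ℂ,
      IsClosed {z : Fin (n + 1) → ℂ | MvPolynomial.eval z g = 0} := fun g =>
    isClosed_eq (MvPolynomial.continuous_eval g) continuous_const
  obtain ⟨s, -, hs1, hs2⟩ := isPreconnected_closed_iff.1 hconn _ _ (hcl f₁) (hcl f₂)
    (fun z hz => (h1 z).1 hz) ⟨p, (h1 p).2 (Or.inl hp), hp⟩ ⟨q, (h1 q).2 (Or.inr hq), hq⟩
  exact h2 s ⟨hs1, hs2⟩

end H13M
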