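import Mathlib
import Pool.Agent.Lib.H13K.Defs2

set_option autoImplicit false

open scoped unitInterval Polynomial

namespace H13M

open H13K

variable {n : ℕ} {ι : Type}

/-- The value of a polynomial in `w` with coefficients in `ℂ[z_1, .., z_n]` at a point `(z, w)`. -/
noncomputable def ev (p : (MvPolynomial (Fin n) ℂ)[X]) (q : (Fin n → ℂ) × ℂ) : ℂ :=
  (p.map (MvPolynomial.eval q.1)).eval q.2

theorem ev_mul (p p' : (MvPolynomial (Fin n) ℂ)[X]) (q : (Fin n → ℂ) × ℂ) :
    ev (p * p') q = ev p q * ev p' q := by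
  simp [ev]

theorem ev_eq_sum (p : (MvPolynomial (Fin n) ℂ)[X]) (q : (Fin n → ℂ) × ℂ) :
    ev p q = ∑ k ∈ Finset.range (p.natDegree + 1),
      MvPolynomial.eval q.1 (p.coeff k) * q.2 ^ k := by
  have h : (p.map (MvPolynomial.eval q.1)).natDegree < p.natDegree + 1 :=
    Nat.lt_succ_of_le Polynomial.natDegree_map_le
  rw [ev, Polynomial.eval_eq_sum_range' h]
  simp [Polynomial.coeff_map]

theorem continuous_ev (p : (MvPolynomial (Fin n) ℂ)[X]) : Continuous (ev p) := by
  have h : ev p = fun q : (Fin n → ℂ) × ℂ => ∑ k ∈ Finset.range (p.natDegree + 1),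
      MvPolynomial.eval q.1 (p.coeff k) * q.2 ^ k := by
    funext q
    exact ev_eq_sum p q
  rw [h]
  apply continuous_finsetSum
  intro k _
  exact ((MvPolynomial.continuous_eval (p.coeff k)).comp continuous_fst).mul
    (continuous_snd.pow k)

/-- The complement of the hypersurfaces `P i = 0`. -/
def NX (P : ι → (MvPolynomial (Fin n) ℂ)[X]) : Set ((Fin n → ℂ) × ℂ) := {q | ∀ i, ev (P i) q ≠ 0}

/-- The complement of the hypersurfaces outside of `T` (those in `T` are filled in). -/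
def NT (P : ι → (MvPolynomial (Fin n) ℂ)[X]) (T : Set ι) : Set ((Fin n → ℂ) × ℂ) :=
  {q | ∀ i, i ∉ T → ev (P i) q ≠ 0}

/-- The complement together with all points over `r ≠ 0`. -/
def NY (P : ι → (MvPolynomial (Fin n) ℂ)[X]) (r : MvPolynomial (Fin n) ℂ) :
    Set ((Fin n → ℂ) × ℂ) :=
  {q | (∀ i, ev (P i) q ≠ 0) ∨ MvPolynomial.eval q.1 r ≠ 0}

/-- `p` has only simple roots over the points where `r` does not vanish. -/
def Simple (p : (MvPolynomial (Fin n) ℂ)[X]) (r : MvPolynomial (Fin n) ℂ) : Prop :=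
  ∀ q : (Fin n → ℂ) × ℂ, MvPolynomial.eval q.1 r ≠ 0 → ev p q = 0 →
    ev (Polynomial.derivative p) q ≠ 0

/-- `r` is a discriminant of the family `P`. -/
structure Disc (P : ι → (MvPolynomial (Fin n) ℂ)[X]) (r : MvPolynomial (Fin n) ℂ) : Prop where
  ne : r ≠ 0
  simple : ∀ i, Simple (P i) r
  disj : ∀ (i j : ι) (q : (Fin n → ℂ) × ℂ), i ≠ j → MvPolynomial.eval q.1 r ≠ 0 →
    ev (P i) q = 0 → ev (P j) q ≠ 0

/-- The hypersurface `p = 0` over the points where `r` does not vanish. -/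
def CS (p : (MvPolynomial (Fin n) ℂ)[X]) (r : MvPolynomial (Fin n) ℂ) :
    Set ((Fin n → ℂ) × ℂ) :=
  {q | MvPolynomial.eval q.1 r ≠ 0 ∧ ev p q = 0}

/-- Admissible data of a meridian around the point `(z, u)`. -/
def Adm (P : ι → (MvPolynomial (Fin n) ℂ)[X]) (z : Fin n → ℂ) (u a : ℂ) : Prop :=
  a ≠ 0 ∧ ∀ b : ℂ, b ≠ 0 → ‖b‖ ≤ ‖a‖ → ∀ i, ev (P i) (z, u + b) ≠ 0

theorem Adm.mem {P : ι → (MvPolynomial (Fin n) ℂ)[X]} {z : Fin n → ℂ} {u a : ℂ}
    (h : Adm P z u a) (b : ℂ) (hb : ‖b‖ = 1) : (z, u + a * b) ∈ NX P := by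
  intro i
  apply h.2 (a * b)
  · intro h0
    rcases mul_eq_zero.1 h0 with h1 | h1
    · exact h.1 h1
    · rw [h1] at hb
      simp at hb
  · rw [norm_mul, hb, mul_one]

/-- The base point of a meridian. -/
noncomputable def mbase (P : ι → (MvPolynomial (Fin n) ℂ)[X]) (z : Fin n → ℂ) (u a : ℂ)
    (h : Adm P z u a) : NX P :=
  ⟨(z, u + a), by simpa using h.mem 1 (by simp)⟩

/-- The meridian around `(z, u)` that starts at `(z, u + a)`. -/
noncomputable def mer (P : ι → (MvPolynomial (Fin n) ℂ)[X]) (z : Fin n → ℂ) (u a : ℂ)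
    (h : Adm P z u a) : Path (mbase P z u a h) (mbase P z u a h) where
  toFun t := ⟨(z, u + a * Complex.exp (2 * Real.pi * (t : ℝ) * Complex.I)),
    h.mem _ (norm_circ t)⟩
  continuous_toFun := by
    apply Continuous.subtype_mk
    fun_prop
  source' := by
    apply Subtype.ext
    simp [mbase]
  target' := by
    apply Subtype.ext
    simp [mbase, Complex.exp_two_pi_mul_I]

/-- The functional kills the meridians of the hypersurfaces in `T` over `r ≠ 0`. -/
def Kills {P : ι → (MvPolynomial (Fin n) ℂ)[X]} (T : Set ι) (r : MvPolynomial (Fin n) ℂ)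
    {H : Type} [Group H] (Φ : PF (NX P) H) : Prop :=
  ∀ i ∈ T, ∀ (z : Fin n → ℂ) (u a : ℂ) (h : Adm P z u a), MvPolynomial.eval z r ≠ 0 →
    ev (P i) (z, u) = 0 → Φ.val (mer P z u a h) = 1

/-- The inclusion of the complement of all hypersurfaces into `NT`. -/
def inclT (P : ι → (MvPolynomial (Fin n) ℂ)[X]) (T : Set ι) : C(NX P, NT P T) where
  toFun x := ⟨x.1, fun i _ => x.2 i⟩
  continuous_toFun := by
    apply Continuous.subtype_mk
    fun_prop

/-- The inclusion of a part of the complement. -/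
def inclW (P : ι → (MvPolynomial (Fin n) ℂ)[X]) (W : Set ((Fin n → ℂ) × ℂ)) :
    C(↥(W ∩ NX P), NX P) where
  toFun x := ⟨x.1, x.2.2⟩
  continuous_toFun := by
    apply Continuous.subtype_mk
    fun_prop

/-- The inclusion inside a part `W`. -/
def inclWY (P : ι → (MvPolynomial (Fin n) ℂ)[X]) (r : MvPolynomial (Fin n) ℂ)
    (W : Set ((Fin n → ℂ) × ℂ)) : C(↥(W ∩ NX P), ↥(W ∩ NY P r)) where
  toFun x := ⟨x.1, x.2.1, Or.inl x.2.2⟩
  continuous_toFun := by
    apply Continuous.subtype_mk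
    fun_prop

/-- The monic polynomial whose roots are the roots `u` of `p (z, .)` with `(z, u)` in `V`. -/
noncomputable def qV (V : Set ((Fin n → ℂ) × ℂ)) (p : (MvPolynomial (Fin n) ℂ)[X])
    (z : Fin n → ℂ) : ℂ[X] :=
  open scoped Classical in
  ∏ u ∈ (p.map (MvPolynomial.eval z)).roots.toFinset.filter (fun u => (z, u) ∈ V),
    (Polynomial.X - Polynomial.C u)

end H13M
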