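import Pool.Agent.Lib.H13M.D

set_option autoImplicit false

open scoped unitInterval Polynomial

namespace H13M

open H13K

variable {n : ℕ} {ι : Type}

private theorem e1_card (P : ℂ[X]) (hP : P ≠ 0)
    (hs : ∀ w, P.eval w = 0 → (Polynomial.derivative P).eval w ≠ 0) :
    P.roots.toFinset.card = P.natDegree := by
  classical
  have hnd : P.roots.Nodup := by
    rw [Multiset.nodup_iff_count_le_one]
    intro a
    rw [Polynomial.count_roots]
    by_contra hcon
    push Not at hcon
    have h1 := (Polynomial.one_lt_rootMultiplicity_iff_isRoot hP).1 hcon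
    exact hs a h1.1 h1.2
  rw [Multiset.toFinset_card_of_nodup hnd]
  exact IsAlgClosed.card_roots_eq_natDegree

/-- A polynomial that is constant on the hypersurface is congruent to the constant.
Proof: t = (q - c) %ₘ p has degree < natDegree p; for r(z) ≠ 0 the polynomial t(z, .) vanishes at the
natDegree p different (simple) roots of p(z, .), so it is 0; so the coefficients of t vanish where
r ≠ 0, t = 0 (infinite field). -/
theorem dvd_of_const (p q : (MvPolynomial (Fin n) ℂ)[X]) (hp : p.Monic)
    (r : MvPolynomial (Fin n) ℂ) (hr : r ≠ 0) (hs : Simple p r) (c : ℂ)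
    (h : ∀ x ∈ CS p r, ev q x = c) : p ∣ q - Polynomial.C (MvPolynomial.C c) := by
  classical
  by_cases hp1 : p = 1
  · rw [hp1]
    exact one_dvd _
  set s : (MvPolynomial (Fin n) ℂ)[X] := q - Polynomial.C (MvPolynomial.C c) with hsdef
  set t : (MvPolynomial (Fin n) ℂ)[X] := s %ₘ p with ht
  have hdeg : t.natDegree < p.natDegree := Polynomial.natDegree_modByMonic_lt s hp hp1
  have hdecomp : s = t + p * (s /ₘ p) := (Polynomial.modByMonic_add_div s p).symm
  have hz : ∀ z : Fin n → ℂ, MvPolynomial.eval z r ≠ 0 → t.map (MvPolynomial.eval z) = 0 := by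
    intro z hrz
    have hmon : (p.map (MvPolynomial.eval z)).Monic := hp.map _
    have hcard : (p.map (MvPolynomial.eval z)).roots.toFinset.card = p.natDegree := by
      rw [e1_card _ hmon.ne_zero, hp.natDegree_map]
      intro w hw
      have h1 := hs (z, w) hrz hw
      unfold ev at h1
      rwa [← Polynomial.derivative_map] at h1
    refine Polynomial.eq_zero_of_natDegree_lt_card_of_eval_eq_zero' _
      (p.map (MvPolynomial.eval z)).roots.toFinset ?_ ?_
    · intro w hw
      rw [Multiset.mem_toFinset, Polynomial.mem_roots hmon.ne_zero, Polynomial.IsRoot.def] at hw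
      have h1 : ev q (z, w) = c := h (z, w) ⟨hrz, hw⟩
      have h2 : (s.map (MvPolynomial.eval z)).eval w = 0 := by
        rw [hsdef, Polynomial.map_sub, Polynomial.eval_sub, Polynomial.map_C, Polynomial.eval_C,
          MvPolynomial.eval_C]
        have h3 : (q.map (MvPolynomial.eval z)).eval w = c := h1
        rw [h3, sub_self]
      rw [hdecomp, Polynomial.map_add, Polynomial.eval_add, Polynomial.map_mul,
        Polynomial.eval_mul, hw, zero_mul, add_zero] at h2
      exact h2
    · rw [hcard]
      exact lt_of_le_of_lt Polynomial.natDegree_map_le hdeg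
  have ht0 : t = 0 := by
    refine Polynomial.ext fun k => ?_
    rw [Polynomial.coeff_zero]
    have h1 : t.coeff k * r = 0 := by
      refine MvPolynomial.funext fun z => ?_
      rw [map_mul, map_zero]
      by_cases hrz : MvPolynomial.eval z r = 0
      · rw [hrz, mul_zero]
      · have h2 := congrArg (fun P : ℂ[X] => P.coeff k) (hz z hrz)
        simp only [Polynomial.coeff_map, Polynomial.coeff_zero] at h2
        rw [h2, zero_mul]
    exact (mul_eq_zero.1 h1).resolve_right hr
  exact (Polynomial.modByMonic_eq_zero_iff_dvd hp).1 ht0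

end H13M
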