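import Mathlib

set_option autoImplicit false

namespace H13M

private theorem e10_null {N : ℕ} {p q : MvPolynomial (Fin N) ℂ} (hp : Irreducible p)
    (h : ∀ y : Fin N → ℂ, MvPolynomial.eval y p = 0 → MvPolynomial.eval y q = 0) : p ∣ q := by
  have hpr : Prime p := hp.prime
  have hI : (Ideal.span {p} : Ideal (MvPolynomial (Fin N) ℂ)).IsPrime :=
    (Ideal.span_singleton_prime hpr.ne_zero).2 hpr
  have h1 : q ∈ MvPolynomial.vanishingIdeal ℂ (MvPolynomial.zeroLocus ℂ (Ideal.span {p})) := by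
    rw [MvPolynomial.mem_vanishingIdeal_iff]
    intro y hy
    rw [MvPolynomial.mem_zeroLocus_iff] at hy
    have h2 := hy p (Ideal.subset_span rfl)
    rw [MvPolynomial.aeval_eq_eval] at h2 ⊢
    exact h y h2
  rw [MvPolynomial.IsPrime.vanishingIdeal_zeroLocus] at h1
  exact Ideal.mem_span_singleton.1 h1

private theorem e10_zero {N : ℕ} {p : MvPolynomial (Fin N) ℂ} (hp : Irreducible p) :
    ∃ y : Fin N → ℂ, MvPolynomial.eval y p = 0 := by
  by_contra hcon
  push Not at hcon
  have h1 : p ∣ 1 := e10_null hp (fun y hy => absurd hy (hcon y))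
  exact hp.not_isUnit (isUnit_of_dvd_one h1)

/-- The hypothesis of `final4` holds if the zero set is connected and f has two irreducible factors that
are not associated.
Proof: p irreducible factor of f; q₀ an irreducible factor not associated to p (one of the two given
ones).  V(f) is the union of the closed sets V(p) and V' = the union of the V(q), q irreducible factor
of f not associated to p (finitely many up to units: V' = V(g), g the product of representatives, or
f = p ^ k * g with p not dividing g).  Both are nonempty (an irreducible polynomial is no unit and has a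
zero, Nullstellensatz), V(f) is preconnected, so they meet: x with p x = 0, q x = 0.  p does not divide
q, so by the Nullstellensatz (`MvPolynomial.vanishingIdeal_zeroLocus_eq_radical`, (p) is prime) there is
y with p y = 0, q y ≠ 0. -/
theorem conn_hyp {N : ℕ} (f : MvPolynomial (Fin N) ℂ) (hne : f ≠ 0)
    (hred : ∃ p q : MvPolynomial (Fin N) ℂ, Irreducible p ∧ Irreducible q ∧ ¬ Associated p q ∧
      p ∣ f ∧ q ∣ f)
    (hconn : IsPreconnected {z : Fin N → ℂ | MvPolynomial.eval z f = 0}) :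
    ∀ p : MvPolynomial (Fin N) ℂ, Irreducible p → p ∣ f →
      ∃ q : MvPolynomial (Fin N) ℂ, Irreducible q ∧ q ∣ f ∧
        ∃ x y, MvPolynomial.eval x p = 0 ∧ MvPolynomial.eval y p = 0 ∧
          MvPolynomial.eval x q ≠ MvPolynomial.eval y q := by
  intro p hp hpf
  obtain ⟨q₀, hq₀, hq₀f, hq₀p⟩ : ∃ q₀ : MvPolynomial (Fin N) ℂ, Irreducible q₀ ∧ q₀ ∣ f ∧
      ¬ Associated q₀ p := by
    obtain ⟨p1, q1, hp1, hq1, hn, hpf1, hqf1⟩ := hred
    by_cases hA : Associated p1 p
    · exact ⟨q1, hq1, hqf1, fun hB => hn (hA.trans hB.symm)⟩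
    · exact ⟨p1, hp1, hpf1, hA⟩
  obtain ⟨k, g, hpg, hfg⟩ := WfDvdMonoid.max_power_factor hne hp
  have hg0 : g ≠ 0 := by rintro rfl; exact hpg (dvd_zero p)
  have hgf : g ∣ f := hfg ▸ Dvd.intro_left _ rfl
  have hqg : q₀ ∣ g := by
    rw [hfg] at hq₀f
    rcases hq₀.prime.dvd_or_dvd hq₀f with h1 | h1
    · have h2 : q₀ ∣ p := hq₀.prime.dvd_of_dvd_pow h1
      exact absurd (hq₀.associated_of_dvd hp h2) hq₀p
    · exact h1
  have hcont : ∀ r : MvPolynomial (Fin N) ℂ,
      IsClosed {z : Fin N → ℂ | MvPolynomial.eval z r = 0} := fun r =>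
    isClosed_eq (MvPolynomial.continuous_eval r) continuous_const
  obtain ⟨y1, hy1⟩ := e10_zero hp
  obtain ⟨y2, hy2⟩ := e10_zero hq₀
  have hdv : ∀ (r s : MvPolynomial (Fin N) ℂ) (z : Fin N → ℂ), r ∣ s →
      MvPolynomial.eval z r = 0 → MvPolynomial.eval z s = 0 := by
    rintro r s z ⟨c, rfl⟩ hz
    rw [map_mul, hz, zero_mul]
  have hy2g : MvPolynomial.eval y2 g = 0 := hdv _ _ _ hqg hy2
  obtain ⟨x, hxf, hxp, hxg⟩ := isPreconnected_closed_iff.1 hconn
    {z | MvPolynomial.eval z p = 0} {z | MvPolynomial.eval z g = 0} (hcont p) (hcont g)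
    (by
      intro z hz
      have hz' : MvPolynomial.eval z f = 0 := hz
      rw [hfg, map_mul, map_pow, mul_eq_zero] at hz'
      rcases hz' with h1 | h1
      · exact Or.inl (eq_zero_of_pow_eq_zero h1)
      · exact Or.inr h1)
    ⟨y1, hdv _ _ _ hpf hy1, hy1⟩ ⟨y2, hdv _ _ _ hgf hy2g, hy2g⟩
  have hxp' : MvPolynomial.eval x p = 0 := hxp
  have hxg' : MvPolynomial.eval x g = 0 := hxg
  obtain ⟨S, hS, hSg⟩ := WfDvdMonoid.exists_factors g hg0
  have h3 : MvPolynomial.eval x S.prod = 0 := hdv _ _ _ hSg.symm.dvd hxg'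
  rw [map_multiset_prod, Multiset.prod_eq_zero_iff, Multiset.mem_map] at h3
  obtain ⟨q, hqS, hxq⟩ := h3
  have hqg' : q ∣ g := (Multiset.dvd_prod hqS).trans hSg.dvd
  refine ⟨q, hS q hqS, hqg'.trans hgf, ?_⟩
  by_contra hcon
  push Not at hcon
  refine hpg ((e10_null hp fun y hy => ?_).trans hqg')
  rw [← hcon x y hxp' hy, hxq]

end H13M
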