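import Pool.Agent.Lib.H13M.D
import Pool.Agent.Lib.H13M.C13
import Pool.Agent.Lib.H13K.T2

set_option autoImplicit false

open scoped unitInterval Polynomial

namespace H13M

open H13K

variable {n : ℕ} {ι : Type}

/-- Lift of the image of a path through the exponential map. -/
private theorem e2_lift {X : Type} [TopologicalSpace X] (f : C(X, ℂ)) (hf : ∀ x, f x ≠ 0)
    {x y : X} (p : Path x y) : ∃ ℓ : C(I, ℂ), ∀ t, Complex.exp (ℓ t) = f (p t) := by
  have hcov : IsCoveringMap (fun z : ℂ => (⟨_, z.exp_ne_zero⟩ : {z : ℂ // z ≠ 0})) :=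
    Complex.isCoveringMap_exp
  let F : C(X, {z : ℂ // z ≠ 0}) := ⟨fun x => ⟨f x, hf x⟩, Continuous.subtype_mk f.continuous _⟩
  have h0 : (p.map F.continuous).toContinuousMap 0 =
      (⟨_, (Complex.log (f x)).exp_ne_zero⟩ : {z : ℂ // z ≠ 0}) := by
    refine Subtype.ext ?_
    simp [F, Complex.exp_log (hf x)]
  refine ⟨hcov.liftPath (p.map F.continuous).toContinuousMap (Complex.log (f x)) h0, ?_⟩
  intro t
  have h := hcov.liftPath_lifts (p.map F.continuous).toContinuousMap (Complex.log (f x)) h0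
  exact congrArg Subtype.val (congrFun h t)

/-- A nowhere vanishing function without winding on a locally path connected and path connected
space has a continuous logarithm. -/
private theorem e2_log {X : Type} [TopologicalSpace X] [PathConnectedSpace X] (f : C(X, ℂ))
    (hf : ∀ x, f x ≠ 0)
    (hl : ∀ (x : X) (U : Set X), IsOpen U → x ∈ U →
      ∃ O : Set X, IsOpen O ∧ x ∈ O ∧ ∀ y ∈ O, JoinedIn U x y)
    (hw : ∀ (x : X) (p : Path x x) (ℓ : C(I, ℂ)), (∀ t, Complex.exp (ℓ t) = f (p t)) → ℓ 1 = ℓ 0) :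
    ∃ g : X → ℂ, Continuous g ∧ ∀ x, Complex.exp (g x) = f x := by
  obtain ⟨L, hL⟩ := exists_log f hf
  have hloop : ∀ (x : X) (p : Path x x), L.val p = 1 := by
    intro x p
    obtain ⟨ℓ, hℓ⟩ := e2_lift f hf p
    have h1 := hL p ℓ hℓ
    rw [hw x p ℓ hℓ, sub_self] at h1
    exact h1
  have hpath : ∀ {x y : X} (p q : Path x y), L.val p = L.val q := by
    intro x y p q
    have h1 := hloop x (p.trans q.symm)
    rw [L.trans, L.val_symm] at h1
    have h2 := mul_eq_one_iff_eq_inv.1 h1
    exact (inv_injective h2).symm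
  obtain ⟨x₀⟩ := (inferInstance : Nonempty X)
  set γ : ∀ x, Path x₀ x := fun x => PathConnectedSpace.somePath x₀ x with hγ
  set g : X → ℂ := fun x => Complex.log (f x₀) + (L.val (γ x)).toAdd with hg
  have key : ∀ {x y : X} (δ : Path x y), g y = g x + (L.val δ).toAdd := by
    intro x y δ
    have h1 := hpath (γ y) ((γ x).trans δ)
    rw [L.trans] at h1
    simp only [hg]
    rw [h1, toAdd_mul]
    ring
  have hexp : ∀ x, Complex.exp (g x) = f x := by
    intro x
    obtain ⟨ℓ, hℓ⟩ := e2_lift f hf (γ x)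
    have h1 := hL (γ x) ℓ hℓ
    have h2 := hℓ 0
    have h3 := hℓ 1
    rw [(γ x).source] at h2
    rw [(γ x).target] at h3
    simp only [hg]
    rw [h1, Complex.exp_add, Complex.exp_log (hf x₀), Complex.exp_sub, h2, h3]
    field_simp [hf x₀]
  refine ⟨g, ?_, hexp⟩
  rw [continuous_iff_continuousAt]
  intro x
  -- the neighbourhood where the quotient is near one
  set U : Set X := {y | f y / f x ∈ Metric.ball (1 : ℂ) 1} with hU
  have hUo : IsOpen U := by
    have hc : Continuous fun y => f y / f x := by fun_prop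
    exact Metric.isOpen_ball.preimage hc
  have hxU : x ∈ U := by
    simp only [hU, Set.mem_ofPred_eq, div_self (hf x)]
    exact Metric.mem_ball_self one_pos
  have hslit : ∀ y ∈ U, f y / f x ∈ Complex.slitPlane := by
    intro y hy
    exact Complex.ball_one_subset_slitPlane hy
  obtain ⟨O, hO, hxO, hJ⟩ := hl x U hUo hxU
  have hform : ∀ y ∈ O, g y = g x + Complex.log (f y / f x) := by
    intro y hy
    obtain ⟨δ, hδ⟩ := hJ y hy
    have hcont : Continuous fun t : I => g x + Complex.log (f (δ t) / f x) := by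
      apply continuous_const.add
      apply Continuous.clog
      · have := δ.continuous
        fun_prop
      · intro t
        exact hslit _ (hδ t)
    have h1 := hL δ ⟨_, hcont⟩ (by
      intro t
      simp only [ContinuousMap.coe_mk]
      rw [Complex.exp_add, hexp x, Complex.exp_log (div_ne_zero (hf _) (hf x))]
      field_simp [hf x])
    rw [key δ, h1]
    simp only [ContinuousMap.coe_mk, δ.source, δ.target, div_self (hf x), Complex.log_one]
    ring
  have h2 : ContinuousAt (fun y => g x + Complex.log (f y / f x)) x := by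
    apply continuousAt_const.add
    apply ContinuousAt.clog
    · have hc : Continuous fun y => f y / f x := by fun_prop
      exact hc.continuousAt
    · exact hslit x hxU
  apply h2.congr
  filter_upwards [hO.mem_nhds hxO] with y hy
  exact (hform y hy).symm

/-- The hypersurface is locally path connected over the points where `r` does not vanish. -/
private theorem e2_near (p : (MvPolynomial (Fin n) ℂ)[X]) (hp : p.Monic)
    (r : MvPolynomial (Fin n) ℂ) (hs : Simple p r) (x : (Fin n → ℂ) × ℂ)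
    (hx : x ∈ CS p r) (U : Set ((Fin n → ℂ) × ℂ)) (hU : IsOpen U) (hxU : x ∈ U) :
    ∃ O : Set ((Fin n → ℂ) × ℂ), IsOpen O ∧ x ∈ O ∧
      ∀ y ∈ O ∩ CS p r, JoinedIn (CS p r ∩ U) x y := by
  classical
  obtain ⟨z₀, w₀⟩ := x
  obtain ⟨hx1, hx2⟩ := hx
  simp only at hx1 hx2
  obtain ⟨ρ, hρ, hr', h, h1, h2, h3⟩ := c13_roots p hp r hs z₀ hx1
  have hz0 : z₀ ∈ Metric.ball z₀ ρ := Metric.mem_ball_self hρ
  obtain ⟨a₀, ha₀⟩ := (c13_ev_zero (h3 z₀ hz0) w₀).1 hx2
  have hca : ∀ a, ContinuousAt (h a) z₀ := fun a =>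
    ((h1 a).continuousOn).continuousAt (Metric.isOpen_ball.mem_nhds hz0)
  -- separation
  have hsep : ∃ δ : ℝ, 0 < δ ∧ ∀ a, a ≠ a₀ → 2 * δ ≤ ‖h a z₀ - h a₀ z₀‖ := by
    have hfin : ∀ s : Finset (Fin p.natDegree), ∃ δ : ℝ, 0 < δ ∧
        ∀ a ∈ s, a ≠ a₀ → 2 * δ ≤ ‖h a z₀ - h a₀ z₀‖ := by
      intro s
      induction s using Finset.induction_on with
      | empty => exact ⟨1, one_pos, by simp⟩
      | insert b s hb ih =>
        obtain ⟨δ, hδ, hd⟩ := ih
        by_cases hba : b = a₀
        · refine ⟨δ, hδ, ?_⟩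
          intro a ha hne
          rcases Finset.mem_insert.1 ha with rfl | ha
          · exact absurd hba hne
          · exact hd a ha hne
        · have hpos : 0 < ‖h b z₀ - h a₀ z₀‖ := by
            rw [norm_pos_iff, sub_ne_zero]
            intro he
            exact hba (h2 z₀ hz0 he)
          refine ⟨min δ (‖h b z₀ - h a₀ z₀‖ / 2), lt_min hδ (by linarith), ?_⟩
          intro a ha hne
          rcases Finset.mem_insert.1 ha with rfl | ha
          · have := min_le_right δ (‖h a z₀ - h a₀ z₀‖ / 2)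
            linarith
          · have h5 := min_le_left δ (‖h b z₀ - h a₀ z₀‖ / 2)
            have h6 := hd a ha hne
            linarith
    obtain ⟨δ, hδ, hd⟩ := hfin Finset.univ
    exact ⟨δ, hδ, fun a ha => hd a (Finset.mem_univ a) ha⟩
  obtain ⟨δ, hδ, hsep⟩ := hsep
  -- a small ball where the roots do not move much and the sheet stays in `U`
  have hev1 : ∀ᶠ z in nhds z₀, ∀ a, ‖h a z - h a z₀‖ < δ := by
    rw [Filter.eventually_all]
    intro a
    have := Metric.tendsto_nhds.1 (hca a) δ hδ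
    filter_upwards [this] with z hz'
    rwa [dist_eq_norm] at hz'
  have hev2 : ∀ᶠ z in nhds z₀, (z, h a₀ z) ∈ U := by
    have hc : ContinuousAt (fun z => (z, h a₀ z)) z₀ := continuousAt_id.prodMk (hca a₀)
    apply hc.eventually_mem
    rw [← ha₀]
    exact hU.mem_nhds hxU
  obtain ⟨ρ', hρ', hb⟩ := Metric.eventually_nhds_iff_ball.1 (hev1.and hev2)
  set R : ℝ := min ρ ρ' with hR
  have hRpos : 0 < R := lt_min hρ hρ'
  have hsub : Metric.ball z₀ R ⊆ Metric.ball z₀ ρ := Metric.ball_subset_ball (min_le_left _ _)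
  have hsub' : Metric.ball z₀ R ⊆ Metric.ball z₀ ρ' := Metric.ball_subset_ball (min_le_right _ _)
  refine ⟨Metric.ball z₀ R ×ˢ Metric.ball w₀ δ, Metric.isOpen_ball.prod Metric.isOpen_ball,
    ⟨Metric.mem_ball_self hRpos, Metric.mem_ball_self hδ⟩, ?_⟩
  rintro ⟨z, w⟩ ⟨⟨hz', hw'⟩, hy1, hy2⟩
  simp only at hz' hw' hy1 hy2
  obtain ⟨a, ha⟩ := (c13_ev_zero (h3 z (hsub hz')) w).1 hy2
  have haa : a = a₀ := by
    by_contra hne
    have h5 := hsep a hne
    have h6 := (hb z (hsub' hz')).1 a
    have h7 : ‖w - w₀‖ < δ := by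
      rw [← dist_eq_norm]
      exact hw'
    rw [ha, ha₀] at h7
    have h8 : ‖h a z₀ - h a₀ z₀‖ ≤ ‖h a z - h a₀ z₀‖ + ‖h a z - h a z₀‖ := by
      have : h a z₀ - h a₀ z₀ = (h a z - h a₀ z₀) - (h a z - h a z₀) := by ring
      rw [this]
      exact norm_sub_le _ _
    linarith
  subst haa
  have hpc : IsPathConnected (Metric.ball z₀ R) :=
    (convex_ball z₀ R).isPathConnected ⟨z₀, Metric.mem_ball_self hRpos⟩
  have hcont : ContinuousOn (fun z : Fin n → ℂ => (z, h a z)) (Metric.ball z₀ R) :=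
    continuousOn_id.prodMk ((h1 a).continuousOn.mono hsub)
  have him := hpc.image' hcont
  have hj := him.joinedIn (z₀, w₀) ⟨z₀, Metric.mem_ball_self hRpos, by simp [ha₀]⟩
    (z, w) ⟨z, hz', by simp [ha]⟩
  apply hj.mono
  rintro _ ⟨y, hy, rfl⟩
  exact ⟨⟨hr' y (hsub hy), (c13_ev_zero (h3 y (hsub hy)) (h a y)).2 ⟨a, rfl⟩⟩,
    (hb y (hsub' hy)).2⟩

/-- If q has winding number zero along all loops of the hypersurface, it has a continuous logarithm
there.
Proof: X = CS p r as a subtype, L from `exists_log` for q on X; L kills all loops by hw (a logarithm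
along a loop exists, lift through exp); base point x₀ with exp g₀ = q x₀; g x = g₀ + L (path from x₀
to x), independent of the path; exp (g x) = q x (logarithm along the path).  Continuity at x: near x
choose a continuous local logarithm of q with value g x at x (Complex.log (q y / q x)) and join y to x
inside a small relatively open neighbourhood: `local_roots` (C3) gives small sheets over balls, path
inside the sheet. -/
theorem exists_log_CS (p : (MvPolynomial (Fin n) ℂ)[X]) (hp : p.Monic)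
    (r : MvPolynomial (Fin n) ℂ) (hr : r ≠ 0) (hs : Simple p r) (hpc : IsPathConnected (CS p r))
    (q : (MvPolynomial (Fin n) ℂ)[X]) (hq : ∀ x ∈ CS p r, ev q x ≠ 0)
    (hw : ∀ (z : C(I, Fin n → ℂ)) (u : C(I, ℂ)), z 0 = z 1 → u 0 = u 1 →
      (∀ t, MvPolynomial.eval (z t) r ≠ 0 ∧ ev p (z t, u t) = 0) →
      ∀ ℓ : C(I, ℂ), (∀ t, Complex.exp (ℓ t) = ev q (z t, u t)) → ℓ 1 = ℓ 0) :
    ∃ g : (Fin n → ℂ) × ℂ → ℂ, ContinuousOn g (CS p r) ∧
      ∀ x ∈ CS p r, Complex.exp (g x) = ev q x := by
  classical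
  have : PathConnectedSpace (CS p r) := isPathConnected_iff_pathConnectedSpace.1 hpc
  obtain ⟨g, hg, hge⟩ := e2_log (X := CS p r)
    ⟨fun x => ev q x.1, (continuous_ev q).comp continuous_subtype_val⟩ (fun x => hq x.1 x.2)
    (by
      intro x U hU hxU
      obtain ⟨V, hV, rfl⟩ := isOpen_induced_iff.1 hU
      obtain ⟨O, hO, hxO, hJ⟩ := e2_near p hp r hs x.1 x.2 V hV hxU
      refine ⟨Subtype.val ⁻¹' O, hO.preimage continuous_subtype_val, hxO, ?_⟩
      intro y hy
      obtain ⟨δ, hδ⟩ := hJ y.1 ⟨hy, y.2⟩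
      refine ⟨⟨⟨fun t => ⟨δ t, (hδ t).1⟩, Continuous.subtype_mk δ.continuous _⟩, ?_, ?_⟩, ?_⟩
      · exact Subtype.ext (by simp)
      · exact Subtype.ext (by simp)
      · intro t
        exact (hδ t).2)
    (by
      intro x δ ℓ hℓ
      refine hw ⟨fun t => (δ t).1.1, by
          exact continuous_fst.comp (continuous_subtype_val.comp δ.continuous)⟩
        ⟨fun t => (δ t).1.2, by
          exact continuous_snd.comp (continuous_subtype_val.comp δ.continuous)⟩ ?_ ?_ ?_ ℓ ?_
      · simp
      · simp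
      · intro t
        exact (δ t).2
      · intro t
        exact hℓ t)
  refine ⟨fun x => if hx : x ∈ CS p r then g ⟨x, hx⟩ else 0, ?_, ?_⟩
  · rw [continuousOn_iff_continuous_domRestrict]
    have h1 : (CS p r).domRestrict (fun x => if hx : x ∈ CS p r then g ⟨x, hx⟩ else 0) = g := by
      funext x
      simp [Set.domRestrict]
    rw [h1]
    exact hg
  · intro x hx
    simp only [dif_pos hx]
    exact hge ⟨x, hx⟩

end H13M
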