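import Pool.Agent.Lib.H13M.D

set_option autoImplicit false

open scoped unitInterval Polynomial

namespace H13M

open H13K

variable {n : ℕ} {ι : Type}

/-- The monic polynomial whose roots are the values of h at the points of the hypersurface over z. -/
noncomputable def hV (h : (Fin n → ℂ) × ℂ → ℂ) (p : (MvPolynomial (Fin n) ℂ)[X])
    (z : Fin n → ℂ) : ℂ[X] :=
  ∏ u ∈ (p.map (MvPolynomial.eval z)).roots.toFinset, (Polynomial.X - Polynomial.C (h (z, u)))

end H13M
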