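import Pool.Agent.Lib.H13M.D
import Pool.Agent.Lib.H13M.ED
import Pool.Agent.Lib.H13M.C3

set_option autoImplicit false

open scoped unitInterval Polynomial

namespace H13M

open H13K

variable {n : ℕ} {ι : Type}

private theorem e3a_mv (q : MvPolynomial (Fin n) ℂ) :
    Differentiable ℂ (fun x : Fin n → ℂ => MvPolynomial.eval x q) := by
  induction q using MvPolynomial.induction_on with
  | C a => simp
  | add p q hp hq =>
    simp only [map_add]
    exact hp.fun_add hq
  | mul_X p i hp =>
    simp only [map_mul, MvPolynomial.eval_X]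
    exact hp.fun_mul (differentiable_apply i)

private theorem e3a_ev (p : (MvPolynomial (Fin n) ℂ)[X]) : Differentiable ℂ (ev p) := by
  have h : ev p = fun q : (Fin n → ℂ) × ℂ => ∑ k ∈ Finset.range (p.natDegree + 1),
      MvPolynomial.eval q.1 (p.coeff k) * q.2 ^ k := by
    funext q
    exact ev_eq_sum p q
  rw [h]
  exact Differentiable.fun_sum fun i _ =>
    ((e3a_mv (p.coeff i)).comp differentiable_fst).mul (differentiable_snd.pow i)

/-- a continuous m-th root of a differentiable function is differentiable where it is not zero -/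
private theorem e3a_root {E : Type} [NormedAddCommGroup E] [NormedSpace ℂ E] (g F : E → ℂ) (z₁ : E)
    (m : ℕ) (hm : 0 < m) (hg : ContinuousAt g z₁) (hF : DifferentiableAt ℂ F z₁)
    (hgF : ∀ᶠ z in nhds z₁, g z ^ m = F z) (h0 : g z₁ ≠ 0) : DifferentiableAt ℂ g z₁ := by
  have h1 : HasStrictDerivAt (fun x : ℂ => x ^ m) ((m : ℂ) * g z₁ ^ (m - 1)) (g z₁) :=
    hasStrictDerivAt_pow m (g z₁)
  have h2 : (m : ℂ) * g z₁ ^ (m - 1) ≠ 0 :=
    mul_ne_zero (Nat.cast_ne_zero.2 (by omega)) (pow_ne_zero _ h0)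
  have h3 := (h1.hasStrictFDerivAt_equiv h2).eventually_left_inverse
  have h4 := (h1.to_localInverse h2).hasDerivAt.differentiableAt
  have h5 : F z₁ = g z₁ ^ m := hgF.self_of_nhds.symm
  have h6 : g =ᶠ[nhds z₁] fun z => h1.localInverse _ _ _ h2 (F z) := by
    filter_upwards [hg.eventually h3, hgF] with z h7 h8
    rw [← h8]
    exact h7.symm
  refine DifferentiableAt.congr_of_eventuallyEq ?_ h6
  refine DifferentiableAt.comp (g := h1.localInverse _ _ _ h2) z₁ ?_ hF
  rw [h5]
  exact h4

private theorem e3a_coeff {E : Type} [NormedAddCommGroup E] [NormedSpace ℂ E] {α : Type}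
    (g : α → E → ℂ) (z₁ : E) (hg : ∀ a, DifferentiableAt ℂ (g a) z₁) (S : Finset α) : ∀ k : ℕ,
    DifferentiableAt ℂ
      (fun z => (∏ a ∈ S, (Polynomial.X - Polynomial.C (g a z))).coeff k) z₁ := by
  classical
  induction S using Finset.induction_on with
  | empty =>
    intro k
    simp only [Finset.prod_empty]
    exact differentiableAt_const _
  | insert a S ha ih =>
    intro k
    simp only [Finset.prod_insert ha, sub_mul, Polynomial.coeff_sub, Polynomial.coeff_C_mul]
    refine DifferentiableAt.sub ?_ ((hg a).mul (ih k))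
    rcases k with _ | k
    · simp only [Polynomial.coeff_X_mul_zero]
      exact differentiableAt_const _
    · simp only [Polynomial.coeff_X_mul]
      exact ih k

/-- Holomorphy of the coefficients of `hV` for a continuous root h of q.
Proof: `local_roots` on a ball where r ≠ 0: hV h p z = ∏ a, (X - C (h (z, s a z))), s a the sheets
(injective, so no repetition in toFinset); z ↦ h (z, s a z) is continuous and its m-th power
ev q (z, s a z) is holomorphic and nowhere zero, so it is holomorphic: near z₁ it equals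
v₁ * exp (log (ev q (z, s a z) / v₁ ^ m) / m), v₁ its value at z₁ (the quotient is continuous with
values in the m-th roots of unity and 1 at z₁). -/
theorem hV_hol (p : (MvPolynomial (Fin n) ℂ)[X]) (hp : p.Monic) (r : MvPolynomial (Fin n) ℂ)
    (hs : Simple p r) (q : (MvPolynomial (Fin n) ℂ)[X]) (m : ℕ) (hm : 0 < m)
    (h : (Fin n → ℂ) × ℂ → ℂ) (hc : ContinuousOn h (CS p r))
    (hh : ∀ x ∈ CS p r, h x ^ m = ev q x ∧ h x ≠ 0) (k : ℕ) :
    DifferentiableOn ℂ (fun z => (hV h p z).coeff k) {z | MvPolynomial.eval z r ≠ 0} := by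
  intro z₁ hz₁
  obtain ⟨ρ, hρ, s, hsd, hsi, hsp⟩ := local_roots p hp z₁ (fun w hw => hs (z₁, w) hz₁ hw)
  have hUo : IsOpen {z : Fin n → ℂ | MvPolynomial.eval z r ≠ 0} :=
    isOpen_ne_fun (MvPolynomial.continuous_eval r) continuous_const
  have hU : ∀ᶠ z in nhds z₁, z ∈ Metric.ball z₁ ρ ∧ MvPolynomial.eval z r ≠ 0 :=
    Filter.Eventually.and (Metric.ball_mem_nhds z₁ hρ) (hUo.mem_nhds hz₁)
  -- the sheets
  have hroot : ∀ z ∈ Metric.ball z₁ ρ, ∀ a, ev p (z, s a z) = 0 := by
    intro z hz a
    show (p.map (MvPolynomial.eval z)).eval (s a z) = 0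
    rw [hsp z hz, Polynomial.eval_prod]
    exact Finset.prod_eq_zero (Finset.mem_univ a) (by simp)
  have hCS : ∀ z ∈ Metric.ball z₁ ρ, MvPolynomial.eval z r ≠ 0 → ∀ a, (z, s a z) ∈ CS p r :=
    fun z hz hr a => ⟨hr, hroot z hz a⟩
  have hsc : ∀ a, ContinuousAt (s a) z₁ := fun a =>
    ((hsd a).differentiableAt (Metric.ball_mem_nhds z₁ hρ)).continuousAt
  have hg : ∀ a, DifferentiableAt ℂ (fun z => h (z, s a z)) z₁ := by
    intro a
    have hB : z₁ ∈ Metric.ball z₁ ρ := Metric.mem_ball_self hρ
    have hx := hCS z₁ hB hz₁ a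
    refine e3a_root (fun z => h (z, s a z)) (fun z => ev q (z, s a z)) z₁ m hm ?_ ?_ ?_
      (hh _ hx).2
    · have h1 : Filter.Tendsto (fun z => (z, s a z)) (nhds z₁)
          (nhdsWithin (z₁, s a z₁) (CS p r)) := by
        rw [tendsto_nhdsWithin_iff]
        refine ⟨continuousAt_id.prodMk (hsc a), ?_⟩
        filter_upwards [hU] with z hz
        exact hCS z hz.1 hz.2 a
      exact (hc _ hx).tendsto.comp h1
    · exact ((e3a_ev q) (z₁, s a z₁)).comp (f := fun z => (z, s a z)) z₁
        (differentiableAt_id.prodMk ((hsd a).differentiableAt (Metric.ball_mem_nhds z₁ hρ)))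
    · filter_upwards [hU] with z hz
      exact (hh _ (hCS z hz.1 hz.2 a)).1
  have h2 := e3a_coeff (fun a z => h (z, s a z)) z₁ hg Finset.univ k
  refine (h2.congr_of_eventuallyEq ?_).differentiableWithinAt
  filter_upwards [hU] with z hz
  have h3 : (p.map (MvPolynomial.eval z)).roots.toFinset =
      Finset.univ.image (fun a => s a z) := by
    ext u
    rw [Multiset.mem_toFinset, Polynomial.mem_roots (hp.map _).ne_zero, Polynomial.IsRoot.def,
      hsp z hz.1, Polynomial.eval_prod, Finset.prod_eq_zero_iff, Finset.mem_image]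
    constructor
    · rintro ⟨a, ha, h4⟩
      refine ⟨a, ha, ?_⟩
      rw [Polynomial.eval_sub, Polynomial.eval_X, Polynomial.eval_C, sub_eq_zero] at h4
      exact h4.symm
    · rintro ⟨a, ha, h4⟩
      refine ⟨a, ha, ?_⟩
      rw [Polynomial.eval_sub, Polynomial.eval_X, Polynomial.eval_C, h4, sub_self]
  show (hV h p z).coeff k = _
  unfold hV
  rw [h3, Finset.prod_image (fun a _ b _ hab => hsi z hz.1 hab)]

end H13M
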