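import Pool.Agent.Lib.H13M.D
import Pool.Agent.Lib.H13M.ED
import Pool.Agent.Lib.H13M.C11

set_option autoImplicit false

open scoped unitInterval Polynomial

namespace H13M

open H13K

variable {n : ℕ} {ι : Type}

private theorem e3b_eval_bound (q : MvPolynomial (Fin n) ℂ) (z : Fin n → ℂ) :
    ‖MvPolynomial.eval z q‖ ≤ (∑ d ∈ q.support, ‖q.coeff d‖) * (1 + ‖z‖) ^ q.totalDegree := by
  rw [MvPolynomial.eval_eq', Finset.sum_mul]
  refine (norm_sum_le _ _).trans (Finset.sum_le_sum fun d hd => ?_)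
  rw [norm_mul]
  refine mul_le_mul_of_nonneg_left ?_ (norm_nonneg _)
  have h1 : ‖∏ i, z i ^ d i‖ ≤ ∏ i : Fin n, (1 + ‖z‖) ^ d i := by
    rw [norm_prod]
    refine Finset.prod_le_prod (fun i _ => norm_nonneg _) fun i _ => ?_
    rw [norm_pow]
    exact pow_le_pow_left₀ (norm_nonneg _) (by linarith [norm_le_pi_norm z i]) _
  refine h1.trans ?_
  rw [Finset.prod_pow_eq_pow_sum]
  refine pow_le_pow_right₀ (by linarith [norm_nonneg z]) ?_
  have h2 := MvPolynomial.le_totalDegree hd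
  rwa [Finsupp.sum_fintype _ _ fun _ => rfl] at h2

/-- The values of `q` on the hypersurface grow at most polynomially. -/
private theorem e3b_q_bound (p : (MvPolynomial (Fin n) ℂ)[X]) (hp : p.Monic)
    (q : (MvPolynomial (Fin n) ℂ)[X]) : ∃ (C : ℝ) (K : ℕ), 1 ≤ C ∧ 1 ≤ K ∧
      ∀ (z : Fin n → ℂ) (u : ℂ), ev p (z, u) = 0 → ‖ev q (z, u)‖ ≤ C * (1 + ‖z‖) ^ K := by
  obtain ⟨C1, K1, hC1, hb⟩ := root_bound p hp
  set S : ℕ → ℝ := fun j =>
    ∑ d ∈ (q.coeff j).support, ‖(q.coeff j).coeff d‖ with hS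
  have hS0 : ∀ j, 0 ≤ S j := fun j => Finset.sum_nonneg fun k _ => norm_nonneg _
  set K : ℕ := ∑ j ∈ Finset.range (q.natDegree + 1), ((q.coeff j).totalDegree + K1 * j) with hK
  have hsum0 : 0 ≤ ∑ j ∈ Finset.range (q.natDegree + 1), S j * C1 ^ j :=
    Finset.sum_nonneg fun j _ => mul_nonneg (hS0 j) (pow_nonneg hC1.le j)
  refine ⟨1 + ∑ j ∈ Finset.range (q.natDegree + 1), S j * C1 ^ j, K + 1, by linarith, by omega, ?_⟩
  intro z u hu
  have hz1 : (1 : ℝ) ≤ 1 + ‖z‖ := by linarith [norm_nonneg z]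
  have hw := hb z u hu
  rw [ev_eq_sum]
  refine (norm_sum_le _ _).trans ?_
  have h1 : ∑ j ∈ Finset.range (q.natDegree + 1), ‖MvPolynomial.eval z (q.coeff j) * u ^ j‖ ≤
      ∑ j ∈ Finset.range (q.natDegree + 1), S j * C1 ^ j * (1 + ‖z‖) ^ K := by
    refine Finset.sum_le_sum fun j hj => ?_
    rw [norm_mul, norm_pow]
    have h2 : ‖MvPolynomial.eval z (q.coeff j)‖ ≤ S j * (1 + ‖z‖) ^ (q.coeff j).totalDegree :=
      e3b_eval_bound _ z
    have h3 : ‖u‖ ^ j ≤ (C1 * (1 + ‖z‖) ^ K1) ^ j := pow_le_pow_left₀ (norm_nonneg _) hw j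
    have h4 : (q.coeff j).totalDegree + K1 * j ≤ K :=
      Finset.single_le_sum (f := fun j => (q.coeff j).totalDegree + K1 * j)
        (fun _ _ => Nat.zero_le _) hj
    calc ‖MvPolynomial.eval z (q.coeff j)‖ * ‖u‖ ^ j
        ≤ (S j * (1 + ‖z‖) ^ (q.coeff j).totalDegree) * (C1 * (1 + ‖z‖) ^ K1) ^ j :=
          mul_le_mul h2 h3 (by positivity) (by
            have := hS0 j
            positivity)
      _ = S j * C1 ^ j * (1 + ‖z‖) ^ ((q.coeff j).totalDegree + K1 * j) := by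
          rw [mul_pow, ← pow_mul, pow_add]
          ring
      _ ≤ S j * C1 ^ j * (1 + ‖z‖) ^ K :=
          mul_le_mul_of_nonneg_left (pow_le_pow_right₀ hz1 h4)
            (mul_nonneg (hS0 j) (pow_nonneg hC1.le j))
  refine h1.trans ?_
  rw [← Finset.sum_mul]
  refine mul_le_mul (by linarith) (pow_le_pow_right₀ hz1 (Nat.le_succ K)) (by positivity)
    (by linarith)

private theorem e3b_coeff {β : Type*} [DecidableEq β] (S : Finset β) (f : β → ℂ) :
    ∀ k, ‖(∏ u ∈ S, (Polynomial.X - Polynomial.C (f u))).coeff k‖ ≤ ∏ u ∈ S, (1 + ‖f u‖) := by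
  induction S using Finset.induction_on with
  | empty =>
    intro k
    rw [Finset.prod_empty, Finset.prod_empty, Polynomial.coeff_one]
    split_ifs <;> simp
  | insert a S ha ih =>
    intro k
    have hP : (0 : ℝ) ≤ ∏ u ∈ S, (1 + ‖f u‖) :=
      Finset.prod_nonneg fun u _ => by positivity
    rw [Finset.prod_insert ha, Finset.prod_insert ha, sub_mul, Polynomial.coeff_sub,
      Polynomial.coeff_C_mul]
    have h0 : ‖(Polynomial.X * ∏ u ∈ S, (Polynomial.X - Polynomial.C (f u))).coeff k‖ ≤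
        ∏ u ∈ S, (1 + ‖f u‖) := by
      cases k with
      | zero =>
        rw [Polynomial.coeff_X_mul_zero, norm_zero]
        exact hP
      | succ k =>
        rw [Polynomial.coeff_X_mul]
        exact ih k
    refine (norm_sub_le _ _).trans ?_
    rw [norm_mul]
    have h1 := mul_le_mul_of_nonneg_left (ih k) (norm_nonneg (f a))
    linarith

/-- Growth of the coefficients of `hV`.
Proof: on the hypersurface ‖ev q (z, u)‖ ≤ C (1 + ‖z‖) ^ K with C ≥ 1, K ≥ 1 (`root_bound`).  d =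
natDegree p, M = 2 d K + 1.  For m ≥ M and b = max 1 ‖h‖: (b ^ (2 d)) ^ K ≤ b ^ m ≤
C (1 + ‖z‖) ^ K, so b ^ (2 d) ≤ C (1 + ‖z‖); a coefficient is at most ∏ (1 + ‖h‖) ≤ (2 b) ^ d. -/
theorem hV_growth (p : (MvPolynomial (Fin n) ℂ)[X]) (hp : p.Monic) (r : MvPolynomial (Fin n) ℂ)
    (q : (MvPolynomial (Fin n) ℂ)[X]) : ∃ (D : ℝ) (M : ℕ), 0 < M ∧ ∀ m, M ≤ m →
      ∀ h : (Fin n → ℂ) × ℂ → ℂ, (∀ x ∈ CS p r, h x ^ m = ev q x) →
        ∀ z, MvPolynomial.eval z r ≠ 0 → ∀ k, ‖(hV h p z).coeff k‖ ^ 2 ≤ D * (1 + ‖z‖) := by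
  classical
  obtain ⟨C, K, hC, hK, hb⟩ := e3b_q_bound p hp q
  refine ⟨4 ^ p.natDegree * C, 2 * p.natDegree * K + 1, by omega, ?_⟩
  intro m hm h hh z hz k
  have hz1 : (1 : ℝ) ≤ 1 + ‖z‖ := by linarith [norm_nonneg z]
  set S := (p.map (MvPolynomial.eval z)).roots.toFinset with hS
  set d := p.natDegree with hd
  set Y : ℝ := C * (1 + ‖z‖) with hY
  have hY1 : 1 ≤ Y := by
    rw [hY]
    nlinarith
  have hcard : S.card ≤ d :=
    (Multiset.toFinset_card_le _).trans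
      ((Polynomial.card_roots' _).trans Polynomial.natDegree_map_le)
  have hbu : ∀ u ∈ S, (max 1 ‖h (z, u)‖) ^ (2 * d) ≤ Y := by
    intro u hu
    have hu0 : ev p (z, u) = 0 := by
      rw [hS, Multiset.mem_toFinset] at hu
      exact Polynomial.isRoot_of_mem_roots hu
    have h1 : ‖h (z, u)‖ ^ m ≤ C * (1 + ‖z‖) ^ K := by
      rw [← norm_pow, hh (z, u) ⟨hz, hu0⟩]
      exact hb z u hu0
    have h2 : (max 1 ‖h (z, u)‖) ^ m ≤ C * (1 + ‖z‖) ^ K := by
      rcases le_total ‖h (z, u)‖ 1 with h3 | h3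
      · rw [max_eq_left h3, one_pow]
        have := one_le_pow₀ (n := K) hz1
        nlinarith
      · rw [max_eq_right h3]
        exact h1
    have h4 : ((max 1 ‖h (z, u)‖) ^ (2 * d)) ^ K ≤ Y ^ K := by
      rw [← pow_mul]
      refine (pow_le_pow_right₀ (le_max_left _ _) (by omega : 2 * d * K ≤ m)).trans (h2.trans ?_)
      rw [hY, mul_pow]
      exact mul_le_mul_of_nonneg_right (le_self_pow₀ hC (by omega)) (by positivity)
    exact le_of_pow_le_pow_left₀ (by omega) (by linarith) h4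
  have hprod : ∏ u ∈ S, (max 1 ‖h (z, u)‖) ^ 2 ≤ Y := by
    rcases Nat.eq_zero_or_pos d with h0 | h0
    · have hS0 : S = ∅ := Finset.card_eq_zero.1 (by omega)
      rw [hS0, Finset.prod_empty]
      exact hY1
    · refine le_of_pow_le_pow_left₀ (n := d) (by omega) (by linarith) ?_
      rw [← Finset.prod_pow]
      calc ∏ u ∈ S, ((max 1 ‖h (z, u)‖) ^ 2) ^ d ≤ ∏ _u ∈ S, Y := by
            refine Finset.prod_le_prod (fun u _ => by positivity) fun u hu => ?_
            rw [← pow_mul]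
            exact hbu u hu
        _ = Y ^ S.card := by rw [Finset.prod_const]
        _ ≤ Y ^ d := pow_le_pow_right₀ hY1 hcard
  have hco := e3b_coeff S (fun u => h (z, u)) k
  have hle : ∏ u ∈ S, (1 + ‖h (z, u)‖) ≤ ∏ u ∈ S, (2 * max 1 ‖h (z, u)‖) := by
    refine Finset.prod_le_prod (fun u _ => by positivity) fun u _ => ?_
    have h1 := le_max_left 1 ‖h (z, u)‖
    have h2 := le_max_right 1 ‖h (z, u)‖
    linarith
  have hnn : (0 : ℝ) ≤ ‖(hV h p z).coeff k‖ := norm_nonneg _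
  have hfin : ‖(hV h p z).coeff k‖ ^ 2 ≤ (∏ u ∈ S, (2 * max 1 ‖h (z, u)‖)) ^ 2 :=
    pow_le_pow_left₀ hnn (hco.trans hle) 2
  refine hfin.trans ?_
  rw [← Finset.prod_pow]
  have h5 : ∏ u ∈ S, (2 * max 1 ‖h (z, u)‖) ^ 2 =
      4 ^ S.card * ∏ u ∈ S, (max 1 ‖h (z, u)‖) ^ 2 := by
    rw [← Finset.prod_const, ← Finset.prod_mul_distrib]
    refine Finset.prod_congr rfl fun u _ => ?_
    ring
  rw [h5, mul_assoc]
  refine mul_le_mul (pow_le_pow_right₀ (by norm_num) hcard) hprod ?_ (by positivity)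
  exact Finset.prod_nonneg fun u _ => by positivity

end H13M
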