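import Pool.Agent.Lib.H13M.D
import Pool.Agent.Lib.H13M.C14b
import Pool.Agent.Lib.H13K.P1

set_option autoImplicit false

open scoped unitInterval Polynomial

namespace H13M

open H13K

variable {n : ℕ} {ι : Type}

private theorem e3c_dense (n : ℕ) (r : MvPolynomial (Fin n) ℂ) (hr : r ≠ 0) :
    Dense {z : Fin n → ℂ | MvPolynomial.eval z r ≠ 0} := by
  rw [Metric.dense_iff]
  intro z ε hε
  obtain ⟨w, hw, hw2⟩ := (pc_compl n r hr (Metric.ball z ε) (convex_ball z ε) Metric.isOpen_ball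
    ⟨z, Metric.mem_ball_self hε⟩).nonempty
  exact ⟨w, hw, hw2⟩

/-- Liouville: growth with exponent 1/2 forces a constant.
Proof: ‖c z‖ ≤ (D' + 1) (1 + ‖z‖), D' = max D 0, so c = q polynomial (`poly_of_growth_n`, K = 1); by
density of {r ≠ 0} ‖q z‖ ^ 2 ≤ D (1 + ‖z‖) for all z; on every complex line q is a one variable
polynomial with this growth, so constant; q z = q 0. -/
theorem const_of_growth (n : ℕ) (r : MvPolynomial (Fin n) ℂ) (hr : r ≠ 0) (c : (Fin n → ℂ) → ℂ)
    (hc : DifferentiableOn ℂ c {z | MvPolynomial.eval z r ≠ 0}) (D : ℝ)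
    (hb : ∀ z, MvPolynomial.eval z r ≠ 0 → ‖c z‖ ^ 2 ≤ D * (1 + ‖z‖)) :
    ∃ c₀ : ℂ, ∀ z, MvPolynomial.eval z r ≠ 0 → c z = c₀ := by
  -- a nonnegative constant
  obtain ⟨D', hD', hb'⟩ : ∃ D' : ℝ, 0 ≤ D' ∧
      ∀ z, MvPolynomial.eval z r ≠ 0 → ‖c z‖ ^ 2 ≤ D' * (1 + ‖z‖) := by
    refine ⟨max D 0, le_max_right _ _, fun z hz => (hb z hz).trans ?_⟩
    have : 0 ≤ 1 + ‖z‖ := by positivity
    exact mul_le_mul_of_nonneg_right (le_max_left _ _) this
  obtain ⟨q, hq⟩ := poly_of_growth_n n r hr c hc (D' + 1) 1 (by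
    intro z hz
    rw [pow_one]
    have h0 : (0 : ℝ) ≤ ‖z‖ := norm_nonneg z
    have h1 := hb' z hz
    refine le_of_sq_le_sq (h1.trans ?_) (by positivity)
    nlinarith [mul_nonneg hD' h0, mul_nonneg (mul_nonneg hD' hD') h0, mul_nonneg h0 h0,
      mul_nonneg (mul_nonneg hD' h0) h0, mul_nonneg (mul_nonneg hD' hD') (mul_nonneg h0 h0),
      mul_nonneg hD' hD'])
  -- the growth of q everywhere
  have hqall : ∀ z : Fin n → ℂ, ‖MvPolynomial.eval z q‖ ^ 2 ≤ D' * (1 + ‖z‖) := by
    intro z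
    have hclosed : IsClosed {z : Fin n → ℂ | ‖MvPolynomial.eval z q‖ ^ 2 ≤ D' * (1 + ‖z‖)} :=
      isClosed_le (((MvPolynomial.continuous_eval q).norm).pow 2)
        (continuous_const.mul (continuous_const.add continuous_norm))
    have hsub : {z : Fin n → ℂ | MvPolynomial.eval z r ≠ 0} ⊆
        {z : Fin n → ℂ | ‖MvPolynomial.eval z q‖ ^ 2 ≤ D' * (1 + ‖z‖)} := by
      intro w hw
      have := hb' w hw
      rw [hq w hw] at this
      exact this
    exact (closure_minimal hsub hclosed) ((e3c_dense n r hr).closure_eq ▸ Set.mem_univ z)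
  refine ⟨MvPolynomial.eval 0 q, fun z hz => ?_⟩
  rw [hq z hz]
  -- restrict to the line through z
  let Q : ℂ[X] := MvPolynomial.aeval (fun i => Polynomial.C (z i) * Polynomial.X) q
  have hQ : ∀ t : ℂ, Q.eval t = MvPolynomial.eval (t • z) q := by
    intro t
    have h : ∀ p : MvPolynomial (Fin n) ℂ,
        Polynomial.eval t (MvPolynomial.aeval (fun i => Polynomial.C (z i) * Polynomial.X) p) =
          MvPolynomial.eval (t • z) p := by
      intro p
      induction p using MvPolynomial.induction_on with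
      | C a => simp
      | add p₁ p₂ h1 h2 => simp only [map_add, Polynomial.eval_add, h1, h2]
      | mul_X p i h1 =>
        simp only [map_mul, Polynomial.eval_mul, h1, MvPolynomial.aeval_X, MvPolynomial.eval_X,
          Polynomial.eval_C, Polynomial.eval_X, Pi.smul_apply, smul_eq_mul]
        ring
    exact h q
  obtain ⟨q', hq', hqe⟩ := poly_of_growth_deg 1 one_ne_zero (fun t => (Q.eval t) ^ 2)
    ((Q.differentiable.pow 2).differentiableOn) (D' * (1 + ‖z‖)) 1 (by
      intro t _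
      rw [pow_one, norm_pow, hQ]
      refine (hqall (t • z)).trans ?_
      rw [norm_smul, mul_assoc]
      refine mul_le_mul_of_nonneg_left ?_ hD'
      nlinarith [norm_nonneg z, norm_nonneg t, mul_nonneg (norm_nonneg z) (norm_nonneg t)])
  have hpoly : Q ^ 2 = q' := by
    apply Polynomial.funext
    intro t
    rw [Polynomial.eval_pow]
    exact hqe t (by simp)
  have hdeg : Q.natDegree = 0 := by
    have h1 : (Q ^ 2).natDegree = 2 * Q.natDegree := Polynomial.natDegree_pow Q 2
    rw [hpoly] at h1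
    omega
  have h1 : Q.eval 1 = Q.eval 0 := by
    rw [Polynomial.eq_C_of_natDegree_eq_zero hdeg]
    simp
  rw [hQ, hQ, one_smul, zero_smul] at h1
  exact h1

end H13M
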