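import Pool.Agent.Lib.H13M.D
import Pool.Agent.Lib.H13M.E3a
import Pool.Agent.Lib.H13M.E3b
import Pool.Agent.Lib.H13M.E3c

set_option autoImplicit false

open scoped unitInterval Polynomial

namespace H13M

open H13K

variable {n : ℕ} {ι : Type}

private theorem e3_monic (h : (Fin n → ℂ) × ℂ → ℂ) (p : (MvPolynomial (Fin n) ℂ)[X])
    (z : Fin n → ℂ) : (hV h p z).Monic := by
  unfold hV
  exact Polynomial.monic_prod_of_monic _ _ fun u _ => Polynomial.monic_X_sub_C _

private theorem e3_root (h : (Fin n → ℂ) × ℂ → ℂ) {p : (MvPolynomial (Fin n) ℂ)[X]}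
    (hp : p.Monic) {r : MvPolynomial (Fin n) ℂ} {y : (Fin n → ℂ) × ℂ} (hy : y ∈ CS p r) :
    (hV h p y.1).eval (h y) = 0 := by
  unfold hV
  rw [Polynomial.eval_prod]
  refine Finset.prod_eq_zero (i := y.2) ?_ ?_
  · rw [Multiset.mem_toFinset, Polynomial.mem_roots (hp.map _).ne_zero]
    exact hy.2
  · rw [Polynomial.eval_sub, Polynomial.eval_X, Polynomial.eval_C]
    exact sub_self _

/-- Continuous m-th roots of a polynomial on the hypersurface are constant for large m.
Proof: `hV_hol`, `hV_growth`, `const_of_growth`: all coefficients of hV h p z are constants, so hV h p z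
is one fixed monic polynomial S; h (z, u) is a root of S for all (z, u) in CS p r; a continuous
function on a connected set with finitely many values is constant. -/
theorem root_const (p : (MvPolynomial (Fin n) ℂ)[X]) (hp : p.Monic) (r : MvPolynomial (Fin n) ℂ)
    (hr : r ≠ 0) (hs : Simple p r) (hpc : IsPathConnected (CS p r))
    (q : (MvPolynomial (Fin n) ℂ)[X]) : ∃ M : ℕ, 0 < M ∧ ∀ m, M ≤ m →
      ∀ h : (Fin n → ℂ) × ℂ → ℂ, ContinuousOn h (CS p r) →
        (∀ x ∈ CS p r, h x ^ m = ev q x ∧ h x ≠ 0) →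
        ∀ x ∈ CS p r, ∀ y ∈ CS p r, h x = h y := by
  obtain ⟨D, M, hM0, hgr⟩ := hV_growth p hp r q
  refine ⟨M, hM0, fun m hm h hc hh x hx y hy => ?_⟩
  have hcoef : ∀ k : ℕ, ∃ c₀ : ℂ, ∀ z, MvPolynomial.eval z r ≠ 0 → (hV h p z).coeff k = c₀ := by
    intro k
    exact const_of_growth n r hr (fun z => (hV h p z).coeff k)
      (hV_hol p hp r hs q m (lt_of_lt_of_le hM0 hm) h hc hh k) D
      (fun z hz => hgr m hm h (fun x hx => (hh x hx).1) z hz k)
  have hS : ∀ w ∈ CS p r, hV h p w.1 = hV h p x.1 := by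
    intro w hw
    ext k
    obtain ⟨c₀, h0⟩ := hcoef k
    rw [h0 w.1 hw.1, h0 x.1 hx.1]
  have hmaps : Set.MapsTo h (CS p r) ((hV h p x.1).roots.toFinset : Set ℂ) := by
    intro w hw
    rw [Finset.mem_coe, Multiset.mem_toFinset, Polynomial.mem_roots (e3_monic h p x.1).ne_zero,
      Polynomial.IsRoot.def, ← hS w hw]
    exact e3_root h hp hw
  exact hpc.isConnected.isPreconnected.constant_of_mapsTo (Finset.finite_toSet _).isDiscrete hc hmaps hx hy

end H13M
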