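import Pool.Agent.Lib.H13M.D
import Pool.Agent.Lib.H13M.E1
import Pool.Agent.Lib.H13M.E2
import Pool.Agent.Lib.H13M.E3
import Pool.Agent.Lib.H13M.C15

set_option autoImplicit false

open scoped unitInterval Polynomial

namespace H13M

open H13K

variable {n : ℕ} {ι : Type}

/-- If q is not constant on the hypersurface p = 0, there is a loop on it along which q has non-zero
winding number.
Proof: otherwise `exists_log_CS` gives a continuous logarithm g of q on CS p r (path connected by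
`CS_pathConnected`); h = exp (g / m) is a continuous m-th root, constant for m = M of `root_const`;
so q is constant on CS p r and p divides q - c (`dvd_of_const`), contradiction. -/
theorem root_loop' (p q : (MvPolynomial (Fin n) ℂ)[X]) (hp : p.Monic) (hpi : Irreducible p)
    (r : MvPolynomial (Fin n) ℂ) (hr : r ≠ 0) (hs : Simple p r)
    (hq : ∀ x ∈ CS p r, ev q x ≠ 0)
    (hnc : ∀ c : ℂ, ¬ p ∣ q - Polynomial.C (MvPolynomial.C c)) :
    ∃ (z : C(I, Fin n → ℂ)) (u : C(I, ℂ)), z 0 = z 1 ∧ u 0 = u 1 ∧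
      (∀ t, MvPolynomial.eval (z t) r ≠ 0 ∧ ev p (z t, u t) = 0) ∧
      ∃ ℓ : C(I, ℂ), (∀ t, Complex.exp (ℓ t) = ev q (z t, u t)) ∧ ℓ 1 ≠ ℓ 0 := by
  by_contra hcon
  have hpc := CS_pathConnected p hp hpi r hr hs
  obtain ⟨g, hg, hge⟩ := exists_log_CS p hp r hr hs hpc q hq (by
    intro z u hz hu hzu ℓ hℓ
    by_contra hne
    exact hcon ⟨z, u, hz, hu, hzu, ℓ, hℓ, hne⟩)
  obtain ⟨M, hM, hroot⟩ := root_const p hp r hr hs hpc q
  have hM0 : (M : ℂ) ≠ 0 := by exact_mod_cast hM.ne'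
  have hcont : ContinuousOn (fun x => Complex.exp (g x / (M : ℂ))) (CS p r) :=
    (hg.div_const (M : ℂ)).cexp
  have hpow : ∀ x ∈ CS p r, Complex.exp (g x / (M : ℂ)) ^ M = ev q x := by
    intro x hx
    rw [← Complex.exp_nat_mul, mul_div_cancel₀ _ hM0]
    exact hge x hx
  have hconst := hroot M le_rfl (fun x => Complex.exp (g x / (M : ℂ))) hcont
    (fun x hx => ⟨hpow x hx, Complex.exp_ne_zero _⟩)
  obtain ⟨x₀, hx₀⟩ := hpc.nonempty
  refine hnc (ev q x₀) (dvd_of_const p q hp r hr hs (ev q x₀) ?_)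
  intro x hx
  rw [← hpow x hx, ← hpow x₀ hx₀]
  have h1 : Complex.exp (g x / (M : ℂ)) = Complex.exp (g x₀ / (M : ℂ)) := hconst x hx x₀ hx₀
  rw [h1]

end H13M
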