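import Pool.Agent.Lib.H13M.D
import Pool.Agent.Lib.H13M.E4
import Pool.Agent.Lib.H13K.T6a

set_option autoImplicit false

open scoped unitInterval Polynomial

namespace H13M

open H13K

variable {n : ℕ} {ι : Type}

private theorem e5_cast {X : Type} [TopologicalSpace X] {x y x' y' : X} (p q : Path x y)
    (hx : x' = x) (hy : y' = y) (h : p.Homotopic q) :
    (p.cast hx hy).Homotopic (q.cast hx hy) := by
  subst hx hy
  exact h

private theorem e5_square {X : Type} [TopologicalSpace X] (F : C(I × I, X)) (x : X)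
    (α β : Path x x) (hL : ∀ t, F (0, t) = α t) (hR : ∀ t, F (1, t) = α t)
    (hB : ∀ s, F (s, 0) = β s) (hT : ∀ s, F (s, 1) = β s) :
    (α.trans β).Homotopic (β.trans α) := by
  have h00 : x = F (0, 0) := by rw [hL]; simp
  have h11 : x = F (1, 1) := by rw [hR]; simp
  have e1 : α.trans β = ((sideL F).trans (sideT F)).cast h00 h11 := by
    apply Path.ext
    funext t
    simp only [Path.trans_apply, Path.cast_coe]
    split_ifs
    · exact (hL _).symm
    · exact (hT _).symm
  have e2 : β.trans α = ((sideB F).trans (sideR F)).cast h00 h11 := by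
    apply Path.ext
    funext t
    simp only [Path.trans_apply, Path.cast_coe]
    split_ifs
    · exact (hB _).symm
    · exact (hR _).symm
  rw [e1, e2]
  exact e5_cast _ _ _ _ (square_homotopic F)

/-- Tube lemma for a small disc. -/
private theorem e5_tube (U : Set (I × ℂ)) (hU : IsOpen U) (h : ∀ t, (t, (0 : ℂ)) ∈ U) :
    ∀ᶠ δ : ℝ in nhdsWithin 0 (Set.Ioi 0), ∀ (t : I) (b : ℂ), ‖b‖ ≤ δ → (t, b) ∈ U := by
  obtain ⟨A, B, hA, hB, hA1, hB1, hAB⟩ := generalized_tube_lemma (s := (Set.univ : Set I))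
    isCompact_univ (t := ({0} : Set ℂ)) isCompact_singleton hU
    (by rintro ⟨t, b⟩ ⟨_, hb⟩; rw [Set.mem_singleton_iff] at hb; simp only at hb; rw [hb]; exact h t)
  obtain ⟨ε, hε, hball⟩ := Metric.isOpen_iff.1 hB 0 (hB1 rfl)
  filter_upwards [Ioo_mem_nhdsGT hε] with δ hδ t b hb
  apply hAB
  refine ⟨hA1 (Set.mem_univ t), hball ?_⟩
  rw [mem_ball_zero_iff]
  exact lt_of_le_of_lt hb hδ.2

private theorem e5_mono (m : ℕ) (a : MvPolynomial (Fin n) ℂ) (z : Fin n → ℂ) (u : ℂ) :
    ev (Polynomial.monomial m a) (z, u) = MvPolynomial.eval z a * u ^ m := by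
  simp [ev, Polynomial.map_monomial, Polynomial.eval_monomial]

private theorem e5_add (p q : (MvPolynomial (Fin n) ℂ)[X]) (x : (Fin n → ℂ) × ℂ) :
    ev (p + q) x = ev p x + ev q x := by
  simp [ev]

/-- The difference quotient in the last variable. -/
private theorem e5_quot (p : (MvPolynomial (Fin n) ℂ)[X]) :
    ∃ G : (Fin n → ℂ) × ℂ × ℂ → ℂ, Continuous G ∧
    (∀ z u b, ev p (z, u + b) = ev p (z, u) + b * G (z, u, b)) ∧
    ∀ z u, G (z, u, 0) = ev (Polynomial.derivative p) (z, u) := by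
  induction p using Polynomial.induction_on' with
  | add p q hp hq =>
    obtain ⟨G, hG, h1, h2⟩ := hp
    obtain ⟨G', hG', h1', h2'⟩ := hq
    refine ⟨fun x => G x + G' x, hG.add hG', fun z u b => ?_, fun z u => ?_⟩
    · rw [e5_add, e5_add, h1, h1']
      ring
    · rw [Polynomial.derivative_add, e5_add]
      simp only [h2, h2']
  | monomial m a =>
    refine ⟨fun x => MvPolynomial.eval x.1 a *
      ∑ k ∈ Finset.range m, (x.2.1 + x.2.2) ^ k * x.2.1 ^ (m - 1 - k),
      ?_, fun z u b => ?_, fun z u => ?_⟩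
    · refine ((MvPolynomial.continuous_eval a).comp continuous_fst).mul ?_
      fun_prop
    · have h := (Commute.all (u + b) u).geom_sum₂_mul m
      simp only [e5_mono]
      have h3 : u + b - u = b := by ring
      rw [h3] at h
      linear_combination (-(MvPolynomial.eval z a)) * h
    · simp only [add_zero]
      have h : ∀ k ∈ Finset.range m, u ^ k * u ^ (m - 1 - k) = u ^ (m - 1) := by
        intro k hk
        rw [← pow_add]
        congr 1
        have := Finset.mem_range.1 hk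
        omega
      rw [Finset.sum_congr rfl h, Finset.sum_const, Finset.card_range, nsmul_eq_mul,
        Polynomial.derivative_monomial]
      simp only [e5_mono, map_mul, map_natCast]
      ring

/-- The commuting pair, second form (same proof as `torus`, C6.lean, with `root_loop'` instead of
`root_loop`; hq of `root_loop'` is `Disc.disj`, i ≠ j because P i divides P i - 0). -/
theorem torus' [Finite ι] (P : ι → (MvPolynomial (Fin n) ℂ)[X]) (hm : ∀ i, (P i).Monic)
    (hirr : ∀ i, Irreducible (P i)) (r : MvPolynomial (Fin n) ℂ)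
    (hr : Disc P r) (i j : ι)
    (hnc : ∀ c : ℂ, ¬ P i ∣ P j - Polynomial.C (MvPolynomial.C c)) :
    ∃ (z : Fin n → ℂ) (u a : ℂ) (h : Adm P z u a) (c : Path (mbase P z u a h) (mbase P z u a h)),
      MvPolynomial.eval z r ≠ 0 ∧ ev (P i) (z, u) = 0 ∧
      ((mer P z u a h).trans c).Homotopic (c.trans (mer P z u a h)) ∧
      ∃ ℓ : C(I, ℂ), (∀ t, Complex.exp (ℓ t) = ev (P j) (c t).1) ∧ ℓ 1 ≠ ℓ 0 := by
  classical
  have hij : i ≠ j := by
    intro he
    apply hnc 0
    rw [he]
    simp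
  obtain ⟨z, u, hz, hu, hzu, ℓ, hℓ, hℓne⟩ := root_loop' (P i) (P j) (hm i) (hirr i)
    r hr.ne (hr.simple i) (fun x hx => hr.disj i j x hij hx.1 hx.2) hnc
  -- the radius
  have hE1 : ∀ k, ∀ᶠ δ : ℝ in nhdsWithin 0 (Set.Ioi 0), ∀ (t : I) (b : ℂ), b ≠ 0 → ‖b‖ ≤ δ →
      ev (P k) (z t, u t + b) ≠ 0 := by
    intro k
    by_cases hk : k = i
    · subst hk
      obtain ⟨G, hG, hG1, hG2⟩ := e5_quot (P k)
      have hc : Continuous fun q : I × ℂ => G (z q.1, u q.1, q.2) := by fun_prop
      filter_upwards [e5_tube {q : I × ℂ | G (z q.1, u q.1, q.2) ≠ 0}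
        (isOpen_ne_fun hc continuous_const) (fun t => by
          simp only [Set.mem_ofPred_eq, hG2]
          exact hr.simple k (z t, u t) (hzu t).1 (hzu t).2)] with δ hδ t b hb hb2
      rw [hG1, (hzu t).2, zero_add]
      exact mul_ne_zero hb (hδ t b hb2)
    · have hc : Continuous fun q : I × ℂ => ev (P k) (z q.1, u q.1 + q.2) :=
        (continuous_ev (P k)).comp (f := fun q : I × ℂ => (z q.1, u q.1 + q.2)) (by fun_prop)
      filter_upwards [e5_tube {q : I × ℂ | ev (P k) (z q.1, u q.1 + q.2) ≠ 0}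
        (isOpen_ne_fun hc continuous_const) (fun t => by
          simp only [Set.mem_ofPred_eq, add_zero]
          exact hr.disj i k (z t, u t) (Ne.symm hk) (hzu t).1 (hzu t).2)] with δ hδ t b _ hb2
      exact hδ t b hb2
  have hE2 : ∀ᶠ δ : ℝ in nhdsWithin 0 (Set.Ioi 0), ∀ (t : I) (b : ℂ), ‖b‖ ≤ δ →
      ‖ev (P j) (z t, u t + b) - ev (P j) (z t, u t)‖ < ‖ev (P j) (z t, u t)‖ := by
    have hc : Continuous fun q : I × ℂ => ev (P j) (z q.1, u q.1 + q.2) :=
      (continuous_ev (P j)).comp (f := fun q : I × ℂ => (z q.1, u q.1 + q.2)) (by fun_prop)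
    have hc2 : Continuous fun q : I × ℂ => ev (P j) (z q.1, u q.1) :=
      (continuous_ev (P j)).comp (f := fun q : I × ℂ => (z q.1, u q.1)) (by fun_prop)
    exact e5_tube {q : I × ℂ | ‖ev (P j) (z q.1, u q.1 + q.2) -
      ev (P j) (z q.1, u q.1)‖ < ‖ev (P j) (z q.1, u q.1)‖}
      (isOpen_lt (hc.sub hc2).norm hc2.norm) (fun t => by
        simp only [Set.mem_ofPred_eq, add_zero, sub_self, norm_zero, norm_pos_iff]
        exact hr.disj i j (z t, u t) hij (hzu t).1 (hzu t).2)
  obtain ⟨δ, ⟨hδ1, hδ2⟩, hδ0⟩ :=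
    (((Filter.eventually_all.2 hE1).and hE2).and self_mem_nhdsWithin).exists
  have hδ0 : 0 < δ := hδ0
  have hnδ : ‖(δ : ℂ)‖ = δ := by rw [Complex.norm_real, Real.norm_of_nonneg hδ0.le]
  have hδc : (δ : ℂ) ≠ 0 := by exact_mod_cast hδ0.ne'
  have hmem : ∀ (s : I) (b : ℂ), ‖b‖ = 1 →
      ((z s, u s + (δ : ℂ) * b) : (Fin n → ℂ) × ℂ) ∈ NX P := by
    intro s b hb k
    apply hδ1 k s
    · apply mul_ne_zero hδc
      intro h0
      rw [h0] at hb
      simp at hb
    · rw [norm_mul, hb, mul_one, hnδ]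
  have hmem1 : ∀ s : I, ((z s, u s + (δ : ℂ)) : (Fin n → ℂ) × ℂ) ∈ NX P := by
    intro s
    have := hmem s 1 (by simp)
    simpa using this
  have hadm : Adm P (z 0) (u 0) (δ : ℂ) := by
    refine ⟨hδc, fun b hb hb2 k => ?_⟩
    rw [hnδ] at hb2
    exact hδ1 k 0 b hb hb2
  let c : Path (mbase P (z 0) (u 0) δ hadm) (mbase P (z 0) (u 0) δ hadm) :=
    { toFun := fun s => ⟨(z s, u s + (δ : ℂ)), hmem1 s⟩
      continuous_toFun := by
        apply Continuous.subtype_mk
        fun_prop
      source' := rfl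
      target' := by
        apply Subtype.ext
        simp only [mbase]
        rw [← hz, ← hu] }
  let F : C(I × I, NX P) :=
    { toFun := fun q => ⟨(z q.1, u q.1 + (δ : ℂ) *
          Complex.exp (2 * Real.pi * (q.2 : ℝ) * Complex.I)), hmem _ _ (norm_circ q.2)⟩
      continuous_toFun := by
        apply Continuous.subtype_mk
        fun_prop }
  refine ⟨z 0, u 0, δ, hadm, c, (hzu 0).1, (hzu 0).2, ?_, ?_⟩
  · apply e5_square F
    · intro t
      rfl
    · intro t
      apply Subtype.ext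
      change (z 1, u 1 + (δ : ℂ) * Complex.exp (2 * Real.pi * (t : ℝ) * Complex.I)) =
        (z 0, u 0 + (δ : ℂ) * Complex.exp (2 * Real.pi * (t : ℝ) * Complex.I))
      rw [hz, hu]
    · intro s
      apply Subtype.ext
      change (z s, u s + (δ : ℂ) * Complex.exp (2 * Real.pi * ((0 : I) : ℝ) * Complex.I)) =
        (z s, u s + (δ : ℂ))
      simp
    · intro s
      apply Subtype.ext
      change (z s, u s + (δ : ℂ) * Complex.exp (2 * Real.pi * ((1 : I) : ℝ) * Complex.I)) =
        (z s, u s + (δ : ℂ))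
      simp [Complex.exp_two_pi_mul_I]
  · have hc : Continuous fun t : I => ev (P j) (z t, u t + (δ : ℂ)) :=
      (continuous_ev (P j)).comp (f := fun t : I => (z t, u t + (δ : ℂ))) (by fun_prop)
    have hc2 : Continuous fun t : I => ev (P j) (z t, u t) :=
      (continuous_ev (P j)).comp (f := fun t : I => (z t, u t)) (by fun_prop)
    obtain ⟨ℓ', h3, h4⟩ := log_perturb ⟨_, hc2⟩ ⟨_, hc.sub hc2⟩
      (fun t => by
        simp only [ContinuousMap.coe_mk]
        exact hδ2 t δ hnδ.le)
      (by simp only [ContinuousMap.coe_mk]; rw [hz, hu])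
      (by simp only [ContinuousMap.coe_mk, Pi.sub_apply]; rw [hz, hu])
      ℓ (fun t => hℓ t)
    refine ⟨ℓ', fun t => ?_, ?_⟩
    · rw [h3]
      simp only [ContinuousMap.coe_mk, Pi.sub_apply]
      change _ = ev (P j) (z t, u t + (δ : ℂ))
      exact add_sub_cancel _ _
    · intro h5
      apply hℓne
      rw [h5, sub_self] at h4
      exact (sub_eq_zero.1 h4.symm)

end H13M
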