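import Pool.Agent.Lib.H13K.A4

set_option autoImplicit false

namespace H13M

open H13K

private theorem e6_snd_of {A B : Type} [Group A] [Group B] {x g : Monoid.Coprod A B} (h : g⁻¹ * x * g ∈ SA A B) :
    Monoid.Coprod.snd x = 1 := by
  obtain ⟨a, ha⟩ := h
  have h1 := congrArg (Monoid.Coprod.snd : Monoid.Coprod A B →* B) ha
  rw [Monoid.Coprod.snd_apply_inl, map_mul, map_mul, map_inv] at h1
  have h2 : Monoid.Coprod.snd x = Monoid.Coprod.snd g *
      ((Monoid.Coprod.snd g)⁻¹ * Monoid.Coprod.snd x * Monoid.Coprod.snd g) * (Monoid.Coprod.snd g)⁻¹ := by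
    group
  rw [← h1, mul_one, mul_inv_cancel] at h2
  exact h2

private theorem e6_fst_of {A B : Type} [Group A] [Group B] {x g : Monoid.Coprod A B} (h : g⁻¹ * x * g ∈ SB A B) :
    Monoid.Coprod.fst x = 1 := by
  obtain ⟨a, ha⟩ := h
  have h1 := congrArg (Monoid.Coprod.fst : Monoid.Coprod A B →* A) ha
  rw [Monoid.Coprod.fst_apply_inr, map_mul, map_mul, map_inv] at h1
  have h2 : Monoid.Coprod.fst x = Monoid.Coprod.fst g *
      ((Monoid.Coprod.fst g)⁻¹ * Monoid.Coprod.fst x * Monoid.Coprod.fst g) * (Monoid.Coprod.fst g)⁻¹ := by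
    group
  rw [← h1, mul_one, mul_inv_cancel] at h2
  exact h2

private theorem e6_comm_inr {A B K : Type} [Group A] [Group B] [CommGroup K] (φ : Monoid.Coprod A B →* K)
    {x g : Monoid.Coprod A B} (h : g⁻¹ * x * g ∈ SB A B) :
    φ (Monoid.Coprod.inr (Monoid.Coprod.snd x)) = φ x := by
  obtain ⟨a, ha⟩ := h
  have h1 : x = g * Monoid.Coprod.inr a * g⁻¹ := by rw [ha]; group
  rw [h1]
  simp only [map_mul, map_inv, Monoid.Coprod.snd_apply_inr]
  rw [mul_comm (φ (Monoid.Coprod.inr (Monoid.Coprod.snd g))), mul_comm (φ g), mul_inv_cancel_right,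
    mul_inv_cancel_right]

private theorem e6_one_of {A B : Type} [Group A] [Group B] {x g k : Monoid.Coprod A B} (h : g⁻¹ * x * g ∈ SA A B)
    (h' : k⁻¹ * x * k ∈ SB A B) : x = 1 := by
  have h2 := e6_fst_of h'
  obtain ⟨a, ha⟩ := h
  have h3 : x = g * Monoid.Coprod.inl a * g⁻¹ := by rw [ha]; group
  rw [h3] at h2
  simp only [map_mul, map_inv, Monoid.Coprod.fst_apply_inl] at h2
  have h4 : a = 1 := by
    have h5 : a = (Monoid.Coprod.fst g)⁻¹ * (Monoid.Coprod.fst g * a * (Monoid.Coprod.fst g)⁻¹) * Monoid.Coprod.fst g := by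
      group
    rw [h5, h2]
    group
  rw [h3, h4, map_one]
  group

private theorem e6_comm_inl {A B K : Type} [Group A] [Group B] [CommGroup K] (φ : Monoid.Coprod A B →* K)
    {x g : Monoid.Coprod A B} (h : g⁻¹ * x * g ∈ SA A B) :
    φ (Monoid.Coprod.inl (Monoid.Coprod.fst x)) = φ x := by
  obtain ⟨a, ha⟩ := h
  have h1 : x = g * Monoid.Coprod.inl a * g⁻¹ := by rw [ha]; group
  rw [h1]
  simp only [map_mul, map_inv, Monoid.Coprod.fst_apply_inl]
  rw [mul_comm (φ (Monoid.Coprod.inl (Monoid.Coprod.fst g))), mul_comm (φ g), mul_inv_cancel_right,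
    mul_inv_cancel_right]

/-- The types of the meridians without symmetry of adj (as `alg3`, C16.lean, and H13K.alg2, K16.lean:
every index has a type; for adj i j the types of i and j agree: if i is of type A and j of type B,
psi = w j ∘ e.symm ∘ inr ∘ snd ∘ e agrees with w j on all meridians, but not at c). -/
theorem alg4 {G : Type} [Group G] {ι : Type} [DecidableEq ι] (M : ι → Set G)
    (w : ι → G →* Multiplicative ℂ)
    (hconj : ∀ i, ∀ m ∈ M i, ∀ m' ∈ M i, IsConj m m')
    (hw : ∀ i, ∀ m ∈ M i, ∀ j, (w j m).toAdd = if j = i then 1 else 0)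
    (hgen : ∀ (H : Type) [Group H] (ψ : G →* H), (∀ i, ∀ m ∈ M i, ψ m = 1) → ∀ x, ψ x = 1)
    (adj : ι → ι → Prop)
    (hadj : ∀ i j, adj i j → i ≠ j ∧ ∃ m ∈ M i, ∃ c : G, Commute m c ∧ (w j c).toAdd ≠ 0)
    (hdeg : ∀ i, ∃ j, adj i j)
    (A B : Type) [Group A] [Group B] (e : G ≃* Monoid.Coprod A B) :
    ∃ T : Set ι, (∀ i ∈ T, ∀ m ∈ M i, ∃ g : Monoid.Coprod A B, g⁻¹ * e m * g ∈ SB A B) ∧
      (∀ i, i ∉ T → ∀ m ∈ M i, ∃ g : Monoid.Coprod A B, g⁻¹ * e m * g ∈ SA A B) ∧
      ∀ i ∈ T, ∀ j, j ∉ T → ¬ adj i j ∧ ¬ adj j i := by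
  have hne : ∀ i, (M i).Nonempty := by
    intro i
    obtain ⟨j, hj⟩ := hdeg i
    obtain ⟨-, m, hm, -⟩ := hadj i j hj
    exact ⟨m, hm⟩
  classical
  -- the two types
  let TA : Monoid.Coprod A B → Prop := fun x => ∃ g, g⁻¹ * x * g ∈ SA A B
  let TB : Monoid.Coprod A B → Prop := fun x => ∃ g, g⁻¹ * x * g ∈ SB A B
  have hTAc : ∀ x y : G, IsConj x y → TA (e x) → TA (e y) := by
    rintro x y hxy ⟨g, hg⟩
    obtain ⟨k, hk⟩ := isConj_iff.1 hxy
    refine ⟨e k * g, ?_⟩
    have h1 : (e k * g)⁻¹ * e y * (e k * g) = g⁻¹ * e x * g := by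
      rw [← hk, map_mul, map_mul, map_inv]
      group
    rw [h1]
    exact hg
  have hTBc : ∀ x y : G, IsConj x y → TB (e x) → TB (e y) := by
    rintro x y hxy ⟨g, hg⟩
    obtain ⟨k, hk⟩ := isConj_iff.1 hxy
    refine ⟨e k * g, ?_⟩
    have h1 : (e k * g)⁻¹ * e y * (e k * g) = g⁻¹ * e x * g := by
      rw [← hk, map_mul, map_mul, map_inv]
      group
    rw [h1]
    exact hg
  have hexcl : ∀ i, ∀ m ∈ M i, TA (e m) → TB (e m) → False := by
    rintro i m hm ⟨g, hg⟩ ⟨k, hk⟩
    have h1 : e m = 1 := e6_one_of hg hk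
    have h2 : m = 1 := (map_eq_one_iff e e.injective).1 h1
    have h3 := hw i m hm i
    rw [h2, map_one, if_pos rfl] at h3
    exact zero_ne_one h3
  -- what an adjacency gives
  have hkey : ∀ i j, adj i j → ∃ c : G, (w j c).toAdd ≠ 0 ∧
      (((∀ m ∈ M i, TA (e m)) ∧ TA (e c)) ∨ ((∀ m ∈ M i, TB (e m)) ∧ TB (e c))) := by
    intro i j hij
    obtain ⟨hne', m, hm, c, hmc, hn⟩ := hadj i j hij
    refine ⟨c, hn, ?_⟩
    have hji : j ≠ i := fun h => hne' h.symm
    have h1 : Commute (e m) (e c) := by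
      have := congrArg e hmc.eq
      rw [map_mul, map_mul] at this
      exact this
    have h2 : ∀ a b : ℤ, (e m) ^ a * (e c) ^ b = 1 → a = 0 ∧ b = 0 := by
      intro a b hab
      have h3 : e (m ^ a * c ^ b) = 1 := by rw [map_mul, map_zpow, map_zpow, hab]
      have h4 : m ^ a * c ^ b = 1 := (map_eq_one_iff e e.injective).1 h3
      have h5 : ∀ l, (a : ℂ) * (w l m).toAdd + (b : ℂ) * (w l c).toAdd = 0 := by
        intro l
        have h6 := congrArg (fun x => (w l x).toAdd) h4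
        simpa only [map_mul, map_zpow, toAdd_mul, toAdd_zpow, map_one, toAdd_one, zsmul_eq_mul] using h6
      have h10 := h5 j
      rw [hw i m hm j, if_neg hji, mul_zero, zero_add] at h10
      have h9 : b = 0 := by
        rcases mul_eq_zero.1 h10 with h12 | h12
        · exact_mod_cast h12
        · exact absurd h12 hn
      have h7 := h5 i
      rw [hw i m hm i, if_pos rfl, h9] at h7
      have h8 : (a : ℂ) = 0 := by simpa using h7
      exact ⟨by exact_mod_cast h8, h9⟩
    obtain ⟨g, hg⟩ := lemmaF (e m) (e c) h1 h2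
    rcases hg with ⟨hg1, hg2⟩ | ⟨hg1, hg2⟩
    · exact Or.inl ⟨fun m' hm' => hTAc m m' (hconj i m hm m' hm') ⟨g, hg1⟩, ⟨g, hg2⟩⟩
    · exact Or.inr ⟨fun m' hm' => hTBc m m' (hconj i m hm m' hm') ⟨g, hg1⟩, ⟨g, hg2⟩⟩
  -- every index has a type
  have htype : ∀ i, (∀ m ∈ M i, TA (e m)) ∨ (∀ m ∈ M i, TB (e m)) := by
    intro i
    have h1 : ∃ j, adj i j := hdeg i
    obtain ⟨j, hj⟩ := h1
    obtain ⟨c, -, h2 | h2⟩ := hkey i j hj
    · exact Or.inl h2.1
    · exact Or.inr h2.1
  have hnot : ∀ i, (∀ m ∈ M i, TA (e m)) → (∀ m ∈ M i, TB (e m)) → False := by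
    intro i hA hB
    obtain ⟨m, hm⟩ := hne i
    exact hexcl i m hm (hA m hm) (hB m hm)
  -- the types agree along adjacencies
  have hAB : ∀ i j, adj i j → (∀ m ∈ M i, TA (e m)) → (∀ m ∈ M j, TB (e m)) → False := by
    intro i j hij hi hj
    let ψ : G →* Multiplicative ℂ :=
      (w j).comp ((e.symm.toMonoidHom.comp (Monoid.Coprod.inr.comp Monoid.Coprod.snd)).comp e.toMonoidHom)
    have hψ : ∀ x, ψ x = w j (e.symm (Monoid.Coprod.inr (Monoid.Coprod.snd (e x)))) := fun _ => rfl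
    have hkill : ∀ l, ∀ m ∈ M l, (ψ / w j) m = 1 := by
      intro l m hm
      rw [MonoidHom.div_apply, div_eq_one, hψ]
      rcases htype l with hl | hl
      · obtain ⟨g, hg⟩ := hl m hm
        rw [e6_snd_of hg, map_one, map_one, map_one]
        have hjl : j ≠ l := by
          rintro rfl
          exact hnot _ hl hj
        have h1 := hw l m hm j
        rw [if_neg hjl] at h1
        exact (toAdd_eq_zero.1 h1).symm
      · obtain ⟨g, hg⟩ := hl m hm
        have h1 := e6_comm_inr ((w j).comp e.symm.toMonoidHom) hg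
        have h2 : ((w j).comp e.symm.toMonoidHom) (e m) = w j m := by
          show w j (e.symm (e m)) = w j m
          rw [MulEquiv.symm_apply_apply]
        rw [h2] at h1
        exact h1
    have hall := hgen (Multiplicative ℂ) (ψ / w j) hkill
    obtain ⟨c, hn, h3⟩ := hkey i j hij
    rcases h3 with h3 | h3
    · obtain ⟨g, hg⟩ := h3.2
      have h4 := hall c
      rw [MonoidHom.div_apply, div_eq_one, hψ, e6_snd_of hg, map_one, map_one, map_one] at h4
      exact hn (by rw [← h4, toAdd_one])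
    · exact hnot i hi h3.1
  have hBA : ∀ i j, adj i j → (∀ m ∈ M i, TB (e m)) → (∀ m ∈ M j, TA (e m)) → False := by
    intro i j hij hi hj
    let ψ : G →* Multiplicative ℂ :=
      (w j).comp ((e.symm.toMonoidHom.comp (Monoid.Coprod.inl.comp Monoid.Coprod.fst)).comp e.toMonoidHom)
    have hψ : ∀ x, ψ x = w j (e.symm (Monoid.Coprod.inl (Monoid.Coprod.fst (e x)))) := fun _ => rfl
    have hkill : ∀ l, ∀ m ∈ M l, (ψ / w j) m = 1 := by
      intro l m hm
      rw [MonoidHom.div_apply, div_eq_one, hψ]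
      rcases htype l with hl | hl
      · obtain ⟨g, hg⟩ := hl m hm
        have h1 := e6_comm_inl ((w j).comp e.symm.toMonoidHom) hg
        have h2 : ((w j).comp e.symm.toMonoidHom) (e m) = w j m := by
          show w j (e.symm (e m)) = w j m
          rw [MulEquiv.symm_apply_apply]
        rw [h2] at h1
        exact h1
      · obtain ⟨g, hg⟩ := hl m hm
        rw [e6_fst_of hg, map_one, map_one, map_one]
        have hjl : j ≠ l := by
          rintro rfl
          exact hnot _ hj hl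
        have h1 := hw l m hm j
        rw [if_neg hjl] at h1
        exact (toAdd_eq_zero.1 h1).symm
    have hall := hgen (Multiplicative ℂ) (ψ / w j) hkill
    obtain ⟨c, hn, h3⟩ := hkey i j hij
    rcases h3 with h3 | h3
    · exact hnot i h3.1 hi
    · obtain ⟨g, hg⟩ := h3.2
      have h4 := hall c
      rw [MonoidHom.div_apply, div_eq_one, hψ, e6_fst_of hg, map_one, map_one, map_one] at h4
      exact hn (by rw [← h4, toAdd_one])
  refine ⟨{i | ∀ m ∈ M i, TB (e m)}, fun i hi => hi, ?_, ?_⟩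
  · intro i hi
    rcases htype i with h | h
    · exact h
    · exact absurd h hi
  · intro i hi j hj
    have hj' : ∀ m ∈ M j, TA (e m) := by
      rcases htype j with h | h
      · exact h
      · exact absurd h hj
    exact ⟨fun hij => hBA i j hij hi hj', fun hji => hAB j i hji hj' hi⟩

/-- If all meridians have the same type, the other factor is trivial (fst ∘ e or snd ∘ e kills all
meridians and is surjective). -/
theorem alg5 {G : Type} [Group G] {ι : Type} (M : ι → Set G)
    (hgen : ∀ (H : Type) [Group H] (ψ : G →* H), (∀ i, ∀ m ∈ M i, ψ m = 1) → ∀ x, ψ x = 1)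
    (A B : Type) [Group A] [Group B] (e : G ≃* Monoid.Coprod A B) (T : Set ι)
    (hT : T = ∅ ∨ T = Set.univ)
    (h1 : ∀ i ∈ T, ∀ m ∈ M i, ∃ g : Monoid.Coprod A B, g⁻¹ * e m * g ∈ SB A B)
    (h2 : ∀ i, i ∉ T → ∀ m ∈ M i, ∃ g : Monoid.Coprod A B, g⁻¹ * e m * g ∈ SA A B) :
    Subsingleton A ∨ Subsingleton B := by
  rcases hT with hT | hT
  · right
    have htriv := hgen B ((Monoid.Coprod.snd : Monoid.Coprod A B →* B).comp e.toMonoidHom) (by
      intro l m hm
      obtain ⟨g, hg⟩ := h2 l (by rw [hT]; exact Set.notMem_empty l) m hm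
      exact e6_snd_of hg)
    refine ⟨fun a b => ?_⟩
    have h3 : ∀ a : B, a = 1 := by
      intro a
      have h4 := htriv (e.symm (Monoid.Coprod.inr a))
      have h5 : Monoid.Coprod.snd (e (e.symm (Monoid.Coprod.inr a : Monoid.Coprod A B))) = 1 := h4
      rw [MulEquiv.apply_symm_apply, Monoid.Coprod.snd_apply_inr] at h5
      exact h5
    rw [h3 a, h3 b]
  · left
    have htriv := hgen A ((Monoid.Coprod.fst : Monoid.Coprod A B →* A).comp e.toMonoidHom) (by
      intro l m hm
      obtain ⟨g, hg⟩ := h1 l (by rw [hT]; exact Set.mem_univ l) m hm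
      exact e6_fst_of hg)
    refine ⟨fun a b => ?_⟩
    have h3 : ∀ a : A, a = 1 := by
      intro a
      have h4 := htriv (e.symm (Monoid.Coprod.inl a))
      have h5 : Monoid.Coprod.fst (e (e.symm (Monoid.Coprod.inl a : Monoid.Coprod A B))) = 1 := h4
      rw [MulEquiv.apply_symm_apply, Monoid.Coprod.fst_apply_inl] at h5
      exact h5
    rw [h3 a, h3 b]

end H13M
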