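import Pool.Agent.Lib.H13M.D

set_option autoImplicit false

open scoped unitInterval Polynomial

namespace H13M

open H13K

variable {n : ℕ} {ι : Type}

private theorem e7_pos {p : (MvPolynomial (Fin n) ℂ)[X]} (hp : p.Monic) (hpi : Irreducible p) :
    0 < p.natDegree := by
  rw [Nat.pos_iff_ne_zero]
  intro h0
  exact hpi.not_isUnit ((hp.isUnit_iff).2 (hp.natDegree_eq_zero.1 h0))

private theorem e7_monic {p : (MvPolynomial (Fin n) ℂ)[X]} (hp : p.Monic) (hpi : Irreducible p)
    (a : MvPolynomial (Fin n) ℂ) : (p - Polynomial.C a).Monic := by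
  apply hp.sub_of_left
  exact lt_of_le_of_lt Polynomial.degree_C_le
    (Polynomial.natDegree_pos_iff_degree_pos.1 (e7_pos hp hpi))

private theorem e7_deg {p q : (MvPolynomial (Fin n) ℂ)[X]} (hq : q.Monic)
    (hqi : Irreducible q) (a : MvPolynomial (Fin n) ℂ) (h : p ∣ q - Polynomial.C a) :
    p.natDegree ≤ q.natDegree := by
  have h1 := Polynomial.natDegree_le_of_dvd h (e7_monic hq hqi a).ne_zero
  rwa [Polynomial.natDegree_sub_C] at h1

private theorem e7_eq {p q : (MvPolynomial (Fin n) ℂ)[X]} (hp : p.Monic) (hpi : Irreducible p)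
    (hq : q.Monic) (hqi : Irreducible q) (a b : MvPolynomial (Fin n) ℂ)
    (h : p ∣ q - Polynomial.C a) (h' : q ∣ p - Polynomial.C b) : q - Polynomial.C a = p := by
  apply Polynomial.eq_of_monic_of_dvd_of_natDegree_le hp (e7_monic hq hqi a) h
  rw [Polynomial.natDegree_sub_C]
  exact e7_deg hp hpi b h'

/-- Mutually constant monic polynomials differ by a constant, so a partition without adjacency is
trivial.
Proof: i ∈ T, j ∉ T: P j - c = P i * g and P i - c' = P j * g'; degrees in w (natDegree P i ≥ 1,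
irreducible monic) give natDegree g = 0 and g monic, g = 1: P j = P i + c.  If T and its complement
are both nonempty, any two members of the family differ by a constant (compare two members of T with
one outside), so P i divides P j - c for all i, j: contradiction to hnc (which needs some i). -/
theorem part_trivial (P : ι → (MvPolynomial (Fin n) ℂ)[X]) (hm : ∀ i, (P i).Monic)
    (hirr : ∀ i, Irreducible (P i)) (T : Set ι)
    (h : ∀ i ∈ T, ∀ j, j ∉ T → (∃ c : ℂ, P i ∣ P j - Polynomial.C (MvPolynomial.C c)) ∧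
      ∃ c : ℂ, P j ∣ P i - Polynomial.C (MvPolynomial.C c))
    (hnc : ∀ i, ∃ j, ∀ c : ℂ, ¬ P i ∣ P j - Polynomial.C (MvPolynomial.C c)) :
    T = ∅ ∨ T = Set.univ := by
  by_contra hcon
  push Not at hcon
  obtain ⟨hT1, hT2⟩ := hcon
  obtain ⟨i₀, hi₀⟩ : ∃ i, i ∈ T := by
    by_contra h1
    push Not at h1
    exact hT1.ne_empty (Set.eq_empty_of_forall_notMem h1)
  obtain ⟨j₀, hj₀⟩ : ∃ j, j ∉ T := by
    by_contra h1
    push Not at h1
    exact hT2 (Set.eq_univ_of_forall h1)
  have key : ∀ i ∈ T, ∀ j, j ∉ T → ∃ c : ℂ, P j - Polynomial.C (MvPolynomial.C c) = P i := by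
    intro i hi j hj
    obtain ⟨⟨c, hc⟩, ⟨d, hd⟩⟩ := h i hi j hj
    exact ⟨c, e7_eq (hm i) (hirr i) (hm j) (hirr j) _ _ hc hd⟩
  have all : ∀ k, ∃ c : ℂ, P k - Polynomial.C (MvPolynomial.C c) = P i₀ := by
    intro k
    by_cases hk : k ∈ T
    · obtain ⟨c1, h1⟩ := key k hk j₀ hj₀
      obtain ⟨c2, h2⟩ := key i₀ hi₀ j₀ hj₀
      refine ⟨c2 - c1, ?_⟩
      rw [map_sub, map_sub, ← h1, ← h2]
      ring
    · exact key i₀ hi₀ k hk
  obtain ⟨j, hj⟩ := hnc i₀
  obtain ⟨c, hc⟩ := all j
  exact hj c (by rw [hc])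

end H13M
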