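import Pool.Agent.Lib.H13M.D
import Pool.Agent.Lib.H13M.C1
import Pool.Agent.Lib.H13M.C7
import Pool.Agent.Lib.H13M.C8
import Pool.Agent.Lib.H13M.C11
import Pool.Agent.Lib.H13M.C12
import Pool.Agent.Lib.H13M.C15
import Pool.Agent.Lib.H13M.E5
import Pool.Agent.Lib.H13M.E6
import Pool.Agent.Lib.H13M.E7
import Pool.Agent.Lib.H13K.G
import Pool.Agent.Lib.H13K.T2

set_option autoImplicit false

open scoped unitInterval Polynomial

namespace H13M

open H13K

variable {n : ℕ} {ι : Type}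

/-- The function `P l` on the complement. -/
private noncomputable def e8_fun (P : ι → (MvPolynomial (Fin n) ℂ)[X]) (l : ι) : C(NX P, ℂ) :=
  ⟨fun x => ev (P l) x.1, (continuous_ev (P l)).comp continuous_subtype_val⟩

/-- Winding homomorphisms. -/
private theorem e8_wind (P : ι → (MvPolynomial (Fin n) ℂ)[X]) [PathConnectedSpace (NX P)]
    (x₀ : NX P) (Φ : PF (NX P) (FundamentalGroup (NX P) x₀))
    (hΦ : ∀ p : Path x₀ x₀, Φ.val p = FundamentalGroup.fromPath (Path.Homotopic.Quotient.mk p))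
    (l : ι) :
    ∃ w : FundamentalGroup (NX P) x₀ →* Multiplicative ℂ, ∀ (x : NX P) (p : Path x x)
      (ℓ : C(I, ℂ)), (∀ t, Complex.exp (ℓ t) = ev (P l) (p t).1) →
      (w (Φ.val p)).toAdd = (2 * Real.pi * Complex.I)⁻¹ * (ℓ 1 - ℓ 0) := by
  obtain ⟨L, hL⟩ := exists_log (e8_fun P l) (fun x => x.2 l)
  let ψ : Multiplicative ℂ →* Multiplicative ℂ :=
    AddMonoidHom.toMultiplicative (AddMonoidHom.mulLeft ((2 * Real.pi * Complex.I)⁻¹))
  have hψ : ∀ c : Multiplicative ℂ,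
      (ψ c).toAdd = (2 * Real.pi * Complex.I)⁻¹ * c.toAdd := fun c => rfl
  obtain ⟨w, hw⟩ := exists_hom (L.push ψ) x₀
  refine ⟨w, ?_⟩
  intro x p ℓ hℓ
  have h1 := hom_univ (L.push ψ) x₀ Φ hΦ w hw x p
  rw [h1]
  have h2 : (L.push ψ).val p = ψ (L.val p) := rfl
  rw [h2, hψ, hL p ℓ hℓ]

/-- Every element of the fundamental group is the class of a loop. -/
private theorem e8_mk {X : Type} [TopologicalSpace X] (x₀ : X) (x : FundamentalGroup X x₀) :
    ∃ p : Path x₀ x₀, FundamentalGroup.fromPath (Path.Homotopic.Quotient.mk p) = x := by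
  obtain ⟨p, hp⟩ := Path.Homotopic.Quotient.mk_surjective (FundamentalGroup.toPath x)
  refine ⟨p, ?_⟩
  rw [hp]

/-- Families monic in w: free indecomposability.
Proof: as `main3` (C20.lean) up to the partition T: r from `exists_disc`; G, M i, w l as there; adj i j
= (P i divides no P j - c); hadj: `torus'`; `alg4` gives T; `part_trivial`; `alg5`. -/
theorem main4 [Fintype ι] (P : ι → (MvPolynomial (Fin n) ℂ)[X]) (hm : ∀ i, (P i).Monic)
    (hirr : ∀ i, Irreducible (P i)) (hinj : Function.Injective P)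
    (hnc : ∀ i, ∃ j, ∀ c : ℂ, ¬ P i ∣ P j - Polynomial.C (MvPolynomial.C c)) (x₀ : NX P)
    (A B : Type) [Group A] [Group B]
    (e : FundamentalGroup (NX P) x₀ ≃* Monoid.Coprod A B) :
    Subsingleton A ∨ Subsingleton B := by
  classical
  have : PathConnectedSpace (NX P) := by
    have h1 := NX_convex_pc P hm Set.univ convex_univ isOpen_univ ⟨0, trivial⟩
    rw [Set.univ_inter] at h1
    exact isPathConnected_iff_pathConnectedSpace.1 h1
  obtain ⟨r, hr⟩ := exists_disc P hm hirr hinj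
  obtain ⟨Φ, hΦ⟩ := exists_univ x₀
  choose w hw using fun l => e8_wind P x₀ Φ hΦ l
  have hpi : (2 * Real.pi * Complex.I : ℂ) ≠ 0 := Complex.two_pi_I_ne_zero
  let M : ι → Set (FundamentalGroup (NX P) x₀) := fun i =>
    {m | ∃ (z : Fin n → ℂ) (u a : ℂ) (h : Adm P z u a),
      MvPolynomial.eval z r ≠ 0 ∧ ev (P i) (z, u) = 0 ∧ m = Φ.val (mer P z u a h)}
  have hgen : ∀ (H : Type) [Group H] (ψ : FundamentalGroup (NX P) x₀ →* H),
      (∀ i, ∀ m ∈ M i, ψ m = 1) → ∀ x, ψ x = 1 := by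
    intro H _ ψ hψ x
    have hk : Kills Set.univ r (Φ.push ψ) := by
      intro i _ z u a h hz hu
      exact hψ i _ ⟨z, u, a, h, hz, hu, rfl⟩
    obtain ⟨p, rfl⟩ := e8_mk _ x
    rw [← hΦ]
    exact kills_all P hm r hr (Φ.push ψ) hk x₀ p
  obtain ⟨T, hTB, hTA, hTn⟩ := alg4 (G := FundamentalGroup (NX P) x₀) M w
    (by
      rintro i m ⟨z, u, a, h, hz, hu, rfl⟩ m' ⟨z', u', a', h', hz', hu', rfl⟩
      obtain ⟨q, hq⟩ := mer_conj P r hr i
        (CS_pathConnected (P i) (hm i) (hirr i) r hr.ne (hr.simple i)) h hz hu h' hz' hu'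
      have h1 := Φ.homot hq
      rw [Φ.trans, Φ.trans] at h1
      rw [isConj_iff]
      exact ⟨Φ.val q, by rw [h1, mul_inv_cancel_right]⟩)
    (by
      rintro i m ⟨z, u, a, h, hz, hu, rfl⟩ j
      obtain ⟨ℓ, h1, h2⟩ := mer_log P hm r hr i z u a h hz hu j
      rw [hw j _ _ ℓ h1, h2]
      split_ifs
      · exact inv_mul_cancel₀ hpi
      · exact mul_zero _)
    hgen (fun i j => ∀ c : ℂ, ¬ P i ∣ P j - Polynomial.C (MvPolynomial.C c))
    (by
      intro i j hij
      refine ⟨?_, ?_⟩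
      · rintro rfl
        refine hij 0 ?_
        rw [map_zero, map_zero, sub_zero]
      · obtain ⟨z, u, a, h, c, hz, hu, hc, ℓ, hℓ, hℓ'⟩ := torus' P hm hirr r hr i j hij
        refine ⟨_, ⟨z, u, a, h, hz, hu, rfl⟩, Φ.val c, ?_, ?_⟩
        · have h1 := Φ.homot hc
          rw [Φ.trans, Φ.trans] at h1
          exact h1.symm
        · rw [hw j _ _ ℓ hℓ]
          exact mul_ne_zero (inv_ne_zero hpi) (sub_ne_zero.2 hℓ'))
    hnc A B e
  have hT : T = ∅ ∨ T = Set.univ := by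
    refine part_trivial P hm hirr T ?_ hnc
    intro i hi j hj
    obtain ⟨h1, h2⟩ := hTn i hi j hj
    refine ⟨?_, ?_⟩
    · by_contra h3
      exact h1 fun c hc => h3 ⟨c, hc⟩
    · by_contra h3
      exact h2 fun c hc => h3 ⟨c, hc⟩
  exact alg5 M hgen A B e T hT hTB hTA

end H13M
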