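import Pool.Agent.Lib.H13M.D
import Pool.Agent.Lib.H13M.E8
import Pool.Agent.Lib.H13M.C21
import Pool.Agent.Lib.H13M.C22

set_option autoImplicit false

open scoped unitInterval Polynomial

namespace H13M

open H13K

variable {n : ℕ} {ι : Type}

/-- A homeomorphism induces an isomorphism of fundamental groups. -/
private theorem e9_pi {X Y : Type} [TopologicalSpace X] [TopologicalSpace Y] (e : X ≃ₜ Y) {x : X}
    {y : Y} (h : e x = y) : Nonempty (FundamentalGroup X x ≃* FundamentalGroup Y y) := by
  have h' : e.symm y = x := by rw [← h, e.symm_apply_apply]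
  refine ⟨MonoidHom.toMulEquiv
    (FundamentalGroup.mapOfEq (⟨e, e.continuous⟩ : C(X, Y)) (x := x) (y := y) h)
    (FundamentalGroup.mapOfEq (⟨e.symm, e.symm.continuous⟩ : C(Y, X)) (x := y) (y := x) h') ?_ ?_⟩
  · ext p
    rw [MonoidHom.comp_apply, FundamentalGroup.mapOfEq_apply, FundamentalGroup.mapOfEq_apply]
    induction p using Path.Homotopic.Quotient.ind with | mk γ =>
    change Path.Homotopic.Quotient.mk _ = Path.Homotopic.Quotient.mk γ
    congr 1
    exact Path.ext (funext fun t => e.symm_apply_apply (γ t))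
  · ext p
    rw [MonoidHom.comp_apply, FundamentalGroup.mapOfEq_apply, FundamentalGroup.mapOfEq_apply]
    induction p using Path.Homotopic.Quotient.ind with | mk γ =>
    change Path.Homotopic.Quotient.mk _ = Path.Homotopic.Quotient.mk γ
    congr 1
    exact Path.ext (funext fun t => e.apply_symm_apply (γ t))

/-- Final form: every irreducible factor p of f has a companion q, an irreducible factor of f that is
not constant on the zero set of p.  Then the fundamental group of the complement of f = 0 is not a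
free product of two nontrivial groups.
Proof: f ≠ 0 because of x₀; L, φ from `exists_shear`, P from `exists_family` for F = φ f; hnc of
`main4`: P i is associated to φ p, p irreducible factor of f (φ.symm (P i)); q as in hf, φ q
associated to P j; P i ∣ P j - c would make q constant on the zeros of p (units of the polynomial
rings are constants).  L restricts to a homeomorphism of {f ≠ 0} onto NX P. -/
theorem final4 (f : MvPolynomial (Fin (n + 1)) ℂ)
    (hf : ∀ p : MvPolynomial (Fin (n + 1)) ℂ, Irreducible p → p ∣ f →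
      ∃ q : MvPolynomial (Fin (n + 1)) ℂ, Irreducible q ∧ q ∣ f ∧
        ∃ x y, MvPolynomial.eval x p = 0 ∧ MvPolynomial.eval y p = 0 ∧
          MvPolynomial.eval x q ≠ MvPolynomial.eval y q)
    (x₀ : {z : Fin (n + 1) → ℂ // MvPolynomial.eval z f ≠ 0}) (A B : Type) [Group A] [Group B]
    (e : FundamentalGroup {z : Fin (n + 1) → ℂ // MvPolynomial.eval z f ≠ 0} x₀ ≃*
      Monoid.Coprod A B) : Subsingleton A ∨ Subsingleton B := by
  have hf0 : f ≠ 0 := by
    obtain ⟨v, hv⟩ : ∃ v : Fin (n + 1) → ℂ, MvPolynomial.eval v f ≠ 0 := ⟨x₀.1, x₀.2⟩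
    intro h
    exact hv (by rw [h, map_zero])
  obtain ⟨L, φ, hφ, hu⟩ := exists_shear f hf0
  obtain ⟨ι, hι, P, hm, hirr, hinj, hdvd, hz, hass⟩ := exists_family (φ f) hu
  have hnc : ∀ i, ∃ j, ∀ c : ℂ, ¬ P i ∣ P j - Polynomial.C (MvPolynomial.C c) := by
    intro i
    have h1 : Irreducible (φ.symm (P i)) := (MulEquiv.irreducible_iff φ.symm).2 (hirr i)
    have h2 : φ.symm (P i) ∣ f := by
      have h3 := map_dvd φ.symm (hdvd i)
      rwa [AlgEquiv.symm_apply_apply] at h3
    obtain ⟨q, hq, hqf, x, y, hx, hy, hxy⟩ := hf _ h1 h2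
    obtain ⟨j, hj⟩ := hass (φ q) ((MulEquiv.irreducible_iff φ).2 hq) (map_dvd φ hqf)
    refine ⟨j, fun c hc => hxy ?_⟩
    have h4 := hj.map φ.symm
    rw [AlgEquiv.symm_apply_apply] at h4
    obtain ⟨v, hv⟩ := h4
    obtain ⟨a, ha, hva⟩ := MvPolynomial.isUnit_iff_eq_C_of_isReduced.1 v.isUnit
    have h5 : ∀ z : Fin (n + 1) → ℂ, MvPolynomial.eval z (φ.symm (P i)) = 0 →
        MvPolynomial.eval z q * a = c := by
      intro z h0
      rw [← hφ, AlgEquiv.apply_symm_apply] at h0
      obtain ⟨g, hg⟩ := hc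
      have h6 : ev (P j) (L z) = c := by
        have h7 : P j = P i * g + Polynomial.C (MvPolynomial.C c) := by rw [← hg, sub_add_cancel]
        rw [h7]
        have h8 : ev (P i * g + Polynomial.C (MvPolynomial.C c)) (L z) =
            ev (P i) (L z) * ev g (L z) + c := by
          simp [ev]
        rw [h8, h0, zero_mul, zero_add]
      rw [← h6]
      have h9 := hφ (φ.symm (P j)) z
      rw [AlgEquiv.apply_symm_apply] at h9
      rw [h9, ← hv, hva, map_mul, MvPolynomial.eval_C]
    have h10 := h5 x hx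
    rw [← h5 y hy] at h10
    exact mul_right_cancel₀ ha.ne_zero h10
  have key : ∀ v : Fin (n + 1) → ℂ, (∃ i, ev (P i) (L v) = 0) ↔ MvPolynomial.eval v f = 0 := by
    intro v
    rw [← hz, hφ]
  have hiff : ∀ v : Fin (n + 1) → ℂ, MvPolynomial.eval v f ≠ 0 ↔ L v ∈ NX P := by
    intro v
    rw [← not_iff_not, not_not, ← key v]
    change _ ↔ ¬ ∀ i, ev (P i) (L v) ≠ 0
    push Not
    rfl
  obtain ⟨g⟩ := e9_pi (L.subtype hiff) (x := x₀) rfl
  exact main4 P hm hirr hinj hnc _ A B (g.symm.trans e)

end H13M
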